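import Mathlib
import Pool.Agent.W66.LQ

set_option autoImplicit false

/-!
# Near pairs for the residues of `α c ^ p` modulo `b ^ p`
-/

open Filter Topology Finset
open scoped Real
open Pool.Agent.Helper112.E456.SieveAux (DD)

namespace Pool.Agent.H19P

open Pool.Agent.W66 Pool.Agent.W66L
open Pool.Agent.H305R2 (roughPart roughPart_prime SM SM_pos SMz mem_SMz ZZ VV sum_rough_eq sum_le_VV
  tail_le ZZ_le_exp ZZ_nonneg VV_nonneg VV_tendsto log_nat_tendsto)

/-- the joint count for the multiplier `w` -/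
noncomputable def JW (b p q w : ℕ) : ℝ :=
  ∑ m ∈ UU b q, rpi p ((w * m) % b ^ p) * rpi q m

/-- a factor whose primes divide `M` does not change `M / φ(M)` -/
lemma ratio_mul {M h : ℕ} (hM : M ≠ 0) (hh : h ≠ 0) (hd : ∀ l : ℕ, l.Prime → l ∣ h → l ∣ M) :
    ((M * h : ℕ) : ℝ) / (Nat.totient (M * h) : ℝ) = (M : ℝ) / (Nat.totient M : ℝ) := by
  have hpf : (M * h).primeFactors = M.primeFactors := by
    rw [Nat.primeFactors_mul hM hh]
    apply Finset.union_eq_left.2
    intro l hl
    rw [Nat.mem_primeFactors] at hl ⊢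
    exact ⟨hl.1, hd l hl.1 hl.2.1, hM⟩
  have e : ∀ n : ℕ, n ≠ 0 → ((n : ℕ) : ℚ) / (Nat.totient n : ℚ) =
      (∏ p ∈ n.primeFactors, (1 - (p : ℚ)⁻¹))⁻¹ := by
    intro n hn
    rw [Nat.totient_eq_mul_prod_factors n]
    have hn0 : (n : ℚ) ≠ 0 := by exact_mod_cast hn
    rw [div_mul_cancel_left₀ hn0]
  have h1 := e (M * h) (Nat.mul_ne_zero hM hh)
  have h2 := e M hM
  rw [hpf, ← h2] at h1
  have h3 := congrArg (Rat.cast : ℚ → ℝ) h1
  push_cast at h3 ⊢
  exact h3

lemma near_tw {b : ℕ} (hb : 2 ≤ b) : ∃ C : ℝ, 0 < C ∧ ∀ᶠ p : ℕ in atTop, ∀ c D t n0 c0 : ℕ,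
    1 ≤ c → c < b → 1 ≤ D → D ≤ p → 0 < t → t < b ^ D →
    (c0 = c ^ D * n0 + b ^ p * t ∨ c ^ D * n0 = c0 + b ^ p * t) →
    (((Icc 1 (b ^ p)).filter (fun y : ℕ => Real.exp (3 * (Real.log b * p) / 4) ≤ ((n0 + y : ℕ) : ℝ) ∧
      Real.exp (3 * (Real.log b * p) / 4) ≤ ((c0 + c ^ D * y : ℕ) : ℝ) ∧
      ((roughPart p (n0 + y)).Prime ∧
        (((n0 + y) / roughPart p (n0 + y) : ℕ) : ℝ) < Real.exp (Real.log b * p / 2)) ∧
      ((roughPart (p + D) (c0 + c ^ D * y)).Prime ∧
        (((c0 + c ^ D * y) / roughPart (p + D) (c0 + c ^ D * y) : ℕ) : ℝ) <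
          Real.exp (Real.log b * p / 2)))).card : ℝ) ≤
      C * (Real.log p / p) ^ 2 * (b : ℝ) ^ p := by
  obtain ⟨C0, hC0, hsv⟩ := sift_two
  obtain ⟨C1, hC1, hrat⟩ := ratio_bound hb
  set lb := Real.log b with hlb
  have hlb0 : 0 < lb := Real.log_pos (by exact_mod_cast hb)
  refine ⟨C0 * (2 * C1) ^ 2 / lb ^ 2, by positivity, ?_⟩
  obtain ⟨P, hP⟩ := eventually_atTop.1 hrat
  filter_upwards [eventually_ge_atTop P, eventually_ge_atTop 2, eventually_ge_atTop b] with
    p hpP hp2 hpb c D t n0 c0 hc1 hcb hD1 hhp ht htb hrel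
  have hp2' : (2 : ℝ) ≤ p := by exact_mod_cast hp2
  have hp0 : (0 : ℝ) < p := by linarith
  set q := p + D with hq
  set h := c ^ D with hh
  have hh0 : 0 < h := by positivity
  have hbr : (2 : ℝ) ≤ b := by exact_mod_cast hb
  have hbp : (b : ℝ) ^ p = Real.exp (lb * p) := by
    rw [mul_comm, Real.exp_nat_mul, hlb, Real.exp_log (by linarith)]
  have hH2 : 2 ≤ b ^ p := by
    calc 2 ≤ b ^ 1 := by simpa using hb
      _ ≤ b ^ p := Nat.pow_le_pow_right (by omega) (by omega)
  have htp : t < b ^ p := lt_of_lt_of_le htb (Nat.pow_le_pow_right (by omega) hhp)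
  set S := (Icc 1 (b ^ p)).filter (fun y : ℕ => Real.exp (3 * (lb * p) / 4) ≤ ((n0 + y : ℕ) : ℝ) ∧
      Real.exp (3 * (lb * p) / 4) ≤ ((c0 + h * y : ℕ) : ℝ) ∧
      ((roughPart p (n0 + y)).Prime ∧
        (((n0 + y) / roughPart p (n0 + y) : ℕ) : ℝ) < Real.exp (lb * p / 2)) ∧
      ((roughPart q (c0 + h * y)).Prime ∧
        (((c0 + h * y) / roughPart q (c0 + h * y) : ℕ) : ℝ) <
          Real.exp (lb * p / 2))) with hS
  have hq2 : 2 ≤ q := by omega
  have hMM0 : MM q b p t ≠ 0 := MM_ne hb ht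
  have hM0 : MM q b p t * h ≠ 0 := Nat.mul_ne_zero hMM0 hh0.ne'
  have hDD : DD 1 n0 h c0 ∣ MM q b p t * h := by
    have e : DD 1 n0 h c0 = h * (b ^ p * t) := by
      unfold DD
      rw [one_mul, one_mul]
      congr 1
      rcases hrel with e1 | e1
      · rw [e1]; push_cast
        have : ((h : ℤ) * n0 + (b : ℤ) ^ p * t - h * n0) = ((b ^ p * t : ℕ) : ℤ) := by
          push_cast; ring
        rw [this, Int.natAbs_natCast]
      · rw [e1]; push_cast
        have : ((c0 : ℤ) - (c0 + (b : ℤ) ^ p * t)) = -((b ^ p * t : ℕ) : ℤ) := by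
          push_cast; ring
        rw [this, Int.natAbs_neg, Int.natAbs_natCast]
    rw [e, mul_comm h]
    apply Nat.mul_dvd_mul_right
    unfold MM
    exact dvd_mul_left _ _
  have hcastN : ((b ^ p : ℕ) : ℝ) = (b : ℝ) ^ p := by push_cast; rfl
  have hz : ((b ^ p : ℕ) : ℝ) ^ ((1 : ℝ) / 8) = Real.exp (lb * p / 8) := by
    rw [hcastN, hbp, ← Real.exp_mul]; ring_nf
  have hzS : Real.exp (lb * p / 8) * Real.exp (lb * p / 2) ≤ Real.exp (3 * (lb * p) / 4) := by
    rw [← Real.exp_add]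
    apply Real.exp_le_exp.2
    have : 0 < lb * p := by positivity
    linarith
  have hmain := hsv 1 n0 h c0 (b ^ p) (MM q b p t * h) one_pos hh0
    ((two_dvd_MM hq2).mul_right _) hM0 hDD hH2 S (filter_subset _ _) (by
      intro n hn l hl hlz hlM
      have hql := lt_of_not_dvd_MM hl (fun h9 => hlM (h9.mul_right _))
      rw [hS, mem_filter, mem_Icc] at hn
      obtain ⟨⟨hn1, _⟩, hn2, hn5, hn3, hn4⟩ := hn
      rw [hz] at hlz
      have e1 : 1 * n + n0 = n0 + n := by ring
      have e2 : h * n + c0 = c0 + h * n := by ring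
      rw [e1, e2]
      constructor
      · exact no_mid_prime hn3.1 hn3.2 (hzS.trans hn2) hl (by omega) hlz
      · exact no_mid_prime hn4.1 hn4.2 (hzS.trans hn5) hl hql hlz)
  have hr1 := hP q (by omega) p t (by omega) ht htp
  have hratio := ratio_mul hMM0 hh0.ne' (by
    intro l hl hld
    have h1 : l ∣ c := hl.dvd_of_dvd_pow hld
    have h2 : l ≤ q := by
      have := Nat.le_of_dvd (by omega) h1
      omega
    unfold MM
    exact Dvd.dvd.mul_right ((Nat.Prime.dvd_primorial_iff hl).2 h2) _)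
  have hlq : Real.log q ≤ 2 * Real.log p := by
    have hq2p : (q : ℝ) ≤ p * p := by
      have : q ≤ p * p := by nlinarith
      exact_mod_cast this
    calc Real.log q ≤ Real.log (p * p) := Real.log_le_log (by positivity) hq2p
      _ = 2 * Real.log p := by rw [Real.log_mul hp0.ne' hp0.ne']; ring
  have hlq0 : 0 ≤ Real.log q := Real.log_natCast_nonneg q
  have hlp0 : 0 ≤ Real.log p := Real.log_natCast_nonneg p
  rw [hratio] at hmain
  have hr2 : ((MM q b p t : ℕ) : ℝ) / (Nat.totient (MM q b p t) : ℝ) ≤ 2 * C1 * Real.log p := by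
    calc _ ≤ C1 * Real.log q := hr1
      _ ≤ C1 * (2 * Real.log p) := by gcongr
      _ = _ := by ring
  have hr0 : 0 ≤ ((MM q b p t : ℕ) : ℝ) / (Nat.totient (MM q b p t) : ℝ) := by positivity
  have hlogH : Real.log ((b ^ p : ℕ) : ℝ) = lb * p := by
    rw [hcastN, hbp, Real.log_exp]
  have hlbp : 0 < lb * p := by positivity
  calc (S.card : ℝ) ≤ C0 * (((MM q b p t : ℕ) : ℝ) / (Nat.totient (MM q b p t) : ℝ)) ^ 2 *
        (b ^ p : ℕ) / (Real.log ((b ^ p : ℕ) : ℝ)) ^ 2 := hmain
    _ ≤ C0 * (2 * C1 * Real.log p) ^ 2 * (b ^ p : ℕ) / (lb * p) ^ 2 := by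
        rw [hlogH]
        gcongr
    _ = _ := by rw [hcastN]; field_simp

theorem near_w {b : ℕ} (hb : 2 ≤ b) : ∃ K : ℝ, 0 < K ∧ ∀ᶠ p : ℕ in atTop, ∀ q c w : ℕ, p < q →
    q ≤ 2 * p → 1 ≤ c → c < b → c.Coprime b → w * c ^ (q - p) ≡ 1 [MOD b ^ p] →
    JW b p q w ≤ AA b p + K * (b : ℝ) ^ q * (Real.log p / p) ^ 2 := by
  classical
  set lb := Real.log b with hlb
  have hlb0 : 0 < lb := Real.log_pos (by exact_mod_cast hb)
  obtain ⟨C, hC, hnt⟩ := near_tw hb
  obtain ⟨P3, hP3⟩ := eventually_atTop.1 (ZZ_le_exp (c := lb / 16) (by positivity))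
  have hsm := exp_small2 (c := lb / 8) (by positivity)
  refine ⟨3 * C + 8, by positivity, ?_⟩
  filter_upwards [hnt, eventually_ge_atTop P3, hsm, eventually_ge_atTop 2] with p hntp hpP3 hsmp hp2
    q c w hpq hq2p hc1 hcb hcop hw
  obtain ⟨D, rfl⟩ := Nat.exists_eq_add_of_le hpq.le
  have hD1 : 1 ≤ D := by omega
  have hhp : D ≤ p := by omega
  rw [Nat.add_sub_cancel_left] at hw
  have hp0 : (0 : ℝ) < p := by exact_mod_cast (by omega : 0 < p)
  have hbr : (2 : ℝ) ≤ b := by exact_mod_cast hb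
  have hb0 : 0 < b := by omega
  have hbp : (b : ℝ) ^ p = Real.exp (lb * p) := by
    rw [mul_comm, Real.exp_nat_mul, hlb, Real.exp_log (by linarith)]
  set q := p + D with hq
  set h := c ^ D with hh
  have hh0 : 0 < h := by positivity
  have hhb : h < b ^ D := Nat.pow_lt_pow_left hcb (by omega)
  have hlbp : 0 < lb * p := by positivity
  set S := Real.exp (lb * p / 2) with hS
  have hS0 : 0 < S := Real.exp_pos _
  have hSm : S ^ (-(1 / 2) : ℝ) = Real.exp (-(lb * p / 4)) := by
    rw [hS, ← Real.exp_mul]; ring_nf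
  have hqr : (q : ℝ) ≤ 2 * p := by exact_mod_cast hq2p
  have hdecay : ∀ m : ℕ, p ≤ m → (m : ℝ) ≤ 2 * p →
      S ^ (-(1 / 2) : ℝ) * ZZ m ≤ (Real.log p / p) ^ 2 := by
    intro m hpm hm
    rw [hSm]
    calc Real.exp (-(lb * p / 4)) * ZZ m ≤ Real.exp (-(lb * p / 4)) * Real.exp (lb / 16 * m) :=
          mul_le_mul_of_nonneg_left (hP3 m (by omega)) (Real.exp_pos _).le
      _ = Real.exp (-(lb * p / 4) + lb / 16 * m) := (Real.exp_add _ _).symm
      _ ≤ Real.exp (-(lb / 8 * p)) := by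
          rw [Real.exp_le_exp]
          nlinarith
      _ ≤ _ := hsmp
  have hw0 : 0 ≤ (Real.log p / p) ^ 2 := by positivity
  set N := b ^ p with hN
  have hN0 : 0 < N := by positivity
  have hNr : (N : ℝ) = (b : ℝ) ^ p := by rw [hN]; push_cast; rfl
  have hqN : b ^ q = N * b ^ D := by rw [hq, pow_add]
  have hqNr : (b : ℝ) ^ q = (N : ℝ) * (b : ℝ) ^ D := by rw [hNr, hq, pow_add]
  have hbD1 : (1 : ℝ) ≤ (b : ℝ) ^ D := one_le_pow₀ (by linarith)
  -- the residue
  set ν : ℕ → ℕ := fun m => (w * m) % N with hν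
  have hνN : ∀ m, ν m < N := fun m => Nat.mod_lt _ hN0
  have hback : ∀ m, h * ν m ≡ m [MOD N] := by
    intro m
    calc h * ν m ≡ h * (w * m) [MOD N] := (Nat.mod_modEq _ _).mul_left h
      _ = (w * h) * m := by ring
      _ ≡ 1 * m [MOD N] := Nat.ModEq.mul_right m hw
      _ = m := one_mul m
  have hcopν : ∀ m, (ν m).Coprime b → m.Coprime b := by
    intro m hm
    have h1 : (h * ν m).Coprime b := Nat.Coprime.mul_left (Nat.Coprime.pow_left D hcop) hm
    have h2 : h * ν m ≡ m [MOD b] := (hback m).of_dvd (dvd_pow_self b (by omega))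
    rw [Nat.Coprime, ← h2.gcd_eq]
    exact h1
  have hcopm : ∀ m, m.Coprime b → (ν m).Coprime b := by
    intro m hm
    have h2 : h * ν m ≡ m [MOD b] := (hback m).of_dvd (dvd_pow_self b (by omega))
    have h1 : (h * ν m).Coprime b := by
      rw [Nat.Coprime, h2.gcd_eq]
      exact hm
    exact Nat.Coprime.coprime_mul_left h1
  -- the level
  have hlev : ∀ m, N ∣ m + h * (N - ν m) := by
    intro m
    have h1 : m + h * (N - ν m) ≡ 0 [MOD N] := by
      calc m + h * (N - ν m) ≡ h * ν m + h * (N - ν m) [MOD N] :=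
            Nat.ModEq.add_right _ (hback m).symm
        _ = h * N := by rw [← mul_add, Nat.add_sub_cancel' (hνN m).le]
        _ ≡ 0 [MOD N] := by
            rw [Nat.modEq_zero_iff_dvd]
            exact dvd_mul_left _ _
    exact (Nat.modEq_zero_iff_dvd).1 h1
  set κ : ℕ → ℕ := fun m => (m + h * (N - ν m)) / N with hκ
  have hκe : ∀ m, m + h * N = N * κ m + h * ν m := by
    intro m
    have h1 : N * κ m = m + h * (N - ν m) := Nat.mul_div_cancel' (hlev m)
    have h2 : h * (N - ν m) + h * ν m = h * N := by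
      rw [← mul_add, Nat.sub_add_cancel (hνN m).le]
    omega
  -- the set of pairs
  set T := (range (b ^ q)).filter (fun m => m.Coprime b ∧ (roughPart p (ν m)).Prime ∧
    (roughPart q m).Prime) with hT
  have hJC : JW b p q w = (T.card : ℝ) := by
    unfold JW UU
    rw [hT, Finset.card_eq_sum_ones, Finset.sum_filter, Finset.sum_filter]
    push_cast
    refine Finset.sum_congr rfl fun m _ => ?_
    unfold rpi
    have e2 : (w * m) % b ^ p = ν m := rfl
    rw [e2]
    by_cases h1 : m.Coprime b <;> by_cases h2 : (roughPart p (ν m)).Prime <;>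
      by_cases h3 : (roughPart q m).Prime <;> simp [h1, h2, h3]
  rw [hJC]
  set E := Real.exp (3 * (lb * p) / 4) with hE
  set T0 := T.filter (fun m => κ m = h) with hT0
  set T1 := T.filter (fun m => ((ν m : ℕ) : ℝ) < E) with hT1
  set T2 := T.filter (fun m => S ≤ (((ν m) / roughPart p (ν m) : ℕ) : ℝ)) with hT2
  set T3 := T.filter (fun m => S ≤ ((m / roughPart q m : ℕ) : ℝ)) with hT3
  set T5 := T.filter (fun m => ((m : ℕ) : ℝ) < E) with hT5
  set T4 := T.filter (fun m => κ m ≠ h ∧ E ≤ ((ν m : ℕ) : ℝ) ∧ E ≤ ((m : ℕ) : ℝ) ∧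
    (((ν m) / roughPart p (ν m) : ℕ) : ℝ) < S ∧ ((m / roughPart q m : ℕ) : ℝ) < S) with hT4
  have hTsub : T ⊆ ((((T0 ∪ T1) ∪ T2) ∪ T3) ∪ T5) ∪ T4 := by
    intro m hm
    simp only [mem_union]
    by_cases h0 : κ m = h
    · left; left; left; left; left; exact mem_filter.2 ⟨hm, h0⟩
    by_cases h1 : ((ν m : ℕ) : ℝ) < E
    · left; left; left; left; right; exact mem_filter.2 ⟨hm, h1⟩
    by_cases h2 : S ≤ (((ν m) / roughPart p (ν m) : ℕ) : ℝ)
    · left; left; left; right; exact mem_filter.2 ⟨hm, h2⟩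
    by_cases h3 : S ≤ ((m / roughPart q m : ℕ) : ℝ)
    · left; left; right; exact mem_filter.2 ⟨hm, h3⟩
    by_cases h4 : ((m : ℕ) : ℝ) < E
    · left; right; exact mem_filter.2 ⟨hm, h4⟩
    · right
      exact mem_filter.2 ⟨hm, h0, not_lt.1 h1, not_lt.1 h4, not_le.1 h2, not_le.1 h3⟩
  have hmemT : ∀ m ∈ T, m < b ^ q ∧ m.Coprime b ∧ (roughPart p (ν m)).Prime ∧
      (roughPart q m).Prime := by
    intro m hm
    rw [hT, mem_filter, mem_range] at hm
    exact hm
  have hpos1 : ∀ m : ℕ, (roughPart p m).Prime → 1 ≤ m := by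
    intro m hm
    rcases Nat.eq_zero_or_pos m with h0 | h0
    · exfalso
      rw [h0] at hm
      unfold roughPart at hm
      simp [Nat.not_prime_one] at hm
    · exact h0
  have hpos2 : ∀ m : ℕ, (roughPart q m).Prime → 1 ≤ m := by
    intro m hm
    rcases Nat.eq_zero_or_pos m with h0 | h0
    · exfalso
      rw [h0] at hm
      unfold roughPart at hm
      simp [Nat.not_prime_one] at hm
    · exact h0
  -- T0
  have c0 : (T0.card : ℝ) ≤ AA b p := by
    rw [AA_eq_range]
    have h1 : ∑ m ∈ (range (b ^ p)).filter (fun m => m.Coprime b), rpi p m =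
        (((range (b ^ p)).filter (fun m => m.Coprime b ∧ (roughPart p m).Prime)).card : ℝ) := by
      rw [Finset.card_eq_sum_ones, Finset.sum_filter, Finset.sum_filter]
      push_cast
      refine Finset.sum_congr rfl fun m _ => ?_
      unfold rpi
      by_cases h1 : m.Coprime b
      · by_cases h2 : (roughPart p m).Prime
        · rw [if_pos h1, if_pos h2, if_pos ⟨h1, h2⟩]
        · rw [if_pos h1, if_neg h2, if_neg fun h9 => h2 h9.2]
      · rw [if_neg h1, if_neg fun h9 => h1 h9.1]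
    rw [h1]
    have hinj : Set.InjOn ν (T0 : Set ℕ) := by
      intro m hm m' hm' hmm
      rw [Finset.mem_coe, hT0, mem_filter] at hm hm'
      have e1 := hκe m
      have e2 := hκe m'
      rw [hm.2, hmm] at e1
      rw [hm'.2] at e2
      omega
    rw [← Finset.card_image_of_injOn hinj]
    have h2 : T0.image ν ⊆ (range (b ^ p)).filter (fun m => m.Coprime b ∧ (roughPart p m).Prime) := by
      intro x hx
      rw [mem_image] at hx
      obtain ⟨m, hm, rfl⟩ := hx
      rw [hT0, mem_filter] at hm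
      obtain ⟨hm1, hm2⟩ := hm
      obtain ⟨_, h3, h4, _⟩ := hmemT m hm1
      rw [mem_filter, mem_range]
      exact ⟨hνN m, hcopm m h3, h4⟩
    exact_mod_cast Finset.card_le_card h2
  -- pairs
  have hpair : ∀ (U : Finset ℕ) (F : Finset ℕ), (∀ m ∈ U, m < b ^ q ∧ ν m ∈ F) →
      (U.card : ℝ) ≤ (F.card : ℝ) * (b : ℝ) ^ D := by
    intro U F hUF
    have hinj : Set.InjOn (fun m : ℕ => (ν m, m / N)) (U : Set ℕ) := by
      intro m _ m' _ hmm
      simp only [Prod.mk.injEq] at hmm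
      have h1 : m % N = m' % N := by
        have e1 : h * ν m ≡ m [MOD N] := hback m
        have e2 : h * ν m' ≡ m' [MOD N] := hback m'
        rw [hmm.1] at e1
        exact e1.symm.trans e2
      rw [← Nat.mod_add_div m N, ← Nat.mod_add_div m' N, h1, hmm.2]
    have hsub : U.image (fun m : ℕ => (ν m, m / N)) ⊆ F ×ˢ (range (b ^ D)) := by
      intro x hx
      rw [mem_image] at hx
      obtain ⟨m, hm, rfl⟩ := hx
      rw [mem_product, mem_range]
      refine ⟨(hUF m hm).2, ?_⟩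
      rw [Nat.div_lt_iff_lt_mul hN0, mul_comm, ← hqN]
      exact (hUF m hm).1
    have h1 := Finset.card_le_card hsub
    rw [Finset.card_image_of_injOn hinj, card_product, card_range] at h1
    calc (U.card : ℝ) ≤ ((F.card * b ^ D : ℕ) : ℝ) := by exact_mod_cast h1
      _ = _ := by push_cast; ring
  have hexpw : Real.exp (-(lb * p / 4)) ≤ (Real.log p / p) ^ 2 := by
    refine le_trans (Real.exp_le_exp.2 ?_) hsmp
    linarith
  have hEN : E ≤ N * (Real.log p / p) ^ 2 := by
    calc E = N * Real.exp (-(lb * p / 4)) := by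
          rw [hNr, hbp, hE, ← Real.exp_add]; ring_nf
      _ ≤ _ := mul_le_mul_of_nonneg_left hexpw (by positivity)
  -- T1
  have c1 : (T1.card : ℝ) ≤ (b : ℝ) ^ q * (Real.log p / p) ^ 2 := by
    have h1 := hpair T1 (Ioc 0 ⌊E⌋₊) (by
      intro m hm
      rw [hT1, mem_filter] at hm
      obtain ⟨h3, h4, h5, _⟩ := hmemT m hm.1
      refine ⟨h3, ?_⟩
      rw [mem_Ioc]
      refine ⟨hpos1 _ h5, ?_⟩
      rw [Nat.le_floor_iff (Real.exp_pos _).le]
      exact hm.2.le)
    rw [Nat.card_Ioc, Nat.sub_zero] at h1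
    refine h1.trans ?_
    rw [hqNr]
    have h2 : (⌊E⌋₊ : ℝ) ≤ N * (Real.log p / p) ^ 2 :=
      (Nat.floor_le (Real.exp_pos _).le).trans hEN
    calc (⌊E⌋₊ : ℝ) * (b : ℝ) ^ D ≤
        N * (Real.log p / p) ^ 2 * (b : ℝ) ^ D := mul_le_mul_of_nonneg_right h2 (by positivity)
      _ = _ := by ring
  -- T5
  have c5 : (T5.card : ℝ) ≤ (b : ℝ) ^ q * (Real.log p / p) ^ 2 := by
    have h1 : T5 ⊆ Ioc 0 ⌊E⌋₊ := by
      intro m hm
      rw [hT5, mem_filter] at hm
      obtain ⟨_, _, _, h5⟩ := hmemT m hm.1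
      rw [mem_Ioc]
      refine ⟨hpos2 _ h5, ?_⟩
      rw [Nat.le_floor_iff (Real.exp_pos _).le]
      exact hm.2.le
    have h2 := Finset.card_le_card h1
    rw [Nat.card_Ioc, Nat.sub_zero] at h2
    have h3 : (⌊E⌋₊ : ℝ) ≤ N * (Real.log p / p) ^ 2 :=
      (Nat.floor_le (Real.exp_pos _).le).trans hEN
    calc (T5.card : ℝ) ≤ (⌊E⌋₊ : ℝ) := by exact_mod_cast h2
      _ ≤ N * (Real.log p / p) ^ 2 := h3
      _ ≤ N * (Real.log p / p) ^ 2 * (b : ℝ) ^ D := le_mul_of_one_le_right (by positivity) hbD1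
      _ = _ := by rw [hqNr]; ring
  -- T2
  have c2 : (T2.card : ℝ) ≤ (b : ℝ) ^ q * (Real.log p / p) ^ 2 := by
    have h1 := hpair T2 ((Icc 1 N).filter (fun m => (roughPart p m).Prime ∧
      S ≤ ((m / roughPart p m : ℕ) : ℝ))) (by
      intro m hm
      rw [hT2, mem_filter] at hm
      obtain ⟨h3, h4, h5, _⟩ := hmemT m hm.1
      refine ⟨h3, ?_⟩
      rw [mem_filter, mem_Icc]
      exact ⟨⟨hpos1 _ h5, (hνN m).le⟩, h5, hm.2⟩)
    refine h1.trans ?_
    rw [hqNr]
    have h2 := large_smooth_count p N hS0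
    have h3 := hdecay p le_rfl (by linarith)
    calc _ ≤ (N * (S ^ (-(1 / 2) : ℝ) * ZZ p)) * (b : ℝ) ^ D :=
          mul_le_mul_of_nonneg_right h2 (by positivity)
      _ ≤ (N * (Real.log p / p) ^ 2) * (b : ℝ) ^ D := by gcongr
      _ = _ := by ring
  -- T3
  have c3 : (T3.card : ℝ) ≤ (b : ℝ) ^ q * (Real.log p / p) ^ 2 := by
    have h1 : T3 ⊆ (Icc 1 (b ^ q)).filter (fun m => (roughPart q m).Prime ∧
      S ≤ ((m / roughPart q m : ℕ) : ℝ)) := by
      intro m hm
      rw [hT3, mem_filter] at hm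
      obtain ⟨h3, h4, _, h5⟩ := hmemT m hm.1
      rw [mem_filter, mem_Icc]
      exact ⟨⟨hpos2 _ h5, h3.le⟩, h5, hm.2⟩
    have h2 := large_smooth_count q (b ^ q) hS0
    have h3 := hdecay q (by omega) hqr
    calc (T3.card : ℝ) ≤ _ := by exact_mod_cast Finset.card_le_card h1
      _ ≤ ((b ^ q : ℕ) : ℝ) * (S ^ (-(1 / 2) : ℝ) * ZZ q) := h2
      _ ≤ ((b ^ q : ℕ) : ℝ) * (Real.log p / p) ^ 2 := by gcongr
      _ = _ := by push_cast; ring
  -- T4
  have c4 : (T4.card : ℝ) ≤ (3 * C + 3) * (b : ℝ) ^ q * (Real.log p / p) ^ 2 := by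
    have h1 := Finset.card_eq_sum_card_fiberwise (f := κ) (s := T4)
      (t := range (2 * b ^ D + 1)) (by
        intro m hm
        have hm' := (mem_filter.1 (Finset.mem_coe.1 hm)).1
        have h2 := (hmemT m hm').1
        have h3 := hκe m
        rw [Finset.mem_coe, mem_range]
        have h4 : N * κ m < N * (2 * b ^ D + 1) := by
          calc N * κ m ≤ m + h * N := by omega
            _ < N * b ^ D + h * N := by omega
            _ ≤ N * b ^ D + b ^ D * N := by
                have := Nat.mul_le_mul_right N hhb.le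
                omega
            _ ≤ N * (2 * b ^ D + 1) := by nlinarith
        exact lt_of_mul_lt_mul_left h4 (Nat.zero_le _))
    rw [h1]
    push_cast
    have h2 : ∀ k ∈ range (2 * b ^ D + 1), ((T4.filter (fun m => κ m = k)).card : ℝ) ≤
        C * (Real.log p / p) ^ 2 * (b : ℝ) ^ p + 1 := by
      intro k hk
      rw [mem_range] at hk
      have hnn : 0 ≤ C * (Real.log p / p) ^ 2 * (b : ℝ) ^ p := by positivity
      have hmem : ∀ m ∈ T4.filter (fun m => κ m = k), m ∈ T ∧ κ m ≠ h ∧ E ≤ ((ν m : ℕ) : ℝ) ∧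
          E ≤ ((m : ℕ) : ℝ) ∧ (((ν m) / roughPart p (ν m) : ℕ) : ℝ) < S ∧
          ((m / roughPart q m : ℕ) : ℝ) < S ∧ κ m = k := by
        intro m hm
        rw [mem_filter, hT4, mem_filter] at hm
        exact ⟨hm.1.1, hm.1.2.1, hm.1.2.2.1, hm.1.2.2.2.1, hm.1.2.2.2.2.1, hm.1.2.2.2.2.2, hm.2⟩
      rcases Finset.eq_empty_or_nonempty (T4.filter (fun m => κ m = k)) with he | ⟨m0, hm0⟩
      · rw [he]
        simp only [Finset.card_empty, Nat.cast_zero]
        linarith
      -- the parameters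
      obtain ⟨t, n0, c0, ht0, htb, hrel, hpar⟩ : ∃ t n0 c0 : ℕ, 0 < t ∧ t < b ^ D ∧
          (c0 = h * n0 + N * t ∨ h * n0 = c0 + N * t) ∧
          ∀ m ∈ T4.filter (fun m => κ m = k), ∃ y : ℕ, ν m = n0 + y ∧ m = c0 + h * y := by
        obtain ⟨g1, g2, _, _, _, _, g7⟩ := hmem m0 hm0
        have g8 := (hmemT m0 g1).1
        have g9 := hκe m0
        rw [g7] at g2 g9
        rcases lt_or_gt_of_ne g2 with hlt | hgt
        · -- `k < h`
          obtain ⟨t, ht⟩ : ∃ t, h = k + t := ⟨h - k, by omega⟩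
          have ht0 : 0 < t := by omega
          have hceil : N * t ≤ h * ((N * t + (h - 1)) / h) := by
            have h3 := Nat.div_add_mod (N * t + (h - 1)) h
            have h4 := Nat.mod_lt (N * t + (h - 1)) hh0
            omega
          refine ⟨t, (N * t + (h - 1)) / h, h * ((N * t + (h - 1)) / h) - N * t, ht0, by omega,
            Or.inr (by omega), fun m hm => ?_⟩
          obtain ⟨f1, f2, _, _, _, _, f7⟩ := hmem m hm
          have f9 := hκe m
          rw [f7] at f9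
          have f10 : m + N * t = h * ν m := by
            have : h * N = N * k + N * t := by rw [ht]; ring
            omega
          have f11 : (N * t + (h - 1)) / h ≤ ν m := by
            rw [Nat.div_le_iff_le_mul_add_pred hh0]
            rw [← f10]
            omega
          obtain ⟨y, hy⟩ := Nat.exists_eq_add_of_le f11
          refine ⟨y, hy, ?_⟩
          have f12 : h * ν m = h * ((N * t + (h - 1)) / h) + h * y := by rw [hy]; ring
          omega
        · -- `k > h`
          obtain ⟨t, ht⟩ : ∃ t, k = h + t := ⟨k - h, by omega⟩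
          have ht0 : 0 < t := by omega
          have hNt : ∀ m ∈ T4.filter (fun m => κ m = k), m = N * t + h * ν m := by
            intro m hm
            obtain ⟨f1, f2, _, _, _, _, f7⟩ := hmem m hm
            have f9 := hκe m
            rw [f7, ht] at f9
            have : N * (h + t) = h * N + N * t := by ring
            omega
          refine ⟨t, 0, N * t, ht0, ?_, Or.inl (by omega), fun m hm => ⟨ν m, by omega, ?_⟩⟩
          · have h3 := hNt m0 hm0
            have h4 : N * t < N * b ^ D := by omega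
            exact lt_of_mul_lt_mul_left h4 (Nat.zero_le _)
          · exact hNt m hm
      have hset := hntp c D t n0 c0 hc1 hcb hD1 hhp ht0 htb hrel
      set F := ((Icc 1 (b ^ p)).filter (fun y : ℕ => Real.exp (3 * (lb * p) / 4) ≤ ((n0 + y : ℕ) : ℝ) ∧
        Real.exp (3 * (lb * p) / 4) ≤ ((c0 + c ^ D * y : ℕ) : ℝ) ∧
        ((roughPart p (n0 + y)).Prime ∧
          (((n0 + y) / roughPart p (n0 + y) : ℕ) : ℝ) < Real.exp (lb * p / 2)) ∧
        ((roughPart (p + D) (c0 + c ^ D * y)).Prime ∧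
          (((c0 + c ^ D * y) / roughPart (p + D) (c0 + c ^ D * y) : ℕ) : ℝ) <
            Real.exp (lb * p / 2)))) with hF
      have hinj : Set.InjOn (fun m : ℕ => ν m - n0) (T4.filter (fun m => κ m = k) : Set ℕ) := by
        intro m hm m' hm' hmm
        rw [Finset.mem_coe] at hm hm'
        obtain ⟨y, hy1, hy2⟩ := hpar m hm
        obtain ⟨y', hy1', hy2'⟩ := hpar m' hm'
        simp only at hmm
        have : y = y' := by omega
        rw [hy2, hy2', this]
      have hsub : (T4.filter (fun m => κ m = k)).image (fun m : ℕ => ν m - n0) ⊆ insert 0 F := by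
        intro x hx
        rw [mem_image] at hx
        obtain ⟨m, hm, rfl⟩ := hx
        obtain ⟨y, hy1, hy2⟩ := hpar m hm
        obtain ⟨g1, g2, g3, g4, g5, g6, g7⟩ := hmem m hm
        obtain ⟨g8, g9, g10, g11⟩ := hmemT m g1
        have e1 : ν m - n0 = y := by omega
        rw [e1, mem_insert]
        rcases Nat.eq_zero_or_pos y with hy0 | hy0
        · exact Or.inl hy0
        · right
          have hyN : y ≤ b ^ p := by
            have := hνN m
            omega
          rw [hF, mem_filter, mem_Icc, ← hy1]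
          have e2 : c0 + c ^ D * y = m := hy2.symm
          rw [e2]
          exact ⟨⟨hy0, hyN⟩, g3, g4, ⟨g10, g5⟩, g11, g6⟩
      have h5 := Finset.card_le_card hsub
      rw [Finset.card_image_of_injOn hinj] at h5
      have h6 := Finset.card_insert_le 0 F
      have h7 : ((T4.filter (fun m => κ m = k)).card : ℝ) ≤ (F.card : ℝ) + 1 := by
        exact_mod_cast h5.trans h6
      linarith
    have hbDr : (b : ℝ) ^ D ≤ (b : ℝ) ^ q * (Real.log p / p) ^ 2 := by
      rw [hqNr]
      have h3 : 1 ≤ (N : ℝ) * (Real.log p / p) ^ 2 := by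
        refine le_trans ?_ hEN
        rw [hE]
        exact Real.one_le_exp (by positivity)
      calc (b : ℝ) ^ D = 1 * (b : ℝ) ^ D := (one_mul _).symm
        _ ≤ ((N : ℝ) * (Real.log p / p) ^ 2) * (b : ℝ) ^ D :=
            mul_le_mul_of_nonneg_right h3 (by positivity)
        _ = _ := by ring
    calc ∑ k ∈ range (2 * b ^ D + 1), ((T4.filter (fun m => κ m = k)).card : ℝ) ≤
          ∑ k ∈ range (2 * b ^ D + 1), (C * (Real.log p / p) ^ 2 * (b : ℝ) ^ p + 1) :=
            Finset.sum_le_sum h2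
      _ = (2 * (b : ℝ) ^ D + 1) * (C * (Real.log p / p) ^ 2 * (b : ℝ) ^ p + 1) := by
          rw [Finset.sum_const, card_range, nsmul_eq_mul]
          push_cast
          ring
      _ ≤ (3 * (b : ℝ) ^ D) * (C * (Real.log p / p) ^ 2 * (b : ℝ) ^ p + 1) := by
          apply mul_le_mul_of_nonneg_right (by linarith) (by positivity)
      _ = 3 * C * ((N : ℝ) * (b : ℝ) ^ D) * (Real.log p / p) ^ 2 + 3 * (b : ℝ) ^ D := by
          rw [hNr]; ring
      _ ≤ _ := by
          rw [← hqNr]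
          have : (3 * C + 3) * (b : ℝ) ^ q * (Real.log p / p) ^ 2 =
            3 * C * (b : ℝ) ^ q * (Real.log p / p) ^ 2 + 3 * ((b : ℝ) ^ q * (Real.log p / p) ^ 2) := by
            ring
          rw [this]
          linarith
  have hcard : (T.card : ℝ) ≤ T0.card + T1.card + T2.card + T3.card + T5.card + T4.card := by
    have h1 := Finset.card_le_card hTsub
    have h0 := Finset.card_union_le ((((T0 ∪ T1) ∪ T2) ∪ T3) ∪ T5) T4
    have h2 := Finset.card_union_le (((T0 ∪ T1) ∪ T2) ∪ T3) T5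
    have h3 := Finset.card_union_le ((T0 ∪ T1) ∪ T2) T3
    have h4 := Finset.card_union_le (T0 ∪ T1) T2
    have h5 := Finset.card_union_le T0 T1
    exact_mod_cast (by omega : T.card ≤ T0.card + T1.card + T2.card + T3.card + T5.card + T4.card)
  have hY0 : 0 ≤ (b : ℝ) ^ q * (Real.log p / p) ^ 2 := by positivity
  calc (T.card : ℝ) ≤ AA b p + (b : ℝ) ^ q * (Real.log p / p) ^ 2 +
        (b : ℝ) ^ q * (Real.log p / p) ^ 2 + (b : ℝ) ^ q * (Real.log p / p) ^ 2 +
        (b : ℝ) ^ q * (Real.log p / p) ^ 2 +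
        (3 * C + 3) * (b : ℝ) ^ q * (Real.log p / p) ^ 2 := by linarith
    _ ≤ _ := by nlinarith

end Pool.Agent.H19P
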