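import Mathlib
import Pool.Agent.W66.SC
import Pool.Agent.H442R2.EHI.PntErr

set_option autoImplicit false

/-!
# The prime number theorem with the error term `x / log x` for `π(x) log x`
-/

namespace Pool.Agent.H19P

open Finset Filter Topology
open Pool.Agent.W66S (count_primes)

lemma primeCounting_succ' (n : ℕ) :
    Nat.primeCounting (n + 1) = Nat.primeCounting n + if (n + 1).Prime then 1 else 0 := by
  unfold Nat.primeCounting Nat.primeCounting'
  rw [Nat.count_succ]

/-- `π(n) ≤ C n / log n` -/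
lemma pi_le : ∃ C : ℝ, 0 < C ∧ ∀ n : ℕ, 2 ≤ n →
    (Nat.primeCounting n : ℝ) ≤ C * (n / Real.log n) := by
  obtain ⟨C, hC, h⟩ := count_primes
  refine ⟨2 * C, by positivity, fun n hn => ?_⟩
  have hn2 : (2 : ℝ) ≤ n := by exact_mod_cast hn
  have hl : 0 < Real.log n := Real.log_pos (by linarith)
  have h1 := h (n + 1) (by omega) (Nat.primesBelow (n + 1)) (fun q hq => by
    rw [Nat.mem_primesBelow] at hq
    exact ⟨hq.2, hq.1⟩)
  have h2 : (Nat.primesBelow (n + 1)).card = Nat.primeCounting n := by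
    rw [Nat.primesBelow_card_eq_primeCounting']
    rfl
  rw [h2] at h1
  refine h1.trans ?_
  have h5 : Real.log n ≤ Real.log ((n + 1 : ℕ) : ℝ) := by
    refine Real.log_le_log (by linarith) ?_
    push_cast
    linarith
  calc C * ((n + 1 : ℕ) : ℝ) / Real.log ((n + 1 : ℕ) : ℝ) ≤ C * (2 * n) / Real.log n := by
        refine div_le_div₀ (by positivity) ?_ hl h5
        refine mul_le_mul_of_nonneg_left ?_ hC.le
        push_cast
        linarith
    _ = _ := by ring

/-- comparison of `π(n) log n` with `θ(n)` -/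
lemma pi_theta : ∃ C : ℝ, 0 < C ∧ ∀ n : ℕ, 2 ≤ n →
    0 ≤ (Nat.primeCounting n : ℝ) * Real.log n - Chebyshev.theta (n : ℝ) ∧
    (Nat.primeCounting n : ℝ) * Real.log n - Chebyshev.theta (n : ℝ) ≤ C * (n / Real.log n) := by
  obtain ⟨C, hC, h⟩ := pi_le
  obtain ⟨C1, hC1, h1⟩ := Pool.Agent.H442R2.EHI.PntErrAux.sumlog 1
  have key : ∀ n : ℕ, 2 ≤ n →
      0 ≤ (Nat.primeCounting n : ℝ) * Real.log n - Chebyshev.theta (n : ℝ) ∧
      (Nat.primeCounting n : ℝ) * Real.log n - Chebyshev.theta (n : ℝ) ≤
        C * ∑ k ∈ Ico 2 n, 1 / Real.log k ^ 1 := by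
    intro n hn
    induction n, hn using Nat.le_induction with
    | base =>
      have e1 : Nat.primeCounting 2 = 1 := by decide
      have e2 : Chebyshev.theta ((2 : ℕ) : ℝ) = Real.log 2 := by
        have h2 := Pool.Agent.H442R2.EHI.PntErrAux.theta_succ 1
        have h3 : Chebyshev.theta ((1 : ℕ) : ℝ) = 0 := by
          rw [Nat.cast_one]
          exact Chebyshev.theta_eq_zero_of_lt_two (by norm_num)
        rw [h3] at h2
        norm_num at h2
        exact_mod_cast h2
      rw [e1, e2]
      simp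
    | succ n hn ih =>
      have hn2 : (2 : ℝ) ≤ n := by exact_mod_cast hn
      have hn0 : (0 : ℝ) < n := by linarith
      have hl : 0 < Real.log n := Real.log_pos (by linarith)
      have h2 := Pool.Agent.H442R2.EHI.PntErrAux.theta_succ n
      have h3 : (Nat.primeCounting (n + 1) : ℝ) * Real.log ((n + 1 : ℕ) : ℝ) -
          Chebyshev.theta ((n + 1 : ℕ) : ℝ) =
          ((Nat.primeCounting n : ℝ) * Real.log n - Chebyshev.theta (n : ℝ)) +
          (Nat.primeCounting n : ℝ) * (Real.log ((n + 1 : ℕ) : ℝ) - Real.log n) := by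
        rw [h2, primeCounting_succ']
        push_cast
        split_ifs <;> ring
      have h4 : Real.log ((n + 1 : ℕ) : ℝ) - Real.log n ≤ 1 / n := by
        rw [← Real.log_div (by positivity) hn0.ne']
        have h5 := Real.log_le_sub_one_of_pos (show (0 : ℝ) < ((n + 1 : ℕ) : ℝ) / n by positivity)
        have h6 : ((n + 1 : ℕ) : ℝ) / n - 1 = 1 / n := by
          push_cast
          field_simp
          ring
        linarith
      have h4' : 0 ≤ Real.log ((n + 1 : ℕ) : ℝ) - Real.log n := by
        have := Real.log_le_log hn0 (show (n : ℝ) ≤ ((n + 1 : ℕ) : ℝ) by push_cast; linarith)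
        linarith
      have h7 : (0 : ℝ) ≤ Nat.primeCounting n := Nat.cast_nonneg _
      rw [h3, Finset.sum_Ico_succ_top hn, mul_add]
      constructor
      · have := mul_nonneg h7 h4'
        linarith [ih.1]
      · have h8 : (Nat.primeCounting n : ℝ) * (Real.log ((n + 1 : ℕ) : ℝ) - Real.log n) ≤
            C * (1 / Real.log n ^ 1) := by
          calc _ ≤ (C * (n / Real.log n)) * (1 / n) := mul_le_mul (h n hn) h4 h4' (by positivity)
            _ = _ := by field_simp
        linarith [ih.2]
  refine ⟨C * C1, by positivity, fun n hn => ⟨(key n hn).1, ((key n hn).2).trans ?_⟩⟩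
  have := h1 n hn
  rw [mul_assoc]
  refine mul_le_mul_of_nonneg_left ?_ hC.le
  simpa using this

/-- **The prime number theorem with error term.** -/
theorem pi_rate : ∃ C : ℝ, 0 < C ∧ ∀ x : ℝ, 3 ≤ x →
    |(Nat.primeCounting ⌊x⌋₊ : ℝ) * Real.log x - x| ≤ C * (x / Real.log x) := by
  obtain ⟨C0, hC0, h0⟩ := pi_le
  obtain ⟨C1, hC1, h1⟩ := pi_theta
  obtain ⟨C2, hC2, h2⟩ := Pool.Agent.H442R2.EHI.PntErrAux.thetaU 1
  refine ⟨2 * (C1 + C2 + C0) + 1, by positivity, fun x hx => ?_⟩
  set n := ⌊x⌋₊ with hn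
  have hx0 : 0 < x := by linarith
  have hn3 : 3 ≤ n := Nat.le_floor (by exact_mod_cast hx)
  have hn3' : (3 : ℝ) ≤ n := by exact_mod_cast hn3
  have hnx : (n : ℝ) ≤ x := Nat.floor_le hx0.le
  have hxn : x < n + 1 := Nat.lt_floor_add_one x
  have hln : 0 < Real.log n := Real.log_pos (by linarith)
  have hlx : 0 < Real.log x := Real.log_pos (by linarith)
  have hlxn : Real.log x ≤ 2 * Real.log n := by
    have h3 : x ≤ (n : ℝ) ^ 2 := by nlinarith
    have h4 := Real.log_le_log hx0 h3
    rw [Real.log_pow] at h4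
    push_cast at h4
    exact h4
  have hr : (n : ℝ) / Real.log n ≤ 2 * (x / Real.log x) := by
    rw [← mul_div_assoc, div_le_div_iff₀ hln hlx]
    nlinarith
  have e1 := h1 n (by omega)
  have e2 := h2 n (by omega)
  rw [pow_one] at e2
  have e0 := h0 n (by omega)
  have e3 : |(Nat.primeCounting n : ℝ) * (Real.log x - Real.log n)| ≤ C0 * (n / Real.log n) := by
    have h7 : (0 : ℝ) ≤ Nat.primeCounting n := Nat.cast_nonneg _
    have h8 : 0 ≤ Real.log x - Real.log n := by
      have := Real.log_le_log (by linarith) hnx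
      linarith
    have h9 : Real.log x - Real.log n ≤ 1 := by
      rw [← Real.log_div hx0.ne' (by positivity)]
      have h10 := Real.log_le_sub_one_of_pos (show 0 < x / (n : ℝ) by positivity)
      have h11 : x / (n : ℝ) ≤ 2 := by
        rw [div_le_iff₀ (by linarith)]
        linarith
      linarith
    rw [abs_of_nonneg (mul_nonneg h7 h8)]
    calc _ ≤ (C0 * (n / Real.log n)) * 1 := mul_le_mul e0 h9 h8 (by positivity)
      _ = _ := mul_one _
  have e4 : |(n : ℝ) - x| ≤ x / Real.log x := by
    have h5 : |(n : ℝ) - x| ≤ 1 := by rw [abs_le]; constructor <;> linarith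
    refine h5.trans ?_
    rw [le_div_iff₀ hlx, one_mul]
    have := Real.log_le_sub_one_of_pos hx0
    linarith
  have e5 : (Nat.primeCounting n : ℝ) * Real.log x - x =
      ((Nat.primeCounting n : ℝ) * Real.log n - Chebyshev.theta (n : ℝ)) +
      (Chebyshev.theta (n : ℝ) - n) + (Nat.primeCounting n : ℝ) * (Real.log x - Real.log n) +
      ((n : ℝ) - x) := by ring
  rw [e5]
  have a1 : |(Nat.primeCounting n : ℝ) * Real.log n - Chebyshev.theta (n : ℝ)| ≤
      C1 * (n / Real.log n) := by
    rw [abs_of_nonneg e1.1]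
    exact e1.2
  have b1 := abs_add_le (((Nat.primeCounting n : ℝ) * Real.log n - Chebyshev.theta (n : ℝ)) +
      (Chebyshev.theta (n : ℝ) - n) + (Nat.primeCounting n : ℝ) * (Real.log x - Real.log n))
      ((n : ℝ) - x)
  have b2 := abs_add_le (((Nat.primeCounting n : ℝ) * Real.log n - Chebyshev.theta (n : ℝ)) +
      (Chebyshev.theta (n : ℝ) - n)) ((Nat.primeCounting n : ℝ) * (Real.log x - Real.log n))
  have b3 := abs_add_le ((Nat.primeCounting n : ℝ) * Real.log n - Chebyshev.theta (n : ℝ))
      (Chebyshev.theta (n : ℝ) - n)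
  have hpos : 0 < (n : ℝ) / Real.log n := by positivity
  nlinarith

end Pool.Agent.H19P
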