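import Mathlib
import Pool.Agent.W66.LO
import Pool.Agent.TH888.R.Mean
import Pool.Agent.H19P.PiRate

set_option autoImplicit false

/-!
# The mean over the reduced residues below `b ^ q` with an error term
-/

open Filter Topology
open scoped Real

namespace Pool.Agent.H19P

open Pool.Agent.W66 Pool.Agent.W66L
open Pool.Agent.H305R2 (roughPart SM SM_pos SMz mem_SMz ZZ VV sum_rough_eq sum_le_VV tail_le
  ZZ_le_exp ZZ_nonneg VV_nonneg VV_tendsto primesBelow_succ_eq inv_le_rpow hasSum_ZZ sum_le_ZZ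
  log_nat_tendsto)

lemma AA_up {b q : ℕ} (hb : 2 ≤ b) (h2 : b ≤ q) {δ : ℝ} (hδ : 0 < δ) (hδ1 : δ < 1 / 4)
    (hX3 : 3 ≤ δ * (Real.log b * q))
    (hx0 : ∀ x : ℝ, Real.exp ((1 - 2 * δ) * (Real.log b * q)) ≤ x →
      (Nat.primeCounting ⌊x⌋₊ : ℝ) * Real.log x ≤ (1 + δ) * x) :
    AA b q ≤ (b : ℝ) ^ q * ((1 + δ) / ((1 - 2 * δ) * (Real.log b * q)) * VB b q +
      Real.exp (-(δ * (Real.log b * q) / 2)) * ZZ q) := by
  set lb := Real.log b with hlb
  have hlb0 : 0 < lb := Real.log_pos (by exact_mod_cast hb)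
  have hq0 : (0 : ℝ) < q := by exact_mod_cast (by omega : 0 < q)
  have hlq : 0 < lb * q := by positivity
  set X := b ^ q - 1 with hX
  have hbr : (2 : ℝ) ≤ b := by exact_mod_cast hb
  have hbq : (b : ℝ) ^ q = Real.exp (lb * q) := by
    rw [mul_comm, Real.exp_nat_mul, hlb, Real.exp_log (by linarith)]
  have hXr : (X : ℝ) = (b : ℝ) ^ q - 1 := by
    rw [hX, Nat.cast_sub (Nat.one_le_pow _ _ (by omega))]
    push_cast
    rfl
  have hXle : (X : ℝ) ≤ (b : ℝ) ^ q := by linarith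
  have hXnn : (0 : ℝ) ≤ X := Nat.cast_nonneg _
  set S := Real.exp (δ * (lb * q)) with hS
  have hS0 : 0 < S := Real.exp_pos _
  have hS1 : 1 ≤ S := Real.one_le_exp (by linarith)
  rw [AA_eq hb h2, ← Finset.sum_filter_add_sum_filter_not (SMz q (X : ℝ)) (fun s : ℕ => (s : ℝ) ≤ S),
    mul_add]
  have hF : ∀ n ∈ (SMz q (X : ℝ)).filter (fun s : ℕ => (s : ℝ) ≤ S), n ∈ SM q := by
    intro n hn
    rw [Finset.mem_filter, mem_SMz hXnn] at hn
    exact hn.1.1
  apply add_le_add
  · have hterm : ∀ s ∈ (SMz q (X : ℝ)).filter (fun s : ℕ => (s : ℝ) ≤ S),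
        (if s.Coprime b then (1 : ℝ) else 0) *
          (((Finset.Ioc 0 (X / s)).filter (fun l => l.Prime ∧ q < l)).card : ℝ) ≤
        (b : ℝ) ^ q * ((1 + δ) / ((1 - 2 * δ) * (lb * q))) * copHom b s := by
      intro s hs
      rw [Finset.mem_filter, mem_SMz hXnn] at hs
      obtain ⟨⟨hs1, _⟩, hsS⟩ := hs
      have hs0 : 0 < s := SM_pos hs1
      have hs0' : (0 : ℝ) < s := by exact_mod_cast hs0
      have hs1' : (1 : ℝ) ≤ s := by exact_mod_cast hs0
      rw [copHom_apply]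
      by_cases hc : s.Coprime b
      · rw [if_pos hc, if_pos hc, one_mul]
        refine (card_inner_le _ _).trans ?_
        set x := (X : ℝ) / s with hx
        have hfl : X / s = ⌊x⌋₊ := by rw [hx, Nat.floor_div_eq_div]
        have hxlow : Real.exp ((1 - 2 * δ) * (lb * q)) ≤ x := by
          rw [hx, le_div_iff₀ hs0', hXr, hbq]
          have e1 : Real.exp (lb * q) = Real.exp ((1 - 2 * δ) * (lb * q)) *
              (Real.exp (δ * (lb * q)) * Real.exp (δ * (lb * q))) := by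
            rw [← Real.exp_add, ← Real.exp_add]; ring_nf
          rw [e1, ← hS]
          have e2 : 1 ≤ Real.exp ((1 - 2 * δ) * (lb * q)) := Real.one_le_exp (by
            apply mul_nonneg (by linarith) hlq.le)
          have e3 : 4 ≤ S := by
            have := Real.add_one_le_exp (δ * (lb * q))
            linarith
          have e4 : Real.exp ((1 - 2 * δ) * (lb * q)) * s ≤ Real.exp ((1 - 2 * δ) * (lb * q)) * S :=
            mul_le_mul_of_nonneg_left hsS (Real.exp_pos _).le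
          have e5 : 1 ≤ Real.exp ((1 - 2 * δ) * (lb * q)) * S := by nlinarith
          have e6 : Real.exp ((1 - 2 * δ) * (lb * q)) * S * 4 ≤
              Real.exp ((1 - 2 * δ) * (lb * q)) * S * S :=
            mul_le_mul_of_nonneg_left e3 (by positivity)
          nlinarith
        have hx0' : 0 < x := lt_of_lt_of_le (Real.exp_pos _) hxlow
        have hlogx : (1 - 2 * δ) * (lb * q) ≤ Real.log x := by
          rw [Real.le_log_iff_exp_le hx0']; exact hxlow
        have hpos : 0 < (1 - 2 * δ) * (lb * q) := mul_pos (by linarith) hlq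
        have h3 := hx0 x hxlow
        have h4 : (Nat.primeCounting (X / s) : ℝ) ≤ (1 + δ) * x / ((1 - 2 * δ) * (lb * q)) := by
          rw [hfl, le_div_iff₀ hpos]
          have : (Nat.primeCounting ⌊x⌋₊ : ℝ) * ((1 - 2 * δ) * (lb * q)) ≤
            (Nat.primeCounting ⌊x⌋₊ : ℝ) * Real.log x := mul_le_mul_of_nonneg_left hlogx (by positivity)
          linarith
        refine h4.trans ?_
        have h5 : x ≤ (b : ℝ) ^ q * (s : ℝ)⁻¹ := by
          rw [hx, div_eq_mul_inv]
          exact mul_le_mul_of_nonneg_right hXle (by positivity)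
        calc (1 + δ) * x / ((1 - 2 * δ) * (lb * q)) ≤
            (1 + δ) * ((b : ℝ) ^ q * (s : ℝ)⁻¹) / ((1 - 2 * δ) * (lb * q)) := by gcongr
          _ = _ := by ring
      · rw [if_neg hc, if_neg hc]; simp
    refine (Finset.sum_le_sum hterm).trans ?_
    rw [← Finset.mul_sum]
    have h3 := sum_le_VB b q _ hF
    have hpos : 0 < (1 - 2 * δ) * (lb * q) := mul_pos (by linarith) hlq
    calc (b : ℝ) ^ q * ((1 + δ) / ((1 - 2 * δ) * (lb * q))) *
          ∑ s ∈ (SMz q (X : ℝ)).filter (fun s : ℕ => (s : ℝ) ≤ S), copHom b s ≤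
        (b : ℝ) ^ q * ((1 + δ) / ((1 - 2 * δ) * (lb * q))) * VB b q := by gcongr
      _ = _ := by ring
  · have hterm : ∀ s ∈ (SMz q (X : ℝ)).filter (fun s : ℕ => ¬ (s : ℝ) ≤ S),
        (if s.Coprime b then (1 : ℝ) else 0) *
          (((Finset.Ioc 0 (X / s)).filter (fun l => l.Prime ∧ q < l)).card : ℝ) ≤
        (b : ℝ) ^ q * (s : ℝ)⁻¹ := by
      intro s _
      have h3 : (((Finset.Ioc 0 (X / s)).filter (fun l => l.Prime ∧ q < l)).card : ℝ) ≤
          (X : ℝ) * (s : ℝ)⁻¹ := by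
        have h4 : ((Finset.Ioc 0 (X / s)).filter (fun l => l.Prime ∧ q < l)).card ≤ X / s := by
          refine (Finset.card_filter_le _ _).trans ?_
          rw [Nat.card_Ioc, Nat.sub_zero]
        rw [← div_eq_mul_inv]
        exact le_trans (by exact_mod_cast h4) Nat.cast_div_le
      have h5 : (if s.Coprime b then (1 : ℝ) else 0) ≤ 1 := by split_ifs <;> norm_num
      have h6 : (0 : ℝ) ≤ (if s.Coprime b then (1 : ℝ) else 0) := by split_ifs <;> norm_num
      calc _ ≤ 1 * ((X : ℝ) * (s : ℝ)⁻¹) := mul_le_mul h5 h3 (by positivity) (by norm_num)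
        _ ≤ _ := by
          rw [one_mul]
          exact mul_le_mul_of_nonneg_right hXle (by positivity)
    refine (Finset.sum_le_sum hterm).trans ?_
    rw [← Finset.mul_sum]
    apply mul_le_mul_of_nonneg_left _ (by positivity)
    have h3 := tail_le q hS0 ((SMz q (X : ℝ)).filter (fun s : ℕ => ¬ (s : ℝ) ≤ S)) (by
      intro n hn
      rw [Finset.mem_filter, mem_SMz hXnn] at hn
      exact ⟨hn.1.1, (not_le.1 hn.2).le⟩)
    refine h3.trans (le_of_eq ?_)
    rw [hS, ← Real.exp_mul]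
    ring_nf

lemma AA_low {b q : ℕ} (hb : 2 ≤ b) (h2 : b ≤ q) {δ : ℝ} (hδ : 0 < δ) (hδ1 : δ < 1 / 4)
    (hX3 : 3 ≤ δ * (Real.log b * q)) (hXδ : 1 / δ ≤ δ * (Real.log b * q))
    (hx0 : ∀ x : ℝ, Real.exp ((1 - 2 * δ) * (Real.log b * q)) ≤ x →
      (1 - δ) * x ≤ (Nat.primeCounting ⌊x⌋₊ : ℝ) * Real.log x) :
    (b : ℝ) ^ q * ((1 - δ) ^ 2 / (Real.log b * q) *
      (VB b q - Real.exp (-(δ * (Real.log b * q) / 2)) * ZZ q) -
      q * Real.exp (-((1 - δ) * (Real.log b * q)))) ≤ AA b q := by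
  set lb := Real.log b with hlb
  have hlb0 : 0 < lb := Real.log_pos (by exact_mod_cast hb)
  have hq0 : (0 : ℝ) < q := by exact_mod_cast (by omega : 0 < q)
  have hlq : 0 < lb * q := by positivity
  set X := b ^ q - 1 with hX
  have hbr : (2 : ℝ) ≤ b := by exact_mod_cast hb
  have hbq : (b : ℝ) ^ q = Real.exp (lb * q) := by
    rw [mul_comm, Real.exp_nat_mul, hlb, Real.exp_log (by linarith)]
  have hXr : (X : ℝ) = (b : ℝ) ^ q - 1 := by
    rw [hX, Nat.cast_sub (Nat.one_le_pow _ _ (by omega))]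
    push_cast
    rfl
  have hbig : 1 / δ ≤ (b : ℝ) ^ q := by
    rw [hbq]
    have e1 := Real.add_one_le_exp (lb * q)
    have e2 : δ * (lb * q) ≤ 1 * (lb * q) := mul_le_mul_of_nonneg_right (by linarith) hlq.le
    linarith
  have hXge : (1 - δ) * (b : ℝ) ^ q ≤ X := by
    rw [hXr]
    rw [div_le_iff₀ hδ] at hbig
    linarith
  have hXnn : (0 : ℝ) ≤ X := Nat.cast_nonneg _
  have hXle : (X : ℝ) ≤ (b : ℝ) ^ q := by linarith
  set S := Real.exp (δ * (lb * q)) with hS
  have hS0 : 0 < S := Real.exp_pos _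
  have hSX : S ≤ X := by
    refine le_trans ?_ hXge
    rw [hbq]
    have e1 : Real.exp (lb * q) = Real.exp ((1 - δ) * (lb * q)) * S := by
      rw [hS, ← Real.exp_add]; ring_nf
    rw [e1]
    have e2 : 2 ≤ Real.exp ((1 - δ) * (lb * q)) := by
      have := Real.add_one_le_exp ((1 - δ) * (lb * q))
      have e3 : δ * (lb * q) ≤ (1 - δ) * (lb * q) := mul_le_mul_of_nonneg_right (by linarith) hlq.le
      linarith
    nlinarith
  rw [AA_eq hb h2]
  have hsub : SMz q S ⊆ SMz q (X : ℝ) := by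
    intro n hn
    rw [mem_SMz hS0.le] at hn
    rw [mem_SMz hXnn]
    exact ⟨hn.1, hn.2.trans hSX⟩
  refine le_trans ?_ (Finset.sum_le_sum_of_subset_of_nonneg hsub fun i _ _ => by
    split_ifs <;> positivity)
  have hterm : ∀ s ∈ SMz q S, (b : ℝ) ^ q * ((1 - δ) ^ 2 / (lb * q)) * copHom b s - q ≤
      (if s.Coprime b then (1 : ℝ) else 0) *
        (((Finset.Ioc 0 (X / s)).filter (fun l => l.Prime ∧ q < l)).card : ℝ) := by
    intro s hs
    rw [mem_SMz hS0.le] at hs
    obtain ⟨hs1, hsS⟩ := hs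
    have hs0 : 0 < s := SM_pos hs1
    have hs0' : (0 : ℝ) < s := by exact_mod_cast hs0
    have hs1' : (1 : ℝ) ≤ s := by exact_mod_cast hs0
    rw [copHom_apply]
    by_cases hc : s.Coprime b
    · rw [if_pos hc, if_pos hc, one_mul]
      refine le_trans ?_ (le_card_inner _ _)
      set x := (X : ℝ) / s with hx
      have hfl : X / s = ⌊x⌋₊ := by rw [hx, Nat.floor_div_eq_div]
      have hxlow : Real.exp ((1 - 2 * δ) * (lb * q)) ≤ x := by
        rw [hx, le_div_iff₀ hs0', hXr, hbq]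
        have e1 : Real.exp (lb * q) = Real.exp ((1 - 2 * δ) * (lb * q)) *
            (Real.exp (δ * (lb * q)) * Real.exp (δ * (lb * q))) := by
          rw [← Real.exp_add, ← Real.exp_add]; ring_nf
        rw [e1, ← hS]
        have e2 : 1 ≤ Real.exp ((1 - 2 * δ) * (lb * q)) := Real.one_le_exp (by
          apply mul_nonneg (by linarith) hlq.le)
        have e3 : 4 ≤ S := by
          have := Real.add_one_le_exp (δ * (lb * q))
          linarith
        have e4 : Real.exp ((1 - 2 * δ) * (lb * q)) * s ≤ Real.exp ((1 - 2 * δ) * (lb * q)) * S :=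
          mul_le_mul_of_nonneg_left hsS (Real.exp_pos _).le
        have e5 : 1 ≤ Real.exp ((1 - 2 * δ) * (lb * q)) * S := by nlinarith
        have e6 : Real.exp ((1 - 2 * δ) * (lb * q)) * S * 4 ≤
            Real.exp ((1 - 2 * δ) * (lb * q)) * S * S :=
          mul_le_mul_of_nonneg_left e3 (by positivity)
        nlinarith
      have hx0' : 0 < x := lt_of_lt_of_le (Real.exp_pos _) hxlow
      have hx1' : 1 < x := lt_of_lt_of_le (by
        have e1 := Real.add_one_le_exp ((1 - 2 * δ) * (lb * q))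
        have e2 : δ * (lb * q) ≤ (1 - 2 * δ) * (lb * q) :=
          mul_le_mul_of_nonneg_right (by linarith) hlq.le
        linarith : (1 : ℝ) < Real.exp ((1 - 2 * δ) * (lb * q))) hxlow
      have hlogx : Real.log x ≤ lb * q := by
        rw [Real.log_le_iff_le_exp hx0', ← hbq, hx, div_le_iff₀ hs0']
        have : (0 : ℝ) < (b : ℝ) ^ q := by positivity
        nlinarith
      have hlogx0 : 0 < Real.log x := Real.log_pos hx1'
      have h3 := hx0 x hxlow
      have h4 : (1 - δ) * x / (lb * q) ≤ (Nat.primeCounting (X / s) : ℝ) := by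
        rw [hfl, div_le_iff₀ hlq]
        have : (Nat.primeCounting ⌊x⌋₊ : ℝ) * Real.log x ≤
          (Nat.primeCounting ⌊x⌋₊ : ℝ) * (lb * q) := mul_le_mul_of_nonneg_left hlogx (by positivity)
        linarith
      have h5 : (1 - δ) * (b : ℝ) ^ q * (s : ℝ)⁻¹ ≤ x := by
        rw [hx, div_eq_mul_inv]
        exact mul_le_mul_of_nonneg_right hXge (by positivity)
      have h6 : (b : ℝ) ^ q * ((1 - δ) ^ 2 / (lb * q)) * (s : ℝ)⁻¹ ≤ (1 - δ) * x / (lb * q) := by
        have e1 : (b : ℝ) ^ q * ((1 - δ) ^ 2 / (lb * q)) * (s : ℝ)⁻¹ =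
            (1 - δ) * ((1 - δ) * (b : ℝ) ^ q * (s : ℝ)⁻¹) / (lb * q) := by ring
        rw [e1]
        apply div_le_div_of_nonneg_right _ hlq.le
        exact mul_le_mul_of_nonneg_left h5 (by linarith)
      linarith
    · rw [if_neg hc, if_neg hc]
      simp
  refine le_trans ?_ (Finset.sum_le_sum hterm)
  rw [Finset.sum_sub_distrib, ← Finset.mul_sum, Finset.sum_const, nsmul_eq_mul]
  have hcard : ((SMz q S).card : ℝ) * q ≤ S * q := by
    apply mul_le_mul_of_nonneg_right _ hq0.le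
    have h5 : (SMz q S).card ≤ (Finset.Ioc 0 ⌊S⌋₊).card := by
      apply Finset.card_le_card
      intro n hn
      rw [mem_SMz hS0.le] at hn
      rw [Finset.mem_Ioc]
      exact ⟨SM_pos hn.1, (Nat.le_floor_iff hS0.le).2 hn.2⟩
    rw [Nat.card_Ioc, Nat.sub_zero] at h5
    exact le_trans (by exact_mod_cast h5) (Nat.floor_le hS0.le)
  have hV := VB_le b q hS0
  have hSm : S ^ (-(1 / 2) : ℝ) = Real.exp (-(δ * (lb * q) / 2)) := by
    rw [hS, ← Real.exp_mul]; ring_nf
  rw [hSm] at hV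
  have h7 : (b : ℝ) ^ q * ((1 - δ) ^ 2 / (lb * q)) *
      (VB b q - Real.exp (-(δ * (lb * q) / 2)) * ZZ q) ≤
      (b : ℝ) ^ q * ((1 - δ) ^ 2 / (lb * q)) * ∑ s ∈ SMz q S, copHom b s := by
    apply mul_le_mul_of_nonneg_left (by linarith)
    have : 0 ≤ (1 - δ) ^ 2 / (lb * q) := by positivity
    positivity
  have h8 : (b : ℝ) ^ q * (q * Real.exp (-((1 - δ) * (lb * q)))) = S * q := by
    rw [hbq, hS]
    have : Real.exp (lb * q) * Real.exp (-((1 - δ) * (lb * q))) = Real.exp (δ * (lb * q)) := by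
      rw [← Real.exp_add]; ring_nf
    rw [← this]; ring
  have e9 : (b : ℝ) ^ q * ((1 - δ) ^ 2 / (lb * q) *
      (VB b q - Real.exp (-(δ * (lb * q) / 2)) * ZZ q) - q * Real.exp (-((1 - δ) * (lb * q)))) =
      (b : ℝ) ^ q * ((1 - δ) ^ 2 / (lb * q)) *
      (VB b q - Real.exp (-(δ * (lb * q) / 2)) * ZZ q) -
      (b : ℝ) ^ q * (q * Real.exp (-((1 - δ) * (lb * q)))) := by ring
  rw [e9, h8]
  linarith


lemma ev_log {ε : ℝ} (hε : 0 < ε) : ∀ᶠ q : ℕ in atTop, Real.log q ≤ ε * q := by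
  have h1 := (Real.isLittleO_log_id_atTop).bound hε
  have h2 : ∀ᶠ x : ℝ in atTop, Real.log x ≤ ε * x := by
    filter_upwards [h1, eventually_ge_atTop 1] with x hx hx1
    rw [Real.norm_of_nonneg (Real.log_nonneg hx1), id, Real.norm_of_nonneg (by linarith)] at hx
    exact hx
  exact tendsto_natCast_atTop_atTop.eventually h2

lemma ev_log_sq {ε : ℝ} (hε : 0 < ε) : ∀ᶠ q : ℕ in atTop, Real.log q ^ 2 ≤ ε * q := by
  have h1 := (Real.isLittleO_pow_log_id_atTop (n := 2)).bound hε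
  have h2 : ∀ᶠ x : ℝ in atTop, Real.log x ^ 2 ≤ ε * x := by
    filter_upwards [h1, eventually_ge_atTop 1] with x hx hx1
    rw [Real.norm_of_nonneg (by positivity), id, Real.norm_of_nonneg (by linarith)] at hx
    exact hx
  exact tendsto_natCast_atTop_atTop.eventually h2

/-- **The mean with an error term.** -/
theorem mq_rate {b : ℕ} (hb : 2 ≤ b) : ∃ K : ℝ, 0 < K ∧ ∀ᶠ q : ℕ in atTop,
    |mq b q - Real.exp Real.eulerMascheroniConstant / Real.log b * (Real.log q / q)| ≤ K / q := by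
  obtain ⟨C, hC, hR⟩ := pi_rate
  obtain ⟨C1, hC1, hV⟩ := Pool.Agent.TH888.R.VV_rate
  obtain ⟨C2, hC2, hZ⟩ := Pool.Agent.TH888.R.ZZ_rate
  set G := Real.exp Real.eulerMascheroniConstant with hG
  have hG0 : 0 < G := Real.exp_pos _
  set lb := Real.log b with hlb
  have hlb0 : 0 < lb := Real.log_pos (by exact_mod_cast hb)
  have hρ := tot_ratio_pos hb
  set ρ := (b.totient : ℝ) / b with hρd
  set D0 := 2 / lb * (C2 + 1) with hD0
  have hD0p : 0 < D0 := by positivity
  refine ⟨(6 * D0 * G + 3 * C1) / lb + 1 / ρ + 1 / (ρ * lb), by positivity, ?_⟩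
  filter_upwards [log_nat_tendsto.eventually_ge_atTop (4 * D0 + 2),
    ev_log (show (0 : ℝ) < D0 * lb / (2 * C) by positivity),
    ev_log (show (0 : ℝ) < lb / 4 by positivity),
    ev_log_sq (show (0 : ℝ) < 1 by norm_num),
    ev_log_sq (show (0 : ℝ) < 2 * (C2 + 1) * D0 by positivity),
    eventually_ge_atTop (max b 3)] with q h2 h4 h5 h6 h7 hqb
  have hbq : b ≤ q := (le_max_left _ _).trans hqb
  have hq3 : 3 ≤ q := (le_max_right _ _).trans hqb
  have hq3' : (3 : ℝ) ≤ q := by exact_mod_cast hq3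
  have hq0 : (0 : ℝ) < q := by linarith
  set l := Real.log q with hl
  have hl2 : 2 ≤ l := by linarith
  have hl0 : 0 < l := by linarith
  have hlq : 0 < lb * q := by positivity
  set δ := D0 / l with hδ
  have hδ0 : 0 < δ := by positivity
  have hδ1 : δ < 1 / 4 := by
    rw [hδ, div_lt_iff₀ hl0]
    linarith
  have hδl : δ * l = D0 := by rw [hδ]; field_simp
  have hδq : δ * (lb * q) = 2 * (C2 + 1) * (q / l) := by
    rw [hδ, hD0]
    field_simp
  have hql : l ≤ q / l := by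
    rw [le_div_iff₀ hl0]
    nlinarith
  have hX3 : 3 ≤ δ * (lb * q) := by
    rw [hδq]
    nlinarith
  have hXδ : 1 / δ ≤ δ * (lb * q) := by
    rw [hδq, div_le_iff₀ hδ0, hδ]
    have : 2 * (C2 + 1) * (q / l) * (D0 / l) = 2 * (C2 + 1) * D0 * q / l ^ 2 := by
      field_simp
    rw [this, le_div_iff₀ (by positivity), one_mul]
    exact h7
  have h1l : l ≤ lb * q / 4 := by linarith
  have hexp : ∀ x : ℝ, Real.exp ((1 - 2 * δ) * (lb * q)) ≤ x →
      |(Nat.primeCounting ⌊x⌋₊ : ℝ) * Real.log x - x| ≤ δ * x := by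
    intro x hx
    have hy : lb * q / 2 ≤ (1 - 2 * δ) * (lb * q) := by nlinarith
    have hx1 : Real.exp (lb * q / 2) ≤ x := (Real.exp_le_exp.2 hy).trans hx
    have hx0 : 0 < x := (Real.exp_pos _).trans_le hx1
    have hx3 : 3 ≤ x := by
      have := Real.add_one_le_exp (lb * q / 2)
      linarith
    have hlx : lb * q / 2 ≤ Real.log x := by
      rw [Real.le_log_iff_exp_le hx0]
      exact hx1
    have hlx0 : 0 < Real.log x := by linarith [show 0 < lb * q / 2 by positivity]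
    refine (hR x hx3).trans ?_
    rw [← mul_div_assoc, div_le_iff₀ hlx0]
    have e1 : C ≤ δ * Real.log x := by
      calc C ≤ δ * (lb * q / 2) := by
            rw [hδ, div_mul_eq_mul_div, le_div_iff₀ hl0]
            have : l ≤ D0 * lb / (2 * C) * q := h4
            rw [div_mul_eq_mul_div, le_div_iff₀ (by positivity)] at this
            linarith
        _ ≤ δ * Real.log x := mul_le_mul_of_nonneg_left hlx hδ0.le
    calc C * x ≤ (δ * Real.log x) * x := mul_le_mul_of_nonneg_right e1 hx0.le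
      _ = _ := by ring
  have hup := AA_up (q := q) hb hbq hδ0 hδ1 hX3 (fun x hx => by
    have := (abs_le.1 (hexp x hx)).2
    linarith)
  have hlow := AA_low (q := q) hb hbq hδ0 hδ1 hX3 hXδ (fun x hx => by
    have := (abs_le.1 (hexp x hx)).1
    linarith)
  rw [← hlb] at hup hlow
  rw [VB_eq hb hbq, ← hρd] at hup hlow
  set E := Real.exp (-(δ * (lb * q) / 2)) * ZZ q with hE
  have hE0 : 0 ≤ E := mul_nonneg (Real.exp_pos _).le (ZZ_nonneg q)
  have hE1 : E ≤ 1 / q := by
    have hZq := hZ q (by omega)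
    rw [← hl] at hZq
    calc E ≤ Real.exp (-((C2 + 1) * (q / l))) * Real.exp (C2 * (q / l)) := by
          rw [hE]
          refine mul_le_mul (Real.exp_le_exp.2 (neg_le_neg ?_)) hZq (ZZ_nonneg q) (Real.exp_pos _).le
          rw [hδq]
          linarith
      _ = Real.exp (-(q / l)) := by rw [← Real.exp_add]; congr 1; ring
      _ ≤ Real.exp (-l) := Real.exp_le_exp.2 (neg_le_neg hql)
      _ = 1 / q := by rw [Real.exp_neg, hl, Real.exp_log hq0, one_div]
  have hE2 : q * Real.exp (-((1 - δ) * (lb * q))) ≤ 1 / q := by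
    have e1 : Real.exp (-((1 - δ) * (lb * q))) ≤ Real.exp (-l + -l) := by
      refine Real.exp_le_exp.2 ?_
      nlinarith
    have e0 : Real.exp (-l) = (q : ℝ)⁻¹ := by rw [Real.exp_neg, hl, Real.exp_log hq0]
    rw [Real.exp_add, e0] at e1
    calc q * Real.exp (-((1 - δ) * (lb * q))) ≤ q * ((q : ℝ)⁻¹ * (q : ℝ)⁻¹) :=
          mul_le_mul_of_nonneg_left e1 hq0.le
      _ = 1 / q := by field_simp
  have hE20 : 0 ≤ q * Real.exp (-((1 - δ) * (lb * q))) := by positivity
  set E' := q * Real.exp (-((1 - δ) * (lb * q))) with hE'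
  have hbq0 : (0 : ℝ) < (b : ℝ) ^ q := by
    have : (0 : ℝ) < b := by exact_mod_cast (by omega : 0 < b)
    positivity
  have hm : mq b q = AA b q / ((b : ℝ) ^ q * ρ) := by
    unfold mq
    rw [tot_pow hb (by omega)]
  obtain ⟨hV1, hV2⟩ := abs_le.1 (hV q (by omega))
  rw [← hl] at hV1 hV2
  set W := VV q with hW
  have hW0 : 0 ≤ W := VV_nonneg q
  have hup' : mq b q ≤ (1 + 6 * δ) / (lb * q) * W + E / ρ := by
    rw [hm, div_le_iff₀ (by positivity)]
    refine hup.trans ?_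
    have e1 : (1 + δ) / ((1 - 2 * δ) * (lb * q)) ≤ (1 + 6 * δ) / (lb * q) := by
      rw [div_le_div_iff₀ (mul_pos (by linarith) hlq) hlq]
      have : 0 ≤ δ * (3 - 12 * δ) := mul_nonneg hδ0.le (by linarith)
      nlinarith
    have e2 : (1 + δ) / ((1 - 2 * δ) * (lb * q)) * (W * ρ) ≤ (1 + 6 * δ) / (lb * q) * (W * ρ) :=
      mul_le_mul_of_nonneg_right e1 (by positivity)
    calc (b : ℝ) ^ q * ((1 + δ) / ((1 - 2 * δ) * (lb * q)) * (W * ρ) + E) ≤
          (b : ℝ) ^ q * ((1 + 6 * δ) / (lb * q) * (W * ρ) + E) := by gcongr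
      _ = _ := by field_simp
  have hlow' : (1 - 2 * δ) / (lb * q) * W - 1 / (lb * q) * (E / ρ) - E' / ρ ≤ mq b q := by
    rw [hm, le_div_iff₀ (by positivity)]
    refine le_trans ?_ hlow
    have e1 : (1 - 2 * δ) / (lb * q) * (W * ρ) ≤ (1 - δ) ^ 2 / (lb * q) * (W * ρ) := by
      refine mul_le_mul_of_nonneg_right ?_ (by positivity)
      refine div_le_div_of_nonneg_right ?_ hlq.le
      nlinarith [sq_nonneg δ]
    have e2 : (1 - δ) ^ 2 / (lb * q) * E ≤ 1 / (lb * q) * E := by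
      refine mul_le_mul_of_nonneg_right ?_ hE0
      refine div_le_div_of_nonneg_right ?_ hlq.le
      nlinarith
    calc ((1 - 2 * δ) / (lb * q) * W - 1 / (lb * q) * (E / ρ) - E' / ρ) * ((b : ℝ) ^ q * ρ) =
          (b : ℝ) ^ q * ((1 - 2 * δ) / (lb * q) * (W * ρ) - 1 / (lb * q) * E - E') := by field_simp
      _ ≤ (b : ℝ) ^ q * ((1 - δ) ^ 2 / (lb * q) * (W * ρ) - (1 - δ) ^ 2 / (lb * q) * E - E') := by
          refine mul_le_mul_of_nonneg_left ?_ hbq0.le
          linarith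
      _ = _ := by ring
  have hi0 : 0 < 1 / (lb * q) := by positivity
  have hmain : 1 / (lb * q) * (G * l) = G / lb * (l / q) := by field_simp
  have hu : (1 + 6 * δ) / (lb * q) * W ≤ G / lb * (l / q) + (6 * D0 * G + 3 * C1) * (1 / (lb * q)) := by
    have e1 : (1 + 6 * δ) / (lb * q) * W ≤ (1 + 6 * δ) / (lb * q) * (G * l + C1) :=
      mul_le_mul_of_nonneg_left (by linarith) (by positivity)
    have e2 : (1 + 6 * δ) / (lb * q) * (G * l + C1) =
        1 / (lb * q) * (G * l) + (6 * (δ * l) * G + (1 + 6 * δ) * C1) * (1 / (lb * q)) := by ring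
    rw [hδl, hmain] at e2
    have e3 : (6 * D0 * G + (1 + 6 * δ) * C1) * (1 / (lb * q)) ≤
        (6 * D0 * G + 3 * C1) * (1 / (lb * q)) := by
      refine mul_le_mul_of_nonneg_right ?_ hi0.le
      nlinarith
    linarith
  have hd : G / lb * (l / q) - (6 * D0 * G + 3 * C1) * (1 / (lb * q)) ≤ (1 - 2 * δ) / (lb * q) * W := by
    have e1 : (1 - 2 * δ) / (lb * q) * (G * l - C1) ≤ (1 - 2 * δ) / (lb * q) * W :=
      mul_le_mul_of_nonneg_left (by linarith) (div_nonneg (by linarith) hlq.le)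
    have e2 : (1 - 2 * δ) / (lb * q) * (G * l - C1) =
        1 / (lb * q) * (G * l) - (2 * (δ * l) * G + (1 - 2 * δ) * C1) * (1 / (lb * q)) := by ring
    rw [hδl, hmain] at e2
    have e3 : (2 * D0 * G + (1 - 2 * δ) * C1) * (1 / (lb * q)) ≤
        (6 * D0 * G + 3 * C1) * (1 / (lb * q)) := by
      refine mul_le_mul_of_nonneg_right ?_ hi0.le
      have := mul_pos hD0p hG0
      have := mul_pos hδ0 hC1
      nlinarith
    linarith
  have f1 : E / ρ ≤ 1 / ρ * (1 / q) := by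
    calc E / ρ ≤ (1 / q) / ρ := div_le_div_of_nonneg_right hE1 hρ.le
      _ = _ := by ring
  have f2 : E' / ρ ≤ 1 / ρ * (1 / q) := by
    calc E' / ρ ≤ (1 / q) / ρ := div_le_div_of_nonneg_right hE2 hρ.le
      _ = _ := by ring
  have f3 : 1 / (lb * q) * (E / ρ) ≤ 1 / (ρ * lb) * (1 / q) := by
    have g1 : E ≤ 1 := hE1.trans (by rw [div_le_one hq0]; linarith)
    have g2 : E / ρ ≤ 1 / ρ := div_le_div_of_nonneg_right g1 hρ.le
    calc 1 / (lb * q) * (E / ρ) ≤ 1 / (lb * q) * (1 / ρ) := mul_le_mul_of_nonneg_left g2 hi0.le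
      _ = _ := by field_simp
  have f4 : (6 * D0 * G + 3 * C1) * (1 / (lb * q)) = (6 * D0 * G + 3 * C1) / lb * (1 / q) := by
    field_simp
  have hK : ((6 * D0 * G + 3 * C1) / lb + 1 / ρ + 1 / (ρ * lb)) / (q : ℝ) =
      (6 * D0 * G + 3 * C1) / lb * (1 / q) + 1 / ρ * (1 / q) + 1 / (ρ * lb) * (1 / q) := by ring
  have h1q : 0 < 1 / (q : ℝ) := by positivity
  have f5 : 0 ≤ 1 / ρ * (1 / (q : ℝ)) := by positivity
  have f6 : 0 ≤ 1 / (ρ * lb) * (1 / (q : ℝ)) := by positivity
  rw [hK, abs_le]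
  rw [f4] at hu hd
  constructor <;> linarith

end Pool.Agent.H19P
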