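import Mathlib
import Pool.Agent.W66.LT
import Pool.Agent.TH888.R.Asy
import Pool.Agent.TH888.R.Row
import Pool.Agent.H19P.TB
import Pool.Agent.H19P.NA

set_option autoImplicit false

/-!
# Correlations of the residues of `α c ^ p` modulo `b ^ p`
-/

open Filter Topology Finset MeasureTheory
open scoped Real

namespace Pool.Agent.H19P

open Pool.Agent.W66 Pool.Agent.W66L
open Pool.Agent.H305R2 (roughPart roughPart_prime SM SM_pos SMz mem_SMz ZZ VV sum_rough_eq sum_le_VV
  tail_le ZZ_le_exp ZZ_nonneg VV_nonneg VV_tendsto log_nat_tendsto)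
open Pool.Agent.TH888.R (Sys Pt wt wt_nonneg)

/-- the deviation bound for sums over the reduced residues -/
theorem far_gen {b k q : ℕ} (hb : 2 ≤ b) [NeZero (b ^ k)] (hk1 : 1 ≤ k) (hkq : k ≤ q)
    (u : ℕ → ℝ) (hu1 : ∀ c, |u c| ≤ 1) (hper : ∀ m, u (m % b ^ k) = u m) :
    |∑ m ∈ UU b q, u m * (rpi q m - mq b q)| ≤
      dev (RN (b ^ k) (b ^ q - 1) q) := by
  set Q := b ^ k with hQ
  have hbk : 0 < b ^ k := by positivity
  have hq1 : 1 ≤ q := hk1.trans hkq
  have hunit : ∀ m : ℕ, m.Coprime b → IsUnit (m : ZMod Q) := by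
    intro m hm
    rw [ZMod.isUnit_iff_coprime]
    exact Nat.Coprime.pow_right k hm
  have hcop : ∀ (m : ℕ) (a : (ZMod Q)ˣ), (m : ZMod Q) = (a : ZMod Q) → m.Coprime b := by
    intro m a h
    have h1 : IsUnit (m : ZMod Q) := h ▸ a.isUnit
    rw [ZMod.isUnit_iff_coprime] at h1
    exact Nat.Coprime.coprime_dvd_right (dvd_pow_self b (by omega)) h1
  -- rewrite the sum by classes
  have h1 : ∑ m ∈ UU b q, u m * (rpi q m - mq b q) =
      ∑ a : (ZMod Q)ˣ, u (a : ZMod Q).val * ∑ m ∈ UU b q,
        (if (m : ZMod Q) = (a : ZMod Q) then rpi q m - mq b q else 0) := by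
    have h2 : ∀ m ∈ UU b q, u m * (rpi q m - mq b q) =
        ∑ a : (ZMod Q)ˣ, u (a : ZMod Q).val *
          (if (m : ZMod Q) = (a : ZMod Q) then rpi q m - mq b q else 0) := by
      intro m hm
      obtain ⟨a, ha⟩ := hunit m (mem_UU.1 hm).2
      rw [Finset.sum_eq_single a]
      · rw [if_pos ha.symm, ha]
        have e1 : ((m : ZMod Q)).val = m % b ^ k := by rw [ZMod.val_natCast]
        rw [e1, hper]
      · intro a' _ ha'
        rw [if_neg, mul_zero]
        intro h
        apply ha'
        apply Units.ext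
        rw [← h, ha]
      · intro h; exact absurd (Finset.mem_univ _) h
    rw [Finset.sum_congr rfl h2, Finset.sum_comm]
    refine Finset.sum_congr rfl fun a _ => ?_
    rw [Finset.mul_sum]
  rw [h1]
  have hφk := tot_pow_pos hb k
  have hφq := tot_pow_pos hb q
  -- the inner sums
  have h3 : ∀ a : (ZMod Q)ˣ, ∑ m ∈ UU b q,
      (if (m : ZMod Q) = (a : ZMod Q) then rpi q m - mq b q else 0) =
      RN Q (b ^ q - 1) q a - mn (RN Q (b ^ q - 1) q) := by
    intro a
    have h4 : ∑ m ∈ UU b q, (if (m : ZMod Q) = (a : ZMod Q) then rpi q m - mq b q else 0) =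
        ∑ m ∈ UU b q, (if (m : ZMod Q) = (a : ZMod Q) then rpi q m else 0) -
        mq b q * ∑ m ∈ UU b q, (if (m : ZMod Q) = (a : ZMod Q) then (1 : ℝ) else 0) := by
      rw [Finset.mul_sum, ← Finset.sum_sub_distrib]
      refine Finset.sum_congr rfl fun m _ => ?_
      split_ifs <;> ring
    have h5 : ∑ m ∈ UU b q, (if (m : ZMod Q) = (a : ZMod Q) then (1 : ℝ) else 0) =
        (b : ℝ) ^ (q - k) := by
      have e1 : ∑ m ∈ UU b q, (if (m : ZMod Q) = (a : ZMod Q) then (1 : ℝ) else 0) =
          (((range (b ^ q)).filter (fun m => m % b ^ k = (a : ZMod Q).val)).card : ℝ) := by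
        rw [Finset.card_eq_sum_ones, Finset.sum_filter]
        push_cast
        unfold UU
        rw [Finset.sum_filter]
        refine Finset.sum_congr rfl fun m _ => ?_
        have hiff : ((m : ZMod Q) = (a : ZMod Q)) ↔ m % b ^ k = (a : ZMod Q).val := by
          rw [← ZMod.val_natCast]
          constructor
          · intro h; rw [h]
          · intro h; exact ZMod.val_injective Q h
        by_cases h6 : (m : ZMod Q) = (a : ZMod Q)
        · rw [if_pos (hcop m a h6), if_pos h6, if_pos (hiff.1 h6)]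
        · rw [if_neg h6, if_neg fun h => h6 (hiff.2 h), ite_self]
      rw [e1, card_cls hb hkq (ZMod.val_lt _)]
      push_cast
      rfl
    have h6 : ∀ a : (ZMod Q)ˣ, ∑ m ∈ UU b q, (if (m : ZMod Q) = (a : ZMod Q) then rpi q m else 0) =
        RN Q (b ^ q - 1) q a := by
      intro a
      unfold RN UU
      rw [Finset.sum_filter, Finset.sum_filter]
      have e2 : ∑ m ∈ range (b ^ q), (if m.Coprime b then
          (if (m : ZMod Q) = (a : ZMod Q) then rpi q m else 0) else 0) =
          ∑ m ∈ Ioc 0 (b ^ q - 1), (if m.Coprime b then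
          (if (m : ZMod Q) = (a : ZMod Q) then rpi q m else 0) else 0) := by
        symm
        apply Finset.sum_subset
        · intro m hm
          rw [mem_Ioc] at hm
          rw [mem_range]
          omega
        · intro m hm hm'
          rw [mem_range] at hm
          rw [mem_Ioc] at hm'
          have : m = 0 := by omega
          rw [this, rpi_zero q, ite_self, ite_self]
      rw [e2]
      refine Finset.sum_congr rfl fun m _ => ?_
      by_cases h7 : (m : ZMod Q) = (a : ZMod Q)
      · rw [if_pos (hcop m a h7), if_pos h7, if_pos h7]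
        rfl
      · rw [if_neg h7, if_neg h7, ite_self, ite_self]
    have h7 : mn (RN Q (b ^ q - 1) q) = mq b q * (b : ℝ) ^ (q - k) := by
      have e3 : ∑ a : (ZMod Q)ˣ, RN Q (b ^ q - 1) q a = AA b q := by
        rw [AA_eq_range]
        have e4 : ∑ a : (ZMod Q)ˣ, RN Q (b ^ q - 1) q a =
            ∑ a : (ZMod Q)ˣ, ∑ m ∈ UU b q, (if (m : ZMod Q) = (a : ZMod Q) then rpi q m else 0) :=
          Finset.sum_congr rfl fun a _ => (h6 a).symm
        rw [e4, Finset.sum_comm]
        refine Finset.sum_congr rfl fun m hm => ?_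
        obtain ⟨a, ha⟩ := hunit m (mem_UU.1 hm).2
        rw [Finset.sum_eq_single a]
        · rw [if_pos ha.symm]
        · intro a' _ ha'
          rw [if_neg]
          intro h
          apply ha'
          apply Units.ext
          rw [← h, ha]
        · intro h; exact absurd (Finset.mem_univ _) h
      unfold mn
      rw [e3]
      unfold mq
      have e5 : (((b ^ q).totient : ℕ) : ℝ) = ((Q.totient : ℕ) : ℝ) * (b : ℝ) ^ (q - k) := by
        rw [hQ, tot_pow hb hq1, tot_pow hb hk1]
        have : (b : ℝ) ^ q = (b : ℝ) ^ k * (b : ℝ) ^ (q - k) := by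
          rw [← pow_add]; congr 1; omega
        rw [this]
        ring
      have hb0 : (0 : ℝ) < b := by exact_mod_cast (by omega : 0 < b)
      rw [e5]
      have hQφ : (0 : ℝ) < (Q.totient : ℝ) := hφk
      field_simp
    rw [h4, h5, h6, h7]
  calc |∑ a : (ZMod Q)ˣ, u (a : ZMod Q).val * ∑ m ∈ UU b q,
        (if (m : ZMod Q) = (a : ZMod Q) then rpi q m - mq b q else 0)| ≤
      ∑ a : (ZMod Q)ˣ, |u (a : ZMod Q).val * ∑ m ∈ UU b q,
        (if (m : ZMod Q) = (a : ZMod Q) then rpi q m - mq b q else 0)| :=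
        Finset.abs_sum_le_sum_abs _ _
    _ ≤ ∑ a : (ZMod Q)ˣ, |RN Q (b ^ q - 1) q a - mn (RN Q (b ^ q - 1) q)| := by
        refine Finset.sum_le_sum fun a _ => ?_
        rw [h3 a, abs_mul]
        calc |u (a : ZMod Q).val| * |RN Q (b ^ q - 1) q a - mn (RN Q (b ^ q - 1) q)| ≤
            1 * |RN Q (b ^ q - 1) q a - mn (RN Q (b ^ q - 1) q)| :=
              mul_le_mul_of_nonneg_right (hu1 _) (abs_nonneg _)
          _ = _ := one_mul _
    _ = _ := rfl

theorem mid_w {b : ℕ} (hb : 2 ≤ b) : ∃ K : ℝ, 0 < K ∧ ∀ᶠ p : ℕ in atTop, ∀ q w : ℕ,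
    2 * p ≤ q → w.Coprime b → JW b p q w ≤ K * (b : ℝ) ^ q * ((Real.log p / p) * (Real.log q / q)) := by
  classical
  set lb := Real.log b with hlb
  have hlb0 : 0 < lb := Real.log_pos (by exact_mod_cast hb)
  obtain ⟨K1, hK1, hmq⟩ := mq_le hb
  obtain ⟨C, hC, hVV⟩ := VV_le_log
  obtain ⟨P2, hP2⟩ := eventually_atTop.1 hVV
  obtain ⟨P3, hP3⟩ := eventually_atTop.1 (ZZ_le_exp (c := lb / 16) (by positivity))
  obtain ⟨P4, hP4⟩ := eventually_atTop.1 (exp_small2 (c := lb / 16) (by positivity))
  obtain ⟨P5, hP5⟩ := eventually_atTop.1 ((tendsto_natCast_atTop_atTop (R := ℝ)).eventually_ge_atTop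
    (24 / lb))
  have hb0 : (0 : ℝ) < b := by exact_mod_cast (by omega : 0 < b)
  have hφ : (0 : ℝ) < b.totient := by exact_mod_cast Nat.totient_pos.2 (by omega)
  refine ⟨320 / lb * C * K1 + 1, by positivity, ?_⟩
  filter_upwards [hmq, eventually_ge_atTop P2, eventually_ge_atTop P3, eventually_ge_atTop P4,
    eventually_ge_atTop P5, eventually_ge_atTop 3, eventually_ge_atTop b] with p f1 f2 f3 f4 f5 f6 f7
    q w0 hq hw0c
  have hp0 : (0 : ℝ) < p := by exact_mod_cast (by omega : 0 < p)
  have hq0 : (0 : ℝ) < q := by exact_mod_cast (by omega : 0 < q)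
  have hbr : (2 : ℝ) ≤ b := by exact_mod_cast hb
  have hbq : (b : ℝ) ^ q = Real.exp (lb * q) := by
    rw [mul_comm, Real.exp_nat_mul, hlb, Real.exp_log (by linarith)]
  have hbp : (b : ℝ) ^ p = Real.exp (lb * p) := by
    rw [mul_comm, Real.exp_nat_mul, hlb, Real.exp_log (by linarith)]
  have hlq24 : 24 ≤ lb * q := by
    have := hP5 q (by omega)
    rwa [div_le_iff₀ hlb0, mul_comm] at this
  have hlq : 0 < lb * q := by positivity
  have hlogp0 : 0 ≤ Real.log p := Real.log_natCast_nonneg p
  have hlogq0 : 0 ≤ Real.log q := Real.log_natCast_nonneg q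
  have hpq2 : 2 * (p : ℝ) ≤ q := by exact_mod_cast hq
  set X := b ^ q - 1 with hX
  have hXr : (X : ℝ) = (b : ℝ) ^ q - 1 := by
    rw [hX, Nat.cast_sub (Nat.one_le_pow _ _ (by omega))]
    push_cast
    rfl
  have hXle : (X : ℝ) ≤ (b : ℝ) ^ q := by linarith
  have hXnn : (0 : ℝ) ≤ X := Nat.cast_nonneg _
  set S := Real.exp (lb * q / 4) with hS
  have hS0 : 0 < S := Real.exp_pos _
  set N := b ^ p with hN
  have hNpos : 0 < N := by positivity
  have hNr : (N : ℝ) = (b : ℝ) ^ p := by rw [hN]; push_cast; rfl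
  have hNr0 : (0 : ℝ) < N := by exact_mod_cast hNpos
  -- the weight
  set w : ℕ → ℝ := fun m => if m.Coprime b then rpi p ((w0 * m) % N) else 0 with hw
  have hw0 : ∀ m, 0 ≤ w m := by
    intro m
    simp only [hw]
    split_ifs
    · exact rpi_nonneg _ _
    · exact le_rfl
  have hw1 : ∀ m, w m ≤ 1 := by
    intro m
    simp only [hw]
    split_ifs
    · exact rpi_le_one _ _
    · norm_num
  have hJC : JW b p q w0 = ∑ s ∈ SMz q (X : ℝ), ∑ l ∈ (Ioc 0 (X / s)).filter (fun l => l.Prime ∧ q < l),
      w (s * l) := by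
    have h1 := sum_rough_eq q 0 X w
    simp only [Nat.zero_div] at h1
    rw [← h1]
    unfold JW UU
    rw [Finset.sum_filter, Finset.sum_filter]
    have h2 : ∑ m ∈ range (b ^ q), (if m.Coprime b then rpi p ((w0 * m) % b ^ p) * rpi q m else 0) =
        ∑ m ∈ Ioc 0 X, (if m.Coprime b then rpi p ((w0 * m) % b ^ p) * rpi q m else 0) := by
      symm
      apply Finset.sum_subset
      · intro m hm
        rw [mem_Ioc] at hm
        rw [mem_range]
        omega
      · intro m hm hm'
        rw [mem_range] at hm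
        rw [mem_Ioc] at hm'
        have : m = 0 := by omega
        rw [this, rpi_zero q, mul_zero, ite_self]
    rw [h2]
    refine Finset.sum_congr rfl fun m _ => ?_
    simp only [hw]
    have e2 : (w0 * m) % b ^ p = (w0 * m) % N := rfl
    rw [e2]
    have e3 : rpi q m = if (roughPart q m).Prime then 1 else 0 := rfl
    rw [e3]
    by_cases h3 : m.Coprime b <;> by_cases h4 : (roughPart q m).Prime <;> simp [h3, h4]
  rw [hJC, ← Finset.sum_filter_add_sum_filter_not (SMz q (X : ℝ)) (fun s : ℕ => (s : ℝ) ≤ S)]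
  have hF : ∀ n ∈ (SMz q (X : ℝ)).filter (fun s : ℕ => (s : ℝ) ≤ S), n ∈ SM q := by
    intro n hn
    rw [Finset.mem_filter, mem_SMz hXnn] at hn
    exact hn.1.1
  have hAA : ∑ c ∈ UU b p, rpi p c = AA b p := (AA_eq_range b p).symm
  have hAAle : AA b p ≤ K1 * (Real.log p / p) * (N * ((b.totient : ℝ) / b)) := by
    have h1 := f1
    unfold mq at h1
    rw [tot_pow hb (by omega), div_le_iff₀ (by positivity)] at h1
    rw [hNr]
    exact h1
  -- main part
  have hmain : ∑ s ∈ (SMz q (X : ℝ)).filter (fun s : ℕ => (s : ℝ) ≤ S),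
      ∑ l ∈ (Ioc 0 (X / s)).filter (fun l => l.Prime ∧ q < l), w (s * l) ≤
      320 / lb * C * K1 * (b : ℝ) ^ q * ((Real.log p / p) * (Real.log q / q)) := by
    have hterm : ∀ s ∈ (SMz q (X : ℝ)).filter (fun s : ℕ => (s : ℝ) ≤ S),
        ∑ l ∈ (Ioc 0 (X / s)).filter (fun l => l.Prime ∧ q < l), w (s * l) ≤
        (320 * ((b : ℝ) / b.totient) * ((b : ℝ) ^ q / N) / (lb * q) * AA b p) * (s : ℝ)⁻¹ := by
      intro s hs
      rw [Finset.mem_filter, mem_SMz hXnn] at hs
      obtain ⟨⟨hs1, _⟩, hsS⟩ := hs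
      have hs0 : 0 < s := SM_pos hs1
      have hs0' : (0 : ℝ) < s := by exact_mod_cast hs0
      have hAA0 := AA_nonneg b p
      by_cases hc : s.Coprime b
      · -- lower bound for `X / (s N)`
        set M := X / s with hM
        have hM1 : (M : ℝ) ≤ (X : ℝ) / s := Nat.cast_div_le
        have hM2 : (X : ℝ) / s < M + 1 := by
          rw [div_lt_iff₀ hs0']
          have := Nat.lt_div_mul_add (a := X) hs0
          have h2 : X < (M + 1) * s := by rw [hM]; linarith
          exact_mod_cast h2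
        have hNhalf : (N : ℝ) ≤ Real.exp (lb * q / 2) := by
          rw [hNr, hbp]
          apply Real.exp_le_exp.2
          nlinarith
        have hlow : Real.exp (lb * q / 8) * Real.exp (lb * q / 2) + 1 ≤ (X : ℝ) / s := by
          rw [le_div_iff₀ hs0', hXr, hbq]
          have h1 : (Real.exp (lb * q / 8) * Real.exp (lb * q / 2) + 1) * s ≤
              (Real.exp (lb * q / 8) * Real.exp (lb * q / 2) + 1) * S :=
            mul_le_mul_of_nonneg_left hsS (by positivity)
          have h2 : Real.exp (lb * q) = Real.exp (lb * q / 8) *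
              (Real.exp (lb * q / 8) * Real.exp (lb * q / 2) * S) := by
            rw [hS, ← Real.exp_add, ← Real.exp_add, ← Real.exp_add]; ring_nf
          have h3 : 4 ≤ Real.exp (lb * q / 8) := by
            have := Real.add_one_le_exp (lb * q / 8)
            linarith
          have h4 : 1 ≤ Real.exp (lb * q / 2) := Real.one_le_exp (by positivity)
          have h5 : 1 ≤ S := Real.one_le_exp (by positivity)
          have h6 : 1 ≤ Real.exp (lb * q / 8) * Real.exp (lb * q / 2) := by nlinarith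
          have h7 : S ≤ Real.exp (lb * q / 8) * Real.exp (lb * q / 2) * S := by nlinarith
          have h8 : 4 * (Real.exp (lb * q / 8) * Real.exp (lb * q / 2) * S) ≤
              Real.exp (lb * q / 8) * (Real.exp (lb * q / 8) * Real.exp (lb * q / 2) * S) :=
            mul_le_mul_of_nonneg_right h3 (by positivity)
          nlinarith
        have hMN : N ≤ M := by
          have h1 : (N : ℝ) ≤ M := by
            have h2 : Real.exp (lb * q / 2) ≤ Real.exp (lb * q / 8) * Real.exp (lb * q / 2) := by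
              have : 1 ≤ Real.exp (lb * q / 8) := Real.one_le_exp (by positivity)
              nlinarith [Real.exp_pos (lb * q / 2)]
            linarith
          exact_mod_cast h1
        set R := M / N + 1 with hR
        have hR1 : (R : ℝ) ≤ 2 * ((b : ℝ) ^ q / N * (s : ℝ)⁻¹) := by
          have h1 : 1 ≤ M / N := (Nat.one_le_div_iff hNpos).2 hMN
          have h2 : ((M / N : ℕ) : ℝ) ≤ (M : ℝ) / N := Nat.cast_div_le
          have h3 : (R : ℝ) ≤ 2 * ((M / N : ℕ) : ℝ) := by
            rw [hR]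
            push_cast
            have : (1 : ℝ) ≤ ((M / N : ℕ) : ℝ) := by exact_mod_cast h1
            linarith
          have h4 : (M : ℝ) / N ≤ (b : ℝ) ^ q / N * (s : ℝ)⁻¹ := by
            calc (M : ℝ) / N ≤ ((X : ℝ) / s) / N := by gcongr
              _ ≤ ((b : ℝ) ^ q / s) / N := by gcongr
              _ = _ := by ring
          linarith
        have hR2 : Real.exp (lb * q / 8) ≤ R := by
          have h1 : (M : ℝ) < R * N := by
            have h2 := Nat.lt_div_mul_add (a := M) hNpos
            have h3 : M < R * N := by rw [hR]; linarith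
            exact_mod_cast h3
          have h2 : Real.exp (lb * q / 8) * N ≤ Real.exp (lb * q / 8) * Real.exp (lb * q / 2) :=
            mul_le_mul_of_nonneg_left hNhalf (Real.exp_pos _).le
          have h3 : Real.exp (lb * q / 8) * N ≤ R * N := by linarith
          exact le_of_mul_le_mul_right h3 hNr0
        have hRpos : (0 : ℝ) < R := lt_of_lt_of_le (Real.exp_pos _) hR2
        have hlogR : lb * q / 8 ≤ Real.log R := by
          rw [Real.le_log_iff_exp_le hRpos]; exact hR2
        set Bd := 320 * ((b : ℝ) / b.totient) * ((b : ℝ) ^ q / N) / (lb * q) * (s : ℝ)⁻¹ with hBd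
        have hBd0 : 0 ≤ Bd := by positivity
        have hcls : ∀ c, (((Ioc 0 M).filter (fun l => l.Prime ∧ l % N = c)).card : ℝ) ≤ Bd := by
          intro c
          refine (bt_class hb (by omega) hMN).trans ?_
          rw [← hN, ← hR]
          have h1 : (R : ℝ) / Real.log R ≤ 2 * ((b : ℝ) ^ q / N * (s : ℝ)⁻¹) / (lb * q / 8) :=
            div_le_div₀ (by positivity) hR1 (by positivity) hlogR
          calc 20 * ((b : ℝ) / b.totient) * ((R : ℝ) / Real.log R) ≤
              20 * ((b : ℝ) / b.totient) * (2 * ((b : ℝ) ^ q / N * (s : ℝ)⁻¹) / (lb * q / 8)) := by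
                gcongr
            _ = Bd := by rw [hBd]; field_simp; ring
        set Ps := (Ioc 0 M).filter (fun l => l.Prime ∧ q < l) with hPs
        have hmaps : ∀ l ∈ Ps, l % N ∈ UU b p := by
          intro l hl
          rw [hPs, mem_filter] at hl
          rw [mem_UU]
          refine ⟨Nat.mod_lt _ hNpos, ?_⟩
          rw [hN, mod_coprime (by omega), Nat.Prime.coprime_iff_not_dvd hl.2.1]
          intro h
          have := Nat.le_of_dvd (by omega) h
          omega
        rw [← Finset.sum_fiberwise_of_maps_to hmaps]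
        have hinner : ∀ c ∈ UU b p, ∑ l ∈ Ps.filter (fun l => l % N = c), w (s * l) ≤
            Bd * rpi p ((w0 * s * c) % b ^ p) := by
          intro c hc'
          have h1 : ∀ l ∈ Ps.filter (fun l => l % N = c), w (s * l) ≤ rpi p ((w0 * s * c) % b ^ p) := by
            intro l hl
            rw [mem_filter] at hl
            simp only [hw]
            split_ifs
            · have : w0 * (s * l) % N = (w0 * s * c) % b ^ p := by
                rw [← hl.2, ← hN, ← mul_assoc, Nat.mul_mod, Nat.mul_mod (w0 * s) (l % N), Nat.mod_mod]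
              rw [this]
            · exact rpi_nonneg _ _
          refine (Finset.sum_le_sum h1).trans ?_
          rw [Finset.sum_const, nsmul_eq_mul]
          apply mul_le_mul_of_nonneg_right _ (rpi_nonneg _ _)
          refine le_trans ?_ (hcls c)
          have h2 : Ps.filter (fun l => l % N = c) ⊆ (Ioc 0 M).filter (fun l => l.Prime ∧ l % N = c) := by
            intro l hl
            rw [mem_filter, hPs, mem_filter] at hl
            rw [mem_filter]
            exact ⟨hl.1.1, hl.1.2.1, hl.2⟩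
          exact_mod_cast Finset.card_le_card h2
        refine (Finset.sum_le_sum hinner).trans ?_
        rw [← Finset.mul_sum]
        have h3 := perm_sum (p := p) hb (by omega) (Nat.Coprime.mul_left hw0c hc) (rpi p)
          (rpi_nonneg p)
        rw [hAA] at h3
        calc Bd * ∑ c ∈ UU b p, rpi p ((w0 * s * c) % b ^ p) ≤ Bd * AA b p :=
              mul_le_mul_of_nonneg_left h3 hBd0
          _ = _ := by rw [hBd]; ring
      · have h0 : ∑ l ∈ (Ioc 0 (X / s)).filter (fun l => l.Prime ∧ q < l), w (s * l) = 0 := by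
          refine Finset.sum_eq_zero fun l _ => ?_
          simp only [hw]
          rw [if_neg]
          intro h
          exact hc (Nat.Coprime.coprime_mul_right h)
        rw [h0]
        positivity
    refine (Finset.sum_le_sum hterm).trans ?_
    rw [← Finset.mul_sum]
    have h1 := (sum_le_VV q _ hF).trans (hP2 q (by omega))
    have hAA0 := AA_nonneg b p
    calc 320 * ((b : ℝ) / b.totient) * ((b : ℝ) ^ q / N) / (lb * q) * AA b p *
          ∑ s ∈ (SMz q (X : ℝ)).filter (fun s : ℕ => (s : ℝ) ≤ S), (s : ℝ)⁻¹ ≤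
        320 * ((b : ℝ) / b.totient) * ((b : ℝ) ^ q / N) / (lb * q) *
          (K1 * (Real.log p / p) * (N * ((b.totient : ℝ) / b))) * (C * Real.log q) := by
          gcongr
      _ = _ := by field_simp
  have htail : ∑ s ∈ (SMz q (X : ℝ)).filter (fun s : ℕ => ¬ (s : ℝ) ≤ S),
      ∑ l ∈ (Ioc 0 (X / s)).filter (fun l => l.Prime ∧ q < l), w (s * l) ≤
      (b : ℝ) ^ q * ((Real.log p / p) * (Real.log q / q)) := by
    have hterm : ∀ s ∈ (SMz q (X : ℝ)).filter (fun s : ℕ => ¬ (s : ℝ) ≤ S),
        ∑ l ∈ (Ioc 0 (X / s)).filter (fun l => l.Prime ∧ q < l), w (s * l) ≤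
        (b : ℝ) ^ q * (s : ℝ)⁻¹ := by
      intro s _
      calc ∑ l ∈ (Ioc 0 (X / s)).filter (fun l => l.Prime ∧ q < l), w (s * l) ≤
          ∑ l ∈ (Ioc 0 (X / s)).filter (fun l => l.Prime ∧ q < l), 1 :=
            Finset.sum_le_sum fun l _ => hw1 _
        _ ≤ ∑ l ∈ Ioc 0 (X / s), 1 :=
            Finset.sum_le_sum_of_subset_of_nonneg (Finset.filter_subset _ _)
              fun _ _ _ => by norm_num
        _ = ((X / s : ℕ) : ℝ) := by rw [Finset.sum_const, Nat.card_Ioc]; simp
        _ ≤ (X : ℝ) / s := Nat.cast_div_le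
        _ = (X : ℝ) * (s : ℝ)⁻¹ := div_eq_mul_inv _ _
        _ ≤ _ := mul_le_mul_of_nonneg_right hXle (by positivity)
    refine (Finset.sum_le_sum hterm).trans ?_
    rw [← Finset.mul_sum]
    apply mul_le_mul_of_nonneg_left _ (by positivity)
    have h3 := tail_le q hS0 ((SMz q (X : ℝ)).filter (fun s : ℕ => ¬ (s : ℝ) ≤ S)) (by
      intro n hn
      rw [Finset.mem_filter, mem_SMz hXnn] at hn
      exact ⟨hn.1.1, (not_le.1 hn.2).le⟩)
    refine h3.trans ?_
    have hSm : S ^ (-(1 / 2) : ℝ) = Real.exp (-(lb * q / 8)) := by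
      rw [hS, ← Real.exp_mul]; ring_nf
    rw [hSm]
    have h4 : Real.log q / q ≤ Real.log p / p := by
      apply Real.log_div_self_antitoneOn
      · show Real.exp 1 ≤ (p : ℝ)
        have : (3 : ℝ) ≤ p := by exact_mod_cast f6
        linarith [Real.exp_one_lt_d9]
      · show Real.exp 1 ≤ (q : ℝ)
        have : (3 : ℝ) ≤ q := by exact_mod_cast (by omega : 3 ≤ q)
        linarith [Real.exp_one_lt_d9]
      · have : p ≤ q := by omega
        exact_mod_cast this
    calc Real.exp (-(lb * q / 8)) * ZZ q ≤ Real.exp (-(lb * q / 8)) * Real.exp (lb / 16 * q) :=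
          mul_le_mul_of_nonneg_left (hP3 q (by omega)) (Real.exp_pos _).le
      _ = Real.exp (-(lb / 16 * q)) := by rw [← Real.exp_add]; ring_nf
      _ ≤ (Real.log q / q) ^ 2 := hP4 q (by omega)
      _ = (Real.log q / q) * (Real.log q / q) := sq _
      _ ≤ _ := mul_le_mul_of_nonneg_right h4 (by positivity)
  refine (add_le_add hmain htail).trans (le_of_eq ?_)
  ring


/-- multiplication by a unit permutes the reduced residues -/
lemma perm_eq {b p s : ℕ} (hb : 2 ≤ b) (hp : 1 ≤ p) (hs : s.Coprime b) :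
    ∑ c ∈ UU b p, rpi p ((s * c) % b ^ p) = ∑ c ∈ UU b p, rpi p c := by
  apply le_antisymm (perm_sum hb hp hs (rpi p) (rpi_nonneg p))
  have h := perm_sum hb hp hs (fun x => 1 - rpi p x) (fun x => by
    have := rpi_le_one p x
    linarith)
  simp only [Finset.sum_sub_distrib] at h
  linarith

/-- the correlation of the indices `p` and `q` with the multiplier `w` -/
noncomputable def CW (b p q w : ℕ) : ℝ :=
  (∑ m ∈ UU b q, (rpi p ((w * m) % b ^ p) - mq b p) * (rpi q m - mq b q)) /
    ((b ^ q).totient : ℝ)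

lemma CW_eq {b p q w : ℕ} (hb : 2 ≤ b) (hp : 1 ≤ p) (hpq : p ≤ q) (hw : w.Coprime b) :
    CW b p q w = JW b p q w / ((b ^ q).totient : ℝ) - mq b p * mq b q := by
  have hφ := tot_pow_pos hb q
  have h1 : ∑ m ∈ UU b q, (rpi p ((w * m) % b ^ p) - mq b p) * (rpi q m - mq b q) =
      JW b p q w - mq b p * mq b q * ((b ^ q).totient : ℝ) := by
    have h2 : ∀ m : ℕ, (rpi p ((w * m) % b ^ p) - mq b p) * (rpi q m - mq b q) =
        rpi p ((w * m) % b ^ p) * rpi q m - mq b p * rpi q m - mq b q * rpi p ((w * m) % b ^ p) +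
          mq b p * mq b q := fun m => by ring
    have h6 : ∑ m ∈ UU b q, rpi p ((w * m) % b ^ p) =
        (b : ℝ) ^ (q - p) * ∑ c ∈ UU b p, rpi p c := by
      rw [← perm_eq hb hp hw, ← sum_UU_mod hb hp hpq (fun c => rpi p ((w * c) % b ^ p))]
      refine Finset.sum_congr rfl fun m _ => ?_
      rw [Nat.mul_mod w (m % b ^ p), Nat.mod_mod, ← Nat.mul_mod]
    simp only [h2]
    rw [Finset.sum_add_distrib, Finset.sum_sub_distrib, Finset.sum_sub_distrib, ← Finset.mul_sum,
      ← Finset.mul_sum, sum_UU_rpi hb, h6, sum_UU_rpi hb, Finset.sum_const,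
      nsmul_eq_mul, card_UU hb (hp.trans hpq)]
    have h3 := tot_lift hb hp hpq
    have h4 : (b : ℝ) ^ (q - p) * (mq b p * ((b ^ p).totient : ℝ)) =
        mq b p * ((b ^ q).totient : ℝ) := by rw [h3]; ring
    rw [h4]
    have h5 : ∑ m ∈ UU b q, rpi p ((w * m) % b ^ p) * rpi q m = JW b p q w := rfl
    rw [h5]
    ring
  unfold CW
  rw [h1]
  field_simp

/-- an inverse of `c ^ (q - p)` modulo `b ^ p` -/
def iv (b c p q : ℕ) : ℕ := (c ^ (q - p)) ^ ((b ^ p).totient - 1)

lemma iv_coprime {b c p q : ℕ} (hc : c.Coprime b) : (iv b c p q).Coprime b :=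
  Nat.Coprime.pow_left _ (Nat.Coprime.pow_left _ hc)

lemma iv_mul {b c p q : ℕ} (hb : 2 ≤ b) (hc : c.Coprime b) :
    iv b c p q * c ^ (q - p) ≡ 1 [MOD b ^ p] := by
  have h1 : 0 < (b ^ p).totient := Nat.totient_pos.2 (by positivity)
  unfold iv
  rw [← pow_succ, Nat.sub_add_cancel h1]
  exact Nat.ModEq.pow_totient (Nat.Coprime.pow_right p (Nat.Coprime.pow_left _ hc))

/-- the row sums of the correlation matrix -/
theorem CW_set {b c : ℕ} (hb : 2 ≤ b) (hc1 : 1 ≤ c) (hcb : c < b) (hcop : c.Coprime b) : ∃ κ C : ℝ, 0 < κ ∧ 0 < C ∧ ∃ P : ℕ, 3 ≤ P ∧ ∀ q ≥ P,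
    ∀ T : Finset ℕ, (∀ p ∈ T, p.Prime ∧ P ≤ p ∧ p < q) → ∑ p ∈ T, |CW b p q (iv b c p q)| ≤
        C * ((Real.log q / q) *
          (1 + ∑ p ∈ T.filter (fun p : ℕ => κ * q / Real.log q < (p : ℝ)), Real.log p / p)) := by
  classical
  obtain ⟨κ, K1, hκ, hK1, hfar⟩ := rough_L1 hb
  obtain ⟨P1, hP1⟩ := eventually_atTop.1 hfar
  obtain ⟨K2, hK2, hmid⟩ := mid_w hb
  obtain ⟨P2, hP2⟩ := eventually_atTop.1 hmid
  obtain ⟨K3, hK3, hnear⟩ := near_w hb
  obtain ⟨P3, hP3⟩ := eventually_atTop.1 hnear
  obtain ⟨K4, hK4, hmq⟩ := mq_le hb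
  obtain ⟨P4, hP4⟩ := eventually_atTop.1 hmq
  have hρ := tot_ratio_pos hb
  set ρ := (b.totient : ℝ) / b with hρdef
  set J : ℕ → ℕ → ℝ := fun p q => if 1 ≤ p then CW b p q (iv b c p q) else 0 with hJ
  set K := K1 / ρ + (K2 / ρ + K4 ^ 2) + (K3 / ρ + K4 + K4 ^ 2) with hK
  have hKpos : 0 < K := by positivity
  have hw0 : ∀ m : ℕ, 0 ≤ Real.log m / m := fun m =>
    div_nonneg (Real.log_natCast_nonneg m) (Nat.cast_nonneg m)
  have hanti : ∀ p q : ℕ, 3 ≤ p → p ≤ q → Real.log q / q ≤ Real.log p / p := by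
    intro p q hp hpq
    apply Real.log_div_self_antitoneOn
    · show Real.exp 1 ≤ (p : ℝ)
      have : (3 : ℝ) ≤ p := by exact_mod_cast hp
      linarith [Real.exp_one_lt_d9]
    · show Real.exp 1 ≤ (q : ℝ)
      have : (3 : ℝ) ≤ q := by exact_mod_cast hp.trans hpq
      linarith [Real.exp_one_lt_d9]
    · exact_mod_cast hpq
  obtain ⟨C, hC, P', hP', hP3', hrow⟩ := Pool.Agent.TH888.R.row_set (κ := κ) (K := K) hκ hKpos hb J
    (P1 + P2 + P3 + P4 + 3)
    (by
      intro q hq p hp
      have hlq : 0 ≤ Real.log q / (q : ℝ) ^ 2 :=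
        div_nonneg (Real.log_natCast_nonneg q) (by positivity)
      simp only [hJ]
      split_ifs with hp1
      · haveI : NeZero b := ⟨by omega⟩
        obtain ⟨h1, h2⟩ := hP1 q (by omega) ⌊κ * q / Real.log q⌋₊ rfl
        have hpk : p ≤ ⌊κ * q / Real.log q⌋₊ := Nat.le_floor hp
        have hm3 := mq_nonneg b p
        have hm4 := mq_le_one hb hp1
        have h3 := far_gen hb (hp1.trans hpk) h1
          (fun m => rpi p ((iv b c p q * m) % b ^ p) - mq b p)
          (fun m => by
            have g1 := rpi_nonneg p ((iv b c p q * m) % b ^ p)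
            have g2 := rpi_le_one p ((iv b c p q * m) % b ^ p)
            rw [abs_le]
            constructor <;> linarith)
          (fun m => by
            have g1 : (iv b c p q * (m % b ^ ⌊κ * q / Real.log q⌋₊)) % b ^ p =
                (iv b c p q * m) % b ^ p := by
              rw [Nat.mul_mod, Nat.mod_mod_of_dvd m (pow_dvd_pow b hpk), ← Nat.mul_mod]
            simp only [g1])
        have hφ := tot_pow_pos hb q
        unfold CW
        rw [abs_div, abs_of_pos hφ, div_le_iff₀ hφ, tot_pow hb (by omega)]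
        refine (h3.trans h2).trans ?_
        rw [← hρdef]
        have hKK : K1 ≤ K * ρ := by
          have : K1 / ρ ≤ K := by rw [hK]; have : 0 < K2 / ρ := by positivity
                                  have : 0 < K3 / ρ := by positivity
                                  nlinarith [sq_nonneg K4]
          rwa [div_le_iff₀ hρ] at this
        calc K1 * ((b : ℝ) ^ q * (Real.log q / (q : ℝ) ^ 2)) ≤
            (K * ρ) * ((b : ℝ) ^ q * (Real.log q / (q : ℝ) ^ 2)) :=
              mul_le_mul_of_nonneg_right hKK (by positivity)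
          _ = _ := by ring
      · rw [abs_zero]; exact mul_nonneg hKpos.le hlq)
    (by
      intro p hp q hq
      have hp1 : 1 ≤ p := by omega
      simp only [hJ]
      rw [if_pos hp1, CW_eq hb hp1 (by omega) (iv_coprime hcop), tot_pow hb (by omega), ← hρdef]
      have h1 := hP2 p (by omega) q (iv b c p q) hq (iv_coprime hcop)
      have h2 := hP4 p (by omega)
      have h3 := hP4 q (by omega)
      have hm1 := mq_nonneg b p
      have hm2 := mq_nonneg b q
      have hwp := hw0 p
      have hwq := hw0 q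
      have hJC0 : 0 ≤ JW b p q (iv b c p q) :=
        Finset.sum_nonneg fun m _ => mul_nonneg (rpi_nonneg _ _) (rpi_nonneg _ _)
      have hbq : (0 : ℝ) < (b : ℝ) ^ q := by positivity
      have h4 : JW b p q (iv b c p q) / ((b : ℝ) ^ q * ρ) ≤ K2 / ρ * ((Real.log p / p) * (Real.log q / q)) := by
        rw [div_le_iff₀ (by positivity)]
        refine h1.trans (le_of_eq ?_)
        field_simp
      have h4' : 0 ≤ JW b p q (iv b c p q) / ((b : ℝ) ^ q * ρ) := by positivity
      have h5 : mq b p * mq b q ≤ K4 ^ 2 * ((Real.log p / p) * (Real.log q / q)) := by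
        calc mq b p * mq b q ≤ (K4 * (Real.log p / p)) * (K4 * (Real.log q / q)) :=
              mul_le_mul h2 h3 hm2 (by positivity)
          _ = _ := by ring
      have h5' : 0 ≤ mq b p * mq b q := mul_nonneg hm1 hm2
      have h6 : 0 ≤ (Real.log p / p) * (Real.log q / q) := mul_nonneg hwp hwq
      have hKK : K2 / ρ + K4 ^ 2 ≤ K := by
        rw [hK]
        have : 0 < K1 / ρ := by positivity
        have : 0 < K3 / ρ := by positivity
        nlinarith [sq_nonneg K4]
      calc |JW b p q (iv b c p q) / ((b : ℝ) ^ q * ρ) - mq b p * mq b q| ≤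
          JW b p q (iv b c p q) / ((b : ℝ) ^ q * ρ) + mq b p * mq b q := by
            rw [abs_le]; constructor <;> linarith
        _ ≤ (K2 / ρ + K4 ^ 2) * ((Real.log p / p) * (Real.log q / q)) := by linarith
        _ ≤ _ := mul_le_mul_of_nonneg_right hKK h6)
    (by
      intro p hp q hpq hq2
      have hp1 : 1 ≤ p := by omega
      simp only [hJ]
      rw [if_pos hp1, CW_eq hb hp1 hpq.le (iv_coprime hcop)]
      have h1 := hP3 p (by omega) q c (iv b c p q) hpq hq2 hc1 hcb hcop (iv_mul hb hcop)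
      have h2 := hP4 p (by omega)
      have h3 := hP4 q (by omega)
      have hm1 := mq_nonneg b p
      have hm2 := mq_nonneg b q
      have hwp := hw0 p
      have hwq := hw0 q
      have hJC0 : 0 ≤ JW b p q (iv b c p q) :=
        Finset.sum_nonneg fun m _ => mul_nonneg (rpi_nonneg _ _) (rpi_nonneg _ _)
      have hφ := tot_pow_pos hb q
      have hφp := tot_pow_pos hb p
      have hbqp : (0 : ℝ) < (b : ℝ) ^ (q - p) := by
        have : (0 : ℝ) < b := by exact_mod_cast (by omega : 0 < b)
        positivity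
      have e1 : AA b p / ((b ^ q).totient : ℝ) = ((b : ℝ) ^ (q - p))⁻¹ * mq b p := by
        rw [tot_lift hb hp1 hpq.le]
        unfold mq
        field_simp
      have h4 : JW b p q (iv b c p q) / ((b ^ q).totient : ℝ) ≤
          ((b : ℝ) ^ (q - p))⁻¹ * mq b p + K3 / ρ * (Real.log p / p) ^ 2 := by
        rw [← e1, div_le_iff₀ hφ, add_mul, div_mul_cancel₀ _ hφ.ne']
        refine h1.trans ?_
        rw [tot_pow hb (by omega), ← hρdef]
        apply le_of_eq
        field_simp
      have h4' : 0 ≤ JW b p q (iv b c p q) / ((b ^ q).totient : ℝ) := by positivity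
      have h5 : mq b p * mq b q ≤ K4 ^ 2 * (Real.log p / p) ^ 2 := by
        calc mq b p * mq b q ≤ (K4 * (Real.log p / p)) * (K4 * (Real.log q / q)) :=
              mul_le_mul h2 h3 hm2 (by positivity)
          _ ≤ (K4 * (Real.log p / p)) * (K4 * (Real.log p / p)) := by
              apply mul_le_mul_of_nonneg_left _ (by positivity)
              exact mul_le_mul_of_nonneg_left (hanti p q (by omega) hpq.le) hK4.le
          _ = _ := by ring
      have h5' : 0 ≤ mq b p * mq b q := mul_nonneg hm1 hm2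
      have h6 : ((b : ℝ) ^ (q - p))⁻¹ * mq b p ≤ K4 * (((b : ℝ) ^ (q - p))⁻¹ * (Real.log p / p)) := by
        calc ((b : ℝ) ^ (q - p))⁻¹ * mq b p ≤ ((b : ℝ) ^ (q - p))⁻¹ * (K4 * (Real.log p / p)) :=
              mul_le_mul_of_nonneg_left h2 (by positivity)
          _ = _ := by ring
      have h7 : 0 ≤ ((b : ℝ) ^ (q - p))⁻¹ * (Real.log p / p) := mul_nonneg (by positivity) hwp
      have h8 : 0 ≤ (Real.log p / p) ^ 2 := sq_nonneg _
      have hKK1 : K3 / ρ + K4 ^ 2 ≤ K := by
        rw [hK]
        have : 0 < K1 / ρ := by positivity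
        have : 0 < K2 / ρ := by positivity
        nlinarith [sq_nonneg K4]
      have hKK2 : K4 ≤ K := by
        rw [hK]
        have : 0 < K1 / ρ := by positivity
        have : 0 < K2 / ρ := by positivity
        have : 0 < K3 / ρ := by positivity
        nlinarith [sq_nonneg K4]
      calc |JW b p q (iv b c p q) / ((b ^ q).totient : ℝ) - mq b p * mq b q| ≤
          JW b p q (iv b c p q) / ((b ^ q).totient : ℝ) + mq b p * mq b q := by
            rw [abs_le]; constructor <;> linarith
        _ ≤ K4 * (((b : ℝ) ^ (q - p))⁻¹ * (Real.log p / p)) +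
            (K3 / ρ + K4 ^ 2) * (Real.log p / p) ^ 2 := by linarith
        _ ≤ K * (((b : ℝ) ^ (q - p))⁻¹ * (Real.log p / p)) + K * (Real.log p / p) ^ 2 :=
            add_le_add (mul_le_mul_of_nonneg_right hKK2 h7) (mul_le_mul_of_nonneg_right hKK1 h8)
        _ = _ := by ring)
  refine ⟨κ, C, hκ, hC, P', hP3', fun q hq T hT => ?_⟩
  refine le_trans (le_of_eq ?_) (hrow q hq T hT)
  refine Finset.sum_congr rfl fun p hp => ?_
  have hp1 : 1 ≤ p := (hT p hp).1.pos
  simp only [hJ]
  rw [if_pos hp1]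

end Pool.Agent.H19P
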