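import Mathlib
import Pool.Agent.H19P.NB

set_option autoImplicit false

/-!
# The residues of `α β ^ p` modulo `b ^ p` form a system of nearly independent events
-/

open Filter Topology Finset MeasureTheory
open scoped Real

namespace Pool.Agent.H19P

open Pool.Agent.W66 Pool.Agent.W66L
open Pool.Agent.H305R2 (roughPart)
open Pool.Agent.TH888.R (Sys Pt wt wt_nonneg)

/-- `r n` is uniform on the reduced residues modulo `b ^ n`, and `r q` is congruent to
`c ^ (q - p) * r p` modulo `b ^ p` for primes `3 ≤ p < q` -/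
structure LowT {Ω : Type*} [MeasurableSpace Ω] (b c : ℕ) (μ : Measure Ω) (r : ℕ → Ω → ℕ) :
    Prop where
  meas : ∀ n, Measurable (r n)
  lt : ∀ n x, r n x < b ^ n
  unif : ∀ n, 1 ≤ n → ∀ a, a < b ^ n → a.Coprime b →
    μ.real {x | r n x = a} = 1 / ((b ^ n).totient : ℝ)
  rel : ∀ p q : ℕ, 3 ≤ p → p.Prime → q.Prime → p < q → ∀ x,
    c ^ (q - p) * r p x ≡ r q x [MOD b ^ p]

section law

variable {Ω : Type*} [MeasurableSpace Ω] {μ : Measure Ω} [IsProbabilityMeasure μ] {b c : ℕ}
  {r : ℕ → Ω → ℕ}

lemma LowT.measSet (hr : LowT b c μ r) (n a : ℕ) : MeasurableSet {x | r n x = a} :=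
  (hr.meas n) (measurableSet_singleton a)

lemma LowT.expand (hr : LowT b c μ r) (hb : 2 ≤ b) (n : ℕ) (f : ℕ → ℝ) (x : Ω) :
    f (r n x) = ∑ a ∈ range (b ^ n), Set.indicator {x | r n x = a} (fun _ => f a) x := by
  rw [Finset.sum_eq_single (r n x)]
  · rw [Set.indicator_of_mem]
    rfl
  · intro a _ ha
    rw [Set.indicator_of_notMem]
    exact fun h => ha h.symm
  · intro h
    exact absurd (mem_range.2 (hr.lt n x)) h

lemma LowT.integral_all (hr : LowT b c μ r) (hb : 2 ≤ b) (n : ℕ) (f : ℕ → ℝ) :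
    ∫ x, f (r n x) ∂μ = ∑ a ∈ range (b ^ n), f a * μ.real {x | r n x = a} := by
  have h1 : ∀ x, f (r n x) = ∑ a ∈ range (b ^ n), Set.indicator {x | r n x = a} (fun _ => f a) x :=
    fun x => hr.expand hb n f x
  simp only [h1]
  rw [integral_finsetSum]
  · refine Finset.sum_congr rfl fun a _ => ?_
    rw [integral_indicator (hr.measSet n a), setIntegral_const, smul_eq_mul, mul_comm]
  · intro a _
    exact (integrable_const (f a)).indicator (hr.measSet n a)

lemma LowT.zero_of_not (hr : LowT b c μ r) (hb : 2 ≤ b) {n : ℕ} (hn : 1 ≤ n) :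
    ∀ a ∈ range (b ^ n), ¬ a.Coprime b → μ.real {x | r n x = a} = 0 := by
  have h1 := hr.integral_all hb n (fun _ => (1 : ℝ))
  simp only [one_mul] at h1
  rw [integral_const, smul_eq_mul, mul_one, probReal_univ,
    ← Finset.sum_filter_add_sum_filter_not (range (b ^ n)) (fun a => a.Coprime b)] at h1
  have h2 : ∑ a ∈ (range (b ^ n)).filter (fun a => a.Coprime b), μ.real {x | r n x = a} = 1 := by
    have h3 : ∀ a ∈ (range (b ^ n)).filter (fun a => a.Coprime b),
        μ.real {x | r n x = a} = 1 / ((b ^ n).totient : ℝ) := by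
      intro a ha
      rw [mem_filter, mem_range] at ha
      exact hr.unif n hn a ha.1 ha.2
    rw [Finset.sum_congr rfl h3, Finset.sum_const, nsmul_eq_mul]
    have h4 : (((range (b ^ n)).filter (fun a => a.Coprime b)).card : ℝ) = ((b ^ n).totient : ℝ) := by
      have := card_UU hb hn
      unfold UU at this
      exact_mod_cast this
    rw [h4]
    have := tot_pow_pos hb n
    field_simp
  rw [h2] at h1
  have h5 : ∑ a ∈ (range (b ^ n)).filter (fun a => ¬ a.Coprime b), μ.real {x | r n x = a} = 0 := by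
    linarith
  intro a ha hc
  exact (Finset.sum_eq_zero_iff_of_nonneg (fun i _ => measureReal_nonneg)).1 h5 a
    (mem_filter.2 ⟨ha, hc⟩)

/-- expectations of functions of the residue -/
lemma LowT.integral (hr : LowT b c μ r) (hb : 2 ≤ b) {n : ℕ} (hn : 1 ≤ n) (f : ℕ → ℝ) :
    ∫ x, f (r n x) ∂μ = (∑ a ∈ UU b n, f a) / ((b ^ n).totient : ℝ) := by
  rw [hr.integral_all hb n f]
  unfold UU
  rw [Finset.sum_div, Finset.sum_filter]
  refine Finset.sum_congr rfl fun a ha => ?_
  by_cases hc : a.Coprime b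
  · rw [if_pos hc, hr.unif n hn a (mem_range.1 ha) hc]
    ring
  · rw [if_neg hc, hr.zero_of_not hb hn a ha hc, mul_zero]

lemma GcT_diag (hr : LowT b c μ r) (hb : 2 ≤ b) (p : ℕ) (hp1 : 1 ≤ p) :
    ∫ x, (Gc b r p x) ^ 2 ∂μ ≤ mq b p := by
  by_cases hp : p.Prime
  · have h1 : ∀ x, (Gc b r p x) ^ 2 = (fun m : ℕ => (rpi p m - mq b p) ^ 2) (r p x) := by
      intro x
      unfold Gc
      rw [if_pos hp]
    simp only [h1]
    have h2 := hr.integral hb hp1 (fun m : ℕ => (rpi p m - mq b p) ^ 2)
    rw [h2, div_le_iff₀ (tot_pow_pos hb p)]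
    have h3 : ∀ m : ℕ, (rpi p m - mq b p) ^ 2 = rpi p m - 2 * mq b p * rpi p m + mq b p ^ 2 := by
      intro m
      have : rpi p m ^ 2 = rpi p m := by unfold rpi; split_ifs <;> norm_num
      calc (rpi p m - mq b p) ^ 2 = rpi p m ^ 2 - 2 * mq b p * rpi p m + mq b p ^ 2 := by ring
        _ = _ := by rw [this]
    simp only [h3]
    rw [Finset.sum_add_distrib, Finset.sum_sub_distrib, ← Finset.mul_sum, sum_UU_rpi hb,
      Finset.sum_const, nsmul_eq_mul, card_UU hb hp1]
    have h4 := tot_pow_pos hb p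
    nlinarith [sq_nonneg (mq b p), mul_nonneg (sq_nonneg (mq b p)) h4.le]
  · have h1 : ∀ x, (Gc b r p x) ^ 2 = 0 := by
      intro x
      unfold Gc
      rw [if_neg hp]
      norm_num
    simp only [h1]
    rw [integral_zero]
    exact mq_nonneg b p

lemma GcT_prod (hr : LowT b c μ r) (hb : 2 ≤ b) (hcop : c.Coprime b) {p q : ℕ} (hp : p.Prime)
    (hp3 : 3 ≤ p) (hpq : p < q) :
    |∫ x, Gc b r p x * Gc b r q x ∂μ| ≤ |CW b p q (iv b c p q)| := by
  by_cases hq : q.Prime
  · have h0 : ∀ x, r p x = (iv b c p q * r q x) % b ^ p := by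
      intro x
      have h1 : iv b c p q * r q x ≡ r p x [MOD b ^ p] := by
        calc iv b c p q * r q x ≡ iv b c p q * (c ^ (q - p) * r p x) [MOD b ^ p] :=
              Nat.ModEq.mul_left _ (hr.rel p q hp3 hp hq hpq x).symm
          _ = (iv b c p q * c ^ (q - p)) * r p x := by ring
          _ ≡ 1 * r p x [MOD b ^ p] := Nat.ModEq.mul_right _ (iv_mul hb hcop)
          _ = r p x := one_mul _
      rw [h1, Nat.mod_eq_of_lt (hr.lt p x)]
    have h1 : ∀ x, Gc b r p x * Gc b r q x =
        (fun m : ℕ => (rpi p ((iv b c p q * m) % b ^ p) - mq b p) * (rpi q m - mq b q)) (r q x) := by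
      intro x
      unfold Gc
      rw [if_pos hp, if_pos hq]
      simp only
      rw [← h0 x]
    simp only [h1]
    have h2 := hr.integral hb (n := q) (by omega)
      (fun m : ℕ => (rpi p ((iv b c p q * m) % b ^ p) - mq b p) * (rpi q m - mq b q))
    rw [h2]
    exact le_rfl
  · have h1 : ∀ x, Gc b r p x * Gc b r q x = 0 := by
      intro x
      unfold Gc
      rw [if_neg hq, mul_zero]
    simp only [h1]
    rw [integral_zero, abs_zero]
    exact abs_nonneg _

/-- **The events form a system.** -/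
theorem sys_lowT (hb : 2 ≤ b) (hc1 : 1 ≤ c) (hcb : c < b) (hcop : c.Coprime b)
    (hr : LowT b c μ r) :
    Sys μ (fun q x => rpi q (r q x)) (fun q _ => mq b q)
      (fun _ => Real.exp Real.eulerMascheroniConstant / Real.log b) := by
  have hlb : 0 < Real.log b := Real.log_pos (by exact_mod_cast hb)
  obtain ⟨K1, hK1, hev1⟩ := mq_rate hb
  obtain ⟨P1, hP1⟩ := eventually_atTop.1 hev1
  obtain ⟨K2, hK2, hev2⟩ := mq_le hb
  obtain ⟨P2, hP2⟩ := eventually_atTop.1 hev2
  obtain ⟨κ, C, hκ, hC, P3, hP33, hP3⟩ := CW_set hb hc1 hcb hcop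
  have hG : ∀ q : ℕ, q.Prime → ∀ x, rpi q (r q x) - mq b q = Gc b r q x := by
    intro q hq x
    unfold Gc
    rw [if_pos hq]
  refine ⟨fun q => (measurable_from_nat (f := rpi q)).comp (hr.meas q), fun q => measurable_const,
    fun q x => ?_, fun q x => mq_nonneg b q, fun q x => mq_one hb q, ?_, ?_, ?_, ?_⟩
  · unfold rpi
    split_ifs
    · exact Or.inr rfl
    · exact Or.inl rfl
  · refine ⟨K1, hK1.le, P1, Eventually.of_forall fun x q hq _ => ?_⟩
    rw [mul_one_div]
    exact hP1 q hq
  · exact ⟨Real.exp Real.eulerMascheroniConstant / Real.log b,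
      Real.exp Real.eulerMascheroniConstant / Real.log b, by positivity,
      Eventually.of_forall fun x => ⟨le_rfl, le_rfl⟩⟩
  · refine ⟨κ, C + K2, hκ, by positivity, P2 + P3, by omega, fun q hq hqp => ?_,
      fun q hq hqp T hT => ?_⟩
    · simp only [hG q hqp]
      refine (GcT_diag hr hb q hqp.one_lt.le).trans ((hP2 q (by omega)).trans ?_)
      unfold wt
      have : 0 ≤ Real.log q / (q : ℝ) := div_nonneg (Real.log_natCast_nonneg q) (Nat.cast_nonneg q)
      nlinarith
    · have h1 : ∀ p ∈ T, |∫ x, (rpi p (r p x) - mq b p) * (rpi q (r q x) - mq b q) ∂μ| ≤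
          |CW b p q (iv b c p q)| := by
        intro p hp
        simp only [hG q hqp, hG p (hT p hp).1]
        exact GcT_prod hr hb hcop (hT p hp).1 (by have := (hT p hp).2.1; omega) (hT p hp).2.2
      refine (Finset.sum_le_sum h1).trans ?_
      have h2 := hP3 q (by omega) T (fun p hp => by
        obtain ⟨h3, h4, h5⟩ := hT p hp
        exact ⟨h3, by omega, h5⟩)
      refine h2.trans ?_
      unfold wt
      refine mul_le_mul_of_nonneg_right (by linarith) ?_
      have h3 : ∀ m : ℕ, 0 ≤ Real.log m / (m : ℝ) := fun m =>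
        div_nonneg (Real.log_natCast_nonneg m) (Nat.cast_nonneg m)
      have h4 : 0 ≤ ∑ p ∈ T.filter (fun p : ℕ => κ * q / Real.log q < (p : ℝ)),
          Real.log p / (p : ℝ) := Finset.sum_nonneg fun p _ => h3 p
      exact mul_nonneg (h3 q) (by linarith)
  · refine ⟨K2, hK2.le, P2, fun q hq hqp => ?_⟩
    rw [hr.integral hb hqp.one_lt.le (rpi q), sum_UU_rpi hb, mul_div_assoc,
      div_self (tot_pow_pos hb q).ne', mul_one]
    exact hP2 q hq

end law

section

variable {Ω : Type*} [MeasurableSpace Ω] {μ : Measure Ω} [IsFiniteMeasure μ] {b : ℕ}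
  {s : ℕ → Ω → ℕ}

lemma full_mod (hs : Full b μ s) (hb : 2 ≤ b) {p q : ℕ} (hpq : p ≤ q) (x : Ω) :
    s q x % b ^ p = s p x := by
  obtain ⟨h, rfl⟩ := Nat.exists_eq_add_of_le hpq
  induction h with
  | zero => exact Nat.mod_eq_of_lt (hs.lt hb p x)
  | succ h ih =>
    rw [← ih (by omega), ← hs.compat (p + h) x, Nat.mod_mod_of_dvd _ (pow_dvd_pow b (by omega))]
    rfl

/-- an inverse of `B` modulo `b ^ n` -/
def ivB (b n B : ℕ) : ℕ := B ^ ((b ^ n).totient - 1)

lemma ivB_mul {n B : ℕ} (hb : 2 ≤ b) (hc : B.Coprime b) : ivB b n B * B ≡ 1 [MOD b ^ n] := by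
  have h1 : 0 < (b ^ n).totient := Nat.totient_pos.2 (by positivity)
  unfold ivB
  rw [← pow_succ, Nat.sub_add_cancel h1]
  exact Nat.ModEq.pow_totient (Nat.Coprime.pow_right n hc)

/-- the law with error term, for sets of primes, and the dichotomy, for the residues of
`α B n` modulo `b ^ n` -/
theorem pt_tw (hb : 2 ≤ b) (hs : Full b μ s) {c : ℕ} (hc1 : 1 ≤ c) (hcb : c < b)
    (hcop : c.Coprime b) {B : ℕ → ℕ} (hB : ∀ n, 1 ≤ n → (B n).Coprime b)
    (hrel : ∀ p q : ℕ, 3 ≤ p → p.Prime → q.Prime → p < q →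
      c ^ (q - p) * B p ≡ B q [MOD b ^ p]) (S : Set ℕ) : ∀ᵐ x ∂μ, (s 1 x).Coprime b →
    Pt (fun p => (B p * s p x) % b ^ p) (Real.exp Real.eulerMascheroniConstant / Real.log b) S := by
  classical
  rcases eq_or_ne (μ Set.univ) 0 with h0 | h0
  · rw [Measure.measure_univ_eq_zero] at h0
    rw [h0]
    simp
  have hcpos : 0 < μ.real Set.univ := by
    rw [measureReal_def]
    exact ENNReal.toReal_pos h0 (measure_ne_top _ _)
  set A : Set Ω := {x | (s 1 x).Coprime b} with hA
  have hAm : MeasurableSet A := (hs.meas 1) (MeasurableSet.of_discrete (s := {m : ℕ | m.Coprime b}))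
  have hb0 : (0 : ℝ) < b := by exact_mod_cast (by omega : 0 < b)
  have hφ : (0 : ℝ) < b.totient := by exact_mod_cast Nat.totient_pos.2 (by omega)
  have hAr : μ.real A = μ.real Set.univ * (b.totient : ℝ) / b := by
    have e : A = ⋃ a ∈ (UU b 1), {x | s 1 x = a} := by
      ext x
      simp only [hA, Set.mem_setOf_eq, Set.mem_iUnion, exists_prop]
      constructor
      · intro h
        exact ⟨s 1 x, mem_UU.2 ⟨hs.lt hb 1 x, h⟩, rfl⟩
      · rintro ⟨a, ha, h⟩
        rw [h]
        exact (mem_UU.1 ha).2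
    rw [e, measureReal_biUnion_finset]
    · have h1 : ∀ a ∈ UU b 1, μ.real {x | s 1 x = a} = μ.real Set.univ / (b : ℝ) ^ 1 := by
        intro a ha
        exact hs.unif 1 a (mem_UU.1 ha).1
      rw [Finset.sum_congr rfl h1, Finset.sum_const, nsmul_eq_mul, card_UU hb le_rfl, pow_one, pow_one]
      ring
    · intro a _ a' _ haa
      rw [Function.onFun, Set.disjoint_left]
      intro x hx hx'
      exact haa (hx.symm.trans hx')
    · intro a _
      exact (hs.meas 1) (measurableSet_singleton a)
  have hApos : 0 < μ.real A := by rw [hAr]; positivity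
  have hA0 : μ A ≠ 0 := by
    intro h
    rw [measureReal_def, h] at hApos
    simp at hApos
  haveI : IsProbabilityMeasure (ProbabilityTheory.cond μ A) :=
    ProbabilityTheory.cond_isProbabilityMeasure hA0
  have hlow : LowT b c (ProbabilityTheory.cond μ A) (fun n x => (B n * s n x) % b ^ n) := by
    refine ⟨fun n => (measurable_from_nat (f := fun t : ℕ => (B n * t) % b ^ n)).comp (hs.meas n),
      fun n x => Nat.mod_lt _ (by positivity), fun n hn a ha hac => ?_,
      fun p q hp3 hp hq hpq x => ?_⟩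
    · set a' := (ivB b n (B n) * a) % b ^ n with ha'
      have hinv := ivB_mul (n := n) hb (hB n hn)
      have ha'lt : a' < b ^ n := Nat.mod_lt _ (by positivity)
      have hset : {x | (B n * s n x) % b ^ n = a} = {x | s n x = a'} := by
        ext x
        simp only [Set.mem_setOf_eq]
        constructor
        · intro h
          have h1 : s n x ≡ ivB b n (B n) * a [MOD b ^ n] := by
            calc s n x = 1 * s n x := (one_mul _).symm
              _ ≡ (ivB b n (B n) * B n) * s n x [MOD b ^ n] := Nat.ModEq.mul_right _ hinv.symm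
              _ = ivB b n (B n) * (B n * s n x) := by ring
              _ ≡ ivB b n (B n) * a [MOD b ^ n] := by
                  apply Nat.ModEq.mul_left
                  rw [← h]
                  exact (Nat.mod_modEq _ _).symm
          rw [ha', ← h1, Nat.mod_eq_of_lt (hs.lt hb n x)]
        · intro h
          have h1 : B n * s n x ≡ a [MOD b ^ n] := by
            rw [h, ha']
            calc B n * ((ivB b n (B n) * a) % b ^ n) ≡ B n * (ivB b n (B n) * a) [MOD b ^ n] :=
                  Nat.ModEq.mul_left _ (Nat.mod_modEq _ _)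
              _ = (ivB b n (B n) * B n) * a := by ring
              _ ≡ 1 * a [MOD b ^ n] := Nat.ModEq.mul_right _ hinv
              _ = a := one_mul _
          rw [h1, Nat.mod_eq_of_lt ha]
      have ha'c : a'.Coprime b := by
        have h1 : (B n * a').Coprime b := by
          have h2 : B n * a' ≡ a [MOD b ^ n] := by
            rw [ha']
            calc B n * ((ivB b n (B n) * a) % b ^ n) ≡ B n * (ivB b n (B n) * a) [MOD b ^ n] :=
                  Nat.ModEq.mul_left _ (Nat.mod_modEq _ _)
              _ = (ivB b n (B n) * B n) * a := by ring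
              _ ≡ 1 * a [MOD b ^ n] := Nat.ModEq.mul_right _ hinv
              _ = a := one_mul _
          have h3 : B n * a' ≡ a [MOD b] := h2.of_dvd (dvd_pow_self b (by omega))
          rw [Nat.Coprime, h3.gcd_eq]
          exact hac
        exact Nat.Coprime.coprime_mul_left h1
      rw [hset]
      have hsub : {x | s n x = a'} ⊆ A := by
        intro x hx
        simp only [hA, Set.mem_setOf_eq]
        rw [← hs.mod_b hb x hn, Set.mem_setOf_eq.mp hx]
        rw [Nat.Coprime, (Nat.mod_modEq a' b).gcd_eq]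
        exact ha'c
      have h1 : (ProbabilityTheory.cond μ A).real {x | s n x = a'} =
          (μ.real A)⁻¹ * μ.real {x | s n x = a'} := by
        rw [measureReal_def, ProbabilityTheory.cond_apply hAm, Set.inter_eq_self_of_subset_right hsub,
          ENNReal.toReal_mul, ENNReal.toReal_inv]
        rfl
      rw [h1, hs.unif n a' ha'lt, hAr, tot_pow hb hn]
      field_simp
    · have h1 : s q x ≡ s p x [MOD b ^ p] := by
        have := full_mod hs hb hpq.le x
        rw [← this]
        exact (Nat.mod_modEq _ _).symm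
      calc c ^ (q - p) * ((B p * s p x) % b ^ p) ≡ c ^ (q - p) * (B p * s p x) [MOD b ^ p] :=
            Nat.ModEq.mul_left _ (Nat.mod_modEq _ _)
        _ = (c ^ (q - p) * B p) * s p x := by ring
        _ ≡ B q * s q x [MOD b ^ p] := Nat.ModEq.mul (hrel p q hp3 hp hq hpq) h1.symm
        _ ≡ (B q * s q x) % b ^ q [MOD b ^ p] :=
            ((Nat.mod_modEq _ _).of_dvd (pow_dvd_pow b hpq.le)).symm
  have h := (sys_lowT hb hc1 hcb hcop hlow).pt (s := fun x p => (B p * s p x) % b ^ p)
    (Eventually.of_forall fun x => ⟨0, fun p _ _ => rfl⟩) S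
  have h2 : ∀ᵐ x ∂(μ.restrict A),
      Pt (fun p => (B p * s p x) % b ^ p)
        (Real.exp Real.eulerMascheroniConstant / Real.log b) S := by
    unfold ProbabilityTheory.cond at h
    rwa [Measure.ae_ennreal_smul_measure_iff] at h
    exact ENNReal.inv_ne_zero.2 (measure_ne_top _ _)
  rwa [ae_restrict_iff' hAm] at h2

end

end Pool.Agent.H19P
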