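import Mathlib
import Pool.Agent.TH888.R.Base
import Pool.Agent.W66.GE

set_option autoImplicit false

/-!
# Quadratic units as bases

Let `α > 1` and `α'` be real numbers with `α + α' = P`, `α α' = -1` for an integer `P`.  The powers
of `α` satisfy the Diophantine condition of `W66.near_irr`, so that the integers
`⌊β α ^ p + B α' ^ p⌋` obey the law for every `B` and almost every `β > 0`.
-/

namespace Pool.Agent.H19P

open Filter Topology MeasureTheory
open Pool.Agent.TH888.R (Near Pt pt_floor)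

section

variable {α α' : ℝ} {P : ℤ}

/-- the traces of the powers are integers -/
lemma trace_int (hs : α + α' = P) (hm : α * α' = -1) (h : ℕ) : ∃ v : ℤ, α ^ h + α' ^ h = v := by
  induction h using Nat.twoStepInduction with
  | zero => exact ⟨2, by norm_num⟩
  | one => exact ⟨P, by rw [pow_one, pow_one, hs]⟩
  | more n h1 h2 =>
    obtain ⟨v, hv⟩ := h1
    obtain ⟨w, hw⟩ := h2
    refine ⟨P * w + v, ?_⟩
    push_cast
    rw [← hs, ← hw, ← hv]
    have e1 : α ^ (n + 2) + α' ^ (n + 2) = (α + α') * (α ^ (n + 1) + α' ^ (n + 1)) -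
      (α * α') * (α ^ n + α' ^ n) := by ring
    rw [e1, hm]
    ring

lemma conj_abs (hα : 1 < α) (hm : α * α' = -1) : |α'| < 1 := by
  have h1 : |α| * |α'| = 1 := by rw [← abs_mul, hm]; norm_num
  rw [abs_of_pos (by linarith)] at h1
  have h2 := abs_nonneg α'
  nlinarith

/-- a coprime solution of `a ^ 2 + s b ^ 2 = a b v` with `s = ± 1` is `a = b = 1` -/
lemma coprime_sol {a b : ℕ} (hc : a.Coprime b) {s v : ℤ} (hs : s = 1 ∨ s = -1)
    (h : (a : ℤ) ^ 2 + s * (b : ℤ) ^ 2 = a * b * v) : a = 1 ∧ b = 1 := by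
  have hs2 : s * s = 1 := by rcases hs with rfl | rfl <;> norm_num
  constructor
  · have h1 : (a : ℤ) ∣ (b : ℤ) ^ 2 := by
      refine ⟨s * (b * v - a), ?_⟩
      have : (b : ℤ) ^ 2 = s * (s * (b : ℤ) ^ 2) := by rw [← mul_assoc, hs2, one_mul]
      rw [this, show s * (b : ℤ) ^ 2 = a * b * v - (a : ℤ) ^ 2 by linarith]
      ring
    have h2 : a ∣ b ^ 2 := by exact_mod_cast h1
    exact Nat.Coprime.eq_one_of_dvd (hc.pow_right 2) h2
  · have h1 : (b : ℤ) ∣ (a : ℤ) ^ 2 := ⟨a * v - s * b, by linear_combination h⟩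
    have h2 : b ∣ a ^ 2 := by exact_mod_cast h1
    exact Nat.Coprime.eq_one_of_dvd (hc.symm.pow_right 2) h2

/-- the Diophantine condition -/
theorem dio_unit (hα : 1 < α) (hs : α + α' = P) (hm : α * α' = -1) (h a b : ℕ) (hh : 1 ≤ h)
    (ha : 1 ≤ a) (hb : 1 ≤ b) : 1 ≤ |(a : ℝ) - b * α ^ h| * ((1 : ℝ) ^ h * (a + b)) := by
  obtain ⟨v, hv⟩ := trace_int hs hm h
  set x := α ^ h with hx
  set y := α' ^ h with hy
  have hx1 : 1 < x := one_lt_pow₀ hα (by omega)
  have hy1 : |y| < 1 := by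
    rw [hy, abs_pow]
    exact pow_lt_one₀ (abs_nonneg _) (conj_abs hα hm) (by omega)
  obtain ⟨s, hs1, hxy⟩ : ∃ s : ℤ, (s = 1 ∨ s = -1) ∧ x * y = s := by
    refine ⟨(-1) ^ h, neg_one_pow_eq_or ℤ h, ?_⟩
    rw [hx, hy, ← mul_pow, hm]
    push_cast
    rfl
  have ha0 : (1 : ℝ) ≤ a := by exact_mod_cast ha
  have hb0 : (1 : ℝ) ≤ b := by exact_mod_cast hb
  set N : ℤ := (a : ℤ) ^ 2 + s * (b : ℤ) ^ 2 - a * b * v with hN
  have hNr : (N : ℝ) = (a - b * x) * (a - b * y) := by
    rw [hN]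
    push_cast
    rw [← hxy, ← hv]
    ring
  have hN0 : N ≠ 0 := by
    intro h0
    obtain ⟨a', b', hc, ha', hb'⟩ := Nat.exists_coprime a b
    set g := a.gcd b with hg
    have hg0 : g ≠ 0 := by
      intro h
      rw [h, mul_zero] at ha'
      omega
    have h1 : (a' : ℤ) ^ 2 + s * (b' : ℤ) ^ 2 = a' * b' * v := by
      have hgz : (g : ℤ) ^ 2 ≠ 0 := by positivity
      refine mul_left_cancel₀ hgz ?_
      have e1 : (a : ℤ) = a' * g := by exact_mod_cast ha'
      have e2 : (b : ℤ) = b' * g := by exact_mod_cast hb'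
      rw [hN, e1, e2] at h0
      linear_combination h0
    obtain ⟨h2, h3⟩ := coprime_sol hc hs1 h1
    have hab : a = b := by rw [ha', hb', h2, h3]
    rw [h0, hab] at hNr
    have h4 : (b : ℝ) * (1 - x) * (b * (1 - y)) = 0 := by
      have : ((0 : ℤ) : ℝ) = 0 := Int.cast_zero
      rw [this] at hNr
      linear_combination -hNr
    have h5 : (1 - x) ≠ 0 := by linarith
    have h6 : (1 - y) ≠ 0 := by
      have := (abs_lt.1 hy1).2
      linarith
    have h7 : (b : ℝ) ≠ 0 := by positivity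
    exact (mul_ne_zero (mul_ne_zero h7 h5) (mul_ne_zero h7 h6)) h4
  have h1 : 1 ≤ |(a : ℝ) - b * x| * |(a : ℝ) - b * y| := by
    rw [← abs_mul, ← hNr, ← Int.cast_abs]
    exact_mod_cast Int.one_le_abs hN0
  have h2 : |(a : ℝ) - b * y| ≤ a + b := by
    have h3 := abs_lt.1 hy1
    rw [abs_le]
    constructor <;> nlinarith
  rw [one_pow, one_mul]
  exact h1.trans (mul_le_mul_of_nonneg_left h2 (abs_nonneg _))

/-- **The law with the base a quadratic unit.** -/
theorem pt_unit (hα : 1 < α) (hs : α + α' = P) (hm : α * α' = -1) (B : ℝ) (S : Set ℕ) :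
    ∀ᵐ β : ℝ, 0 < β → Pt (fun p => ⌊β * α ^ p + B * α' ^ p⌋₊)
      (Real.exp Real.eulerMascheroniConstant / Real.log α) S := by
  have hg : ∀ p : ℕ, |(fun p : ℕ => B * α' ^ p) p| ≤ |B| * (1 : ℝ) ^ p := by
    intro p
    simp only
    rw [one_pow, abs_mul, abs_pow]
    exact mul_le_mul_of_nonneg_left (pow_le_one₀ (abs_nonneg _) (conj_abs hα hm).le) (abs_nonneg _)
  have hnear : Near α (fun p : ℕ => B * α' ^ p) := fun b0 =>
    Pool.Agent.W66V.near_irr hα zero_le_one hα hg le_rfl hα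
      (fun h a b hh ha hb => dio_unit hα hs hm h a b hh ha hb) b0
  exact pt_floor hα zero_le_one hα hg hnear S

end

end Pool.Agent.H19P
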