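import Mathlib
import Pool.Agent.W66.GE

set_option autoImplicit false

/-!
# Pairs of values with a fixed ratio: both rough parts prime
-/

namespace Pool.Agent.H19P

open Finset MeasureTheory Filter Topology
open Pool.Agent.W66V
open Pool.Agent.W66 (no_mid_prime NN_bounds exp_small large_smooth_count)
open Pool.Agent.W66X (ysh measurable_ysh pert8 exp_ysh exp_consts)
open Pool.Agent.H305R2 (roughPart NN ff measurable_NN measurable_ff ff_nonneg ff_le_one ZZ ZZ_nonneg
  ZZ_le_exp integral_ind integral_ind_le log_nat_tendsto)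
open Pool.Agent.H447R2.ML (Sh sh_of)

open Classical in
/-- the sieve bound in one window -/
theorem pair_window {α κ C A β : ℝ} (hα : 1 < α) (hκ0 : 0 ≤ κ) (hκ : κ < α) {g : ℕ → ℝ}
    (hg : ∀ p, |g p| ≤ C * κ ^ p) (hA : 1 ≤ A) (hAα : A < α) (hβ1 : 1 ≤ β)
    (hdio : ∀ a b : ℕ, 1 ≤ a → 1 ≤ b → 1 ≤ |(a : ℝ) - b * β| * (A * (a + b)))
    (b0 : ℝ) : ∃ K : ℝ, 0 < K ∧ ∀ᶠ p : ℕ in atTop, ∀ Y : ℝ,
      Real.log α * p + (b0 - 1 / 2) ≤ Y →
      ∫ y in Set.Ioc Y (Y + 1), (if good α p y ∧ good α p
        (Real.log (β * Real.exp y + g p)) then (1 : ℝ) else 0) ≤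
        K * (Real.log p / p) ^ 2 := by
  have hα0 : 0 < α := by linarith
  set L := Real.log α with hL
  have hLpos : 0 < L := Real.log_pos hα
  set δ := L - Real.log A with hδ
  have hA0 : 0 < A := by linarith
  have hδ0 : 0 < δ := by
    have := Real.log_lt_log hA0 hAα
    rw [hδ]; linarith
  have hlA : 0 ≤ Real.log A := Real.log_nonneg hA
  have hδL : δ ≤ L := by rw [hδ]; linarith
  obtain ⟨C1, hC1, hrat⟩ := ratio_primorial
  obtain ⟨P1, hP1⟩ := eventually_atTop.1 hrat
  have hpert := pert8 hα0 hκ0 hκ hg (b0 - 1) 8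
  obtain ⟨P2, hP2⟩ := eventually_atTop.1 hpert
  have hsm := exp_small (c := 17 * δ / 64) (by positivity)
  have hlarge : ∀ᶠ p : ℕ in atTop, (|b0| + 4) * 64 / (47 * L) < p :=
    tendsto_natCast_atTop_atTop.eventually_gt_atTop _
  set a := (Z32 + 2) ^ 2 * Real.exp (-(b0 - 1 / 2) / 2) with ha
  have hZ0 := Z32_nonneg
  have ha0 : 0 < a := by positivity
  refine ⟨4 * (256 * C1 / δ) ^ 2 + a, by positivity, ?_⟩
  filter_upwards [hsm, hlarge, eventually_ge_atTop P1, eventually_ge_atTop P2, eventually_ge_atTop 2]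
    with p hsmp hpl hpP1 hpP2 hp2 Y hY
  have hp2' : (2 : ℝ) ≤ p := by exact_mod_cast hp2
  have hp0 : (0 : ℝ) < p := by linarith
  have hb0abs := neg_abs_le b0
  have hb0abs' := le_abs_self b0
  have hbn := abs_nonneg b0
  rw [div_lt_iff₀ (by positivity)] at hpl
  obtain ⟨M, hM0, hMl, hMr⟩ := hP1 p (by omega)
  have hβ0 : 0 < β := by linarith
  set κ' := g p with hκ'
  set E0 := Real.exp (L * p + (b0 - 1)) with hE0
  have hE0pos : 0 < E0 := Real.exp_pos _
  have hkb : |κ'| ≤ β * E0 / 4 := by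
    have h1 := hP2 p hpP2
    push_cast at h1
    have h2 : E0 ≤ β * E0 := le_mul_of_one_le_left hE0pos.le hβ1
    have h3 : 0 ≤ |κ'| := abs_nonneg _
    linarith
  have hEY : E0 ≤ Real.exp Y := Real.exp_le_exp.2 (by linarith)
  have hY0 : 0 ≤ Y := by
    have : (|b0| + 4) * 64 < p * (47 * L) := hpl
    have h1 : 0 < L * p := by positivity
    linarith
  have hX1 : 1 ≤ Real.exp Y := Real.one_le_exp hY0
  -- the sieve level
  set R := ⌊Real.exp (δ * p / 64)⌋₊ with hR
  have hexp1 : 1 ≤ Real.exp (δ * p / 64) := Real.one_le_exp (by positivity)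
  have hR1 : 1 ≤ R := by rw [hR, Nat.one_le_floor_iff]; exact hexp1
  have hRle : (R : ℝ) ≤ Real.exp (δ * p / 64) := Nat.floor_le (Real.exp_pos _).le
  have hRgt : Real.exp (δ * p / 64) ≤ R + 1 := (Nat.lt_floor_add_one _).le
  have hRz : (R : ℝ) ≤ Real.exp (L * p / 64) := by
    refine hRle.trans (Real.exp_le_exp.2 ?_)
    have := mul_le_mul_of_nonneg_right hδL hp0.le
    linarith
  set ε := (((R ^ 2 : ℕ) : ℝ) * (Z32 + 2)) ^ 2 *
      Real.sqrt (A ^ 1 * ((R ^ 2 : ℕ) : ℝ) ^ 3 / Real.exp Y) with hε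
  have hε0 : 0 ≤ ε := by positivity
  set f : ℝ → ℝ := fun y => if good α p y ∧ good α p (Real.log (β * Real.exp y + κ')) then (1 : ℝ) else 0 with hf
  have hAh : 1 ≤ A ^ 1 := one_le_pow₀ hA
  have hmeas : Measurable f := by
    refine Measurable.ite ?_ measurable_const measurable_const
    refine (measurableSet_good α p).inter ?_
    have h1 : Measurable (fun y : ℝ => Real.log (β * Real.exp y + κ')) :=
      Real.measurable_log.comp ((Real.measurable_exp.const_mul _).add_const _)
    exact h1 (measurableSet_good α p)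
  obtain ⟨J, hJ0, hJ1, hJ2⟩ := joint_sift_log (R := R) (M := M) hR1 hM0 (ε := ε) (Y := Y) hε0
    (ψ := fun x => β * x + κ') (by fun_prop)
    (fun D E hD hD2 hE hE2 => corr_lin (Q := R ^ 2) (A := A ^ 1) (β := β) (κ := κ') (X := Real.exp Y)
      (Nat.one_le_pow _ _ hR1) hAh hβ1 hX1 (fun a b ha hb => by rw [pow_one]; exact hdio a b ha hb) hD hD2 hE hE2)
    (f := f)
    (by
      refine Measure.integrableOn_of_bounded (M := 1) (by simp) hmeas.aestronglyMeasurable ?_
      refine Eventually.of_forall fun y => ?_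
      simp only [hf]
      split_ifs <;> simp)
    (fun y _ => by simp only [hf]; split_ifs <;> norm_num)
    (by
      intro y hy hfy
      have hgd : good α p y ∧ good α p (Real.log (β * Real.exp y + κ')) := by
        by_contra hc
        simp only [hf] at hfy
        rw [if_neg hc] at hfy
        exact lt_irrefl _ hfy
      obtain ⟨⟨g1, g2⟩, g3, g4⟩ := hgd
      have hyY : Real.exp Y < Real.exp y := Real.exp_lt_exp.2 hy.1
      have hpos : 3 / 4 * (β * Real.exp y) ≤ β * Real.exp y + κ' := by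
        have h1 := (abs_le.1 hkb).1
        have h2 : β * E0 ≤ β * Real.exp y := mul_le_mul_of_nonneg_left (by linarith) hβ0.le
        linarith
      have hψ0 : 0 < β * Real.exp y + κ' := by
        have := mul_pos hβ0 (Real.exp_pos y)
        linarith
      obtain ⟨n1, n2⟩ := NN_bounds y
      obtain ⟨n3, n4⟩ := NN_bounds (Real.log (β * Real.exp y + κ'))
      rw [Real.exp_log hψ0] at n3 n4
      refine ⟨NN y, NN (Real.log (β * Real.exp y + κ')), n1, n2, n3, n4, fun l hl hlR hlM => ?_⟩
      have hql := hMl l hl hlM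
      have hlz : (l : ℝ) ≤ Real.exp (L * p / 64) := by
        have : (l : ℝ) ≤ R := by exact_mod_cast hlR
        linarith
      constructor
      · refine no_mid_prime g1 g2 ?_ hl (by omega) hlz
        rw [← Real.exp_add]
        have h1 := size_exp (u := L * p / 64 + L * p / 4) (v := Y) (by positivity) (by linarith)
        linarith [Real.exp_pos Y]
      · refine no_mid_prime g3 g4 ?_ hl hql hlz
        rw [← Real.exp_add]
        have h1 := size_exp (u := L * p / 64 + L * p / 4) (v := Y) (by positivity) (by linarith)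
        have h2 : Real.exp Y ≤ β * Real.exp y :=
          hyY.le.trans (le_mul_of_one_le_left (Real.exp_pos _).le hβ1)
        linarith)
  refine hJ2.trans ?_
  have hm := main_bound hJ0 hC1 hδ0 hp2 (show p ≤ 2 * p by omega) hp2 hRgt hMr hJ1
  have he := err_bound (R := R) (Z := Z32) (δ := δ) (L := L) (a := a) (c := b0 - 1 / 2) (Y := Y) (A := A)
    (p := p) (h := 1) hA (by rw [hδ]; ring) hRle (by omega) (by linarith) hZ0 ha
  have he2 : (R : ℝ) ^ 8 * ε ≤ a * (Real.log p / p) ^ 2 :=
    he.trans (mul_le_mul_of_nonneg_left hsmp ha0.le)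
  calc 4 / J ^ 2 + (R : ℝ) ^ 8 * ε ≤ 4 * (256 * C1 / δ) ^ 2 * (Real.log p / p) ^ 2 +
        a * (Real.log p / p) ^ 2 := add_le_add hm he2
    _ = _ := by ring

open Classical in
/-- both rough parts are prime with probability `O((log p / p) ^ 2)` -/
theorem pair_int {α κ C A θ : ℝ} (hα : 1 < α) (hκ0 : 0 ≤ κ) (hκ : κ < α) {g g' : ℕ → ℝ}
    (hg : ∀ p, |g p| ≤ C * κ ^ p) (hg' : ∀ p, |g' p| ≤ C * κ ^ p) (hA : 1 ≤ A) (hAα : A < α)
    (hθ : 1 ≤ θ) (hdio : ∀ a b : ℕ, 1 ≤ a → 1 ≤ b → 1 ≤ |(a : ℝ) - b * θ| * (A * (a + b)))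
    (b0 : ℝ) : ∃ K : ℝ, 0 < K ∧ ∃ P : ℕ, ∀ p ≥ P,
    ∫ t in Set.Ioc b0 (b0 + 1), ff p (ysh α g p t) * ff p (ysh α g' p (t + Real.log θ)) ≤
      K * (Real.log p / p) ^ 2 := by
  classical
  have hα0 : 0 < α := by linarith
  have hθ0 : 0 < θ := by linarith
  set L := Real.log α with hL
  have hLpos : 0 < L := Real.log_pos hα
  have hk : ∀ p, |(fun p => g' p - θ * g p) p| ≤ (C + θ * C) * κ ^ p := by
    intro p
    have h1 := hg p
    have h2 := hg' p
    have h3 := abs_sub (g' p) (θ * g p)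
    rw [abs_mul, abs_of_pos hθ0] at h3
    have h4 := mul_le_mul_of_nonneg_left h1 hθ0.le
    simp only
    calc |g' p - θ * g p| ≤ C * κ ^ p + θ * (C * κ ^ p) := by linarith
      _ = _ := by ring
  obtain ⟨K1, hK1, hW⟩ := pair_window hα hκ0 hκ hk hA hAα hθ hdio b0
  have hbig := large_part hα hκ0 hκ hg b0
  have hbig' := large_part hα hκ0 hκ hg' (b0 + Real.log θ)
  have hsh := sh_of hα0 hκ0 hκ hg b0 (b0 + 1)
  have hpert := pert8 hα0 hκ0 hκ hg b0 8
  have hsm := exp_small (c := 3 * L / 32) (by positivity)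
  obtain ⟨P, hP⟩ := eventually_atTop.1 (hW.and (hbig.and (hsh.and (hpert.and (hsm.and
    ((eventually_ge_atTop 3).and hbig'))))))
  refine ⟨4 * K1 + 64, by positivity, P, fun p hp => ?_⟩
  obtain ⟨hWp, hbp, hshp, hpp, hsmp, hp3, hbq⟩ := hP p hp
  have hp3' : (3 : ℝ) ≤ p := by exact_mod_cast hp3
  have hp0 : (0 : ℝ) < p := by linarith
  set w := Real.log p / p with hw
  have hw0 : 0 ≤ w := div_nonneg (Real.log_natCast_nonneg p) hp0.le
  set z : ℝ → ℝ := fun t => ysh α g' p (t + Real.log θ) with hz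
  have hzm : Measurable z := (measurable_ysh α g' p).comp (measurable_id.add_const _)
  set G : ℝ → ℝ := fun y => if good α p y ∧ good α p
    (Real.log (θ * Real.exp y + (g' p - θ * g p))) then (1 : ℝ) else 0 with hG
  have hGm : Measurable G := by
    refine Measurable.ite ?_ measurable_const measurable_const
    refine (measurableSet_good α p).inter ?_
    have h1 : Measurable (fun y : ℝ => Real.log (θ * Real.exp y + (g' p - θ * g p))) :=
      Real.measurable_log.comp ((Real.measurable_exp.const_mul _).add_const _)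
    exact h1 (measurableSet_good α p)
  have hG0 : ∀ y, 0 ≤ G y := fun y => by simp only [hG]; split_ifs <;> norm_num
  have hG1 : ∀ y, G y ≤ 1 := fun y => by simp only [hG]; split_ifs <;> norm_num
  set Bp : ℝ → ℝ := fun t => if bad α p (ysh α g p t) then (1 : ℝ) else 0 with hBp
  set Bq : ℝ → ℝ := fun t => if bad α p (z t) then (1 : ℝ) else 0 with hBq
  have hBp0 : ∀ t, 0 ≤ Bp t := fun y => by simp only [hBp]; split_ifs <;> norm_num
  have hBq0 : ∀ t, 0 ≤ Bq t := fun y => by simp only [hBq]; split_ifs <;> norm_num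
  -- the relation between the two phases
  have hrel : ∀ t ∈ Set.Ioc b0 (b0 + 1), z t =
      Real.log (θ * Real.exp (ysh α g p t) + (g' p - θ * g p)) := by
    intro t ht
    rw [(exp_ysh hα0 hpp ht.1.le).1]
    simp only [hz]
    unfold ysh
    congr 1
    rw [Real.exp_add, Real.exp_log hθ0]
    ring
  have hpt : ∀ t ∈ Set.Ioc b0 (b0 + 1), ff p (ysh α g p t) * ff p (z t) ≤
      Bp t + Bq t + G (ysh α g p t) := by
    intro t ht
    have e1 := hBp0 t
    have e2 := hBq0 t
    have e3 := hG0 (ysh α g p t)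
    unfold ff
    by_cases h1 : (roughPart p (NN (ysh α g p t))).Prime
    · by_cases h2 : (roughPart p (NN (z t))).Prime
      · rw [if_pos h1, if_pos h2, mul_one]
        by_cases h3 : bad α p (ysh α g p t)
        · have : Bp t = 1 := by simp only [hBp]; rw [if_pos h3]
          linarith
        · by_cases h4 : bad α p (z t)
          · have : Bq t = 1 := by simp only [hBq]; rw [if_pos h4]
            linarith
          · have h5 : good α p (ysh α g p t) := ⟨h1, by
              by_contra hc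
              exact h3 ⟨h1, not_lt.1 hc⟩⟩
            have h6 : good α p (z t) := ⟨h2, by
              by_contra hc
              exact h4 ⟨h2, not_lt.1 hc⟩⟩
            rw [hrel t ht] at h6
            have : G (ysh α g p t) = 1 := by simp only [hG]; rw [if_pos ⟨h5, h6⟩]
            linarith
      · rw [if_neg h2, mul_zero]; linarith
    · rw [if_neg h1, zero_mul]; linarith
  have hmy : Measurable (fun t => ff p (ysh α g p t)) := (measurable_ff p).comp (measurable_ysh _ _ _)
  have hmz : Measurable (fun t => ff p (z t)) := (measurable_ff p).comp hzm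
  have hint1 : IntegrableOn (fun t : ℝ => ff p (ysh α g p t) * ff p (z t))
      (Set.Ioc b0 (b0 + 1)) := by
    refine Measure.integrableOn_of_bounded (M := 1) (by simp) (hmy.mul hmz).aestronglyMeasurable ?_
    refine Eventually.of_forall fun t => ?_
    have h1 := ff_nonneg p (ysh α g p t)
    have h2 := ff_nonneg p (z t)
    have h3 := ff_le_one p (ysh α g p t)
    have h4 := ff_le_one p (z t)
    rw [Real.norm_eq_abs, abs_of_nonneg (mul_nonneg h1 h2)]
    exact mul_le_one₀ h3 h2 h4
  have hiBp : IntegrableOn Bp (Set.Ioc b0 (b0 + 1)) := by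
    refine Measure.integrableOn_of_bounded (M := 1) (by simp) ?_ ?_
    · exact (Measurable.ite ((measurable_ysh α g p) (measurableSet_bad α p)) measurable_const
        measurable_const).aestronglyMeasurable
    · refine Eventually.of_forall fun t => ?_
      simp only [hBp]
      split_ifs <;> simp
  have hiBq : IntegrableOn Bq (Set.Ioc b0 (b0 + 1)) := by
    refine Measure.integrableOn_of_bounded (M := 1) (by simp) ?_ ?_
    · exact (Measurable.ite (hzm (measurableSet_bad α p)) measurable_const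
        measurable_const).aestronglyMeasurable
    · refine Eventually.of_forall fun t => ?_
      simp only [hBq]
      split_ifs <;> simp
  have hiG : IntegrableOn (fun t : ℝ => G (ysh α g p t)) (Set.Ioc b0 (b0 + 1)) := by
    refine Measure.integrableOn_of_bounded (M := 1) (by simp)
      (hGm.comp (measurable_ysh _ _ _)).aestronglyMeasurable ?_
    refine Eventually.of_forall fun t => ?_
    rw [Real.norm_eq_abs, abs_of_nonneg (hG0 _)]
    exact hG1 _
  have hstep : ∫ t in Set.Ioc b0 (b0 + 1), ff p (ysh α g p t) * ff p (z t) ≤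
      (∫ t in Set.Ioc b0 (b0 + 1), Bp t) + (∫ t in Set.Ioc b0 (b0 + 1), Bq t) +
        ∫ t in Set.Ioc b0 (b0 + 1), G (ysh α g p t) := by
    have i1 : IntegrableOn (fun t => Bp t + Bq t) (Set.Ioc b0 (b0 + 1)) := hiBp.add hiBq
    rw [← integral_add hiBp hiBq, ← integral_add i1 hiG]
    exact setIntegral_mono_on hint1 (i1.add hiG) measurableSet_Ioc hpt
  -- the main part
  set Y := L * p + (b0 - 1 / 2) with hY
  have hrange := sh_range hshp hp3
  have hw1 := hWp Y le_rfl
  have hw2 := hWp (Y + 1) (by linarith)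
  have hcov := (Sh.cov hshp hp3 (s := b0) (t := b0 + 1) le_rfl (by linarith) le_rfl
      (F := G) hGm hG0 hG1).1
  have hGint : ∀ u v : ℝ, IntegrableOn G (Set.Ioc u v) := by
    intro u v
    refine Measure.integrableOn_of_bounded (M := 1) (by simp) hGm.aestronglyMeasurable ?_
    refine Eventually.of_forall fun t => ?_
    rw [Real.norm_eq_abs, abs_of_nonneg (hG0 _)]
    exact hG1 _
  have hmain : ∫ u in Set.Ioc (ysh α g p b0) (ysh α g p (b0 + 1)), G u ≤ 2 * K1 * w ^ 2 := by
    have r1 := (hrange b0 ⟨le_rfl, by linarith⟩).1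
    have r2 := (hrange (b0 + 1) ⟨by linarith, le_rfl⟩).2
    have r1' : Y < ysh α g p b0 := r1
    have r2' : ysh α g p (b0 + 1) ≤ Y + 2 := r2
    have hsub : Set.Ioc (ysh α g p b0) (ysh α g p (b0 + 1)) ⊆ Set.Ioc Y (Y + 1) ∪ Set.Ioc (Y + 1) (Y + 1 + 1) := by
      intro u hu
      rcases le_or_gt u (Y + 1) with hc | hc
      · exact Or.inl ⟨by linarith [hu.1], hc⟩
      · exact Or.inr ⟨hc, by linarith [hu.2]⟩
    calc ∫ u in Set.Ioc (ysh α g p b0) (ysh α g p (b0 + 1)), G u ≤
          ∫ u in Set.Ioc Y (Y + 1) ∪ Set.Ioc (Y + 1) (Y + 1 + 1), G u := by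
          refine setIntegral_mono_set ((hGint _ _).union (hGint _ _)) ?_ ?_
          · exact Eventually.of_forall hG0
          · exact (HasSubset.Subset.eventuallyLE hsub)
      _ = (∫ u in Set.Ioc Y (Y + 1), G u) + ∫ u in Set.Ioc (Y + 1) (Y + 1 + 1), G u := by
          refine setIntegral_union ?_ measurableSet_Ioc (hGint _ _) (hGint _ _)
          rw [Set.disjoint_left]
          intro u hu1 hu2
          exact absurd hu1.2 (not_le.2 hu2.1)
      _ ≤ K1 * w ^ 2 + K1 * w ^ 2 := add_le_add hw1 hw2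
      _ = _ := by ring
  have hGnn : 0 ≤ ∫ t in Set.Ioc b0 (b0 + 1), G (ysh α g p t) := integral_nonneg fun t => hG0 _
  have h4 : 1 / (p : ℝ) ≤ 1 / 2 := one_div_le_one_div_of_le (by norm_num) (by linarith)
  have hmain2 : ∫ t in Set.Ioc b0 (b0 + 1), G (ysh α g p t) ≤ 4 * K1 * w ^ 2 := by
    have h5 := mul_le_mul_of_nonneg_right (show 1 / 2 ≤ 1 - 1 / (p : ℝ) by linarith) hGnn
    have h6 : (1 - 1 / (p : ℝ)) * ∫ t in Set.Ioc b0 (b0 + 1), G (ysh α g p t) ≤ 2 * K1 * w ^ 2 :=
      le_trans hcov hmain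
    linarith
  have hBpb : ∫ t in Set.Ioc b0 (b0 + 1), Bp t ≤ 32 * w ^ 2 := by
    refine hbp.trans ?_
    linarith
  have hBqb : ∫ t in Set.Ioc b0 (b0 + 1), Bq t ≤ 32 * w ^ 2 := by
    have h7 : ∫ t in Set.Ioc b0 (b0 + 1), Bq t =
        ∫ t in Set.Ioc (b0 + Real.log θ) (b0 + Real.log θ + 1),
          (if bad α p (ysh α g' p t) then (1 : ℝ) else 0) := by
      rw [← intervalIntegral.integral_of_le (by linarith),
        ← intervalIntegral.integral_of_le (by linarith)]
      have h8 := intervalIntegral.integral_comp_add_right (a := b0) (b := b0 + 1)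
        (fun t => (if bad α p (ysh α g' p t) then (1 : ℝ) else 0)) (Real.log θ)
      rw [show b0 + Real.log θ + 1 = b0 + 1 + Real.log θ by ring, ← h8]
    rw [h7]
    refine hbq.trans ?_
    linarith
  calc _ ≤ _ := hstep
    _ ≤ 32 * w ^ 2 + 32 * w ^ 2 + 4 * K1 * w ^ 2 := add_le_add (add_le_add hBpb hBqb) hmain2
    _ = (4 * K1 + 64) * w ^ 2 := by ring

end Pool.Agent.H19P
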