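import Mathlib
import Pool.Agent.H19P.QB
import Pool.Agent.TH888.R.Base

set_option autoImplicit false

/-!
# Two sequences with a fixed ratio: finitely many coincidences
-/

namespace Pool.Agent.H19P

open Filter Topology MeasureTheory
open Pool.Agent.TH888.R (ae_windows)
open Pool.Agent.H447R2.ML (ff_eq_floor)
open Pool.Agent.H305R2 (roughPart ff measurable_ff ff_nonneg ff_le_one)
open Pool.Agent.W66X (ysh measurable_ysh pert8 exp_ysh ae_of_exp')

lemma summable_wt_sq : Summable (fun p : ℕ => (Real.log p / (p : ℝ)) ^ 2) := by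
  have h1 : Summable (fun p : ℕ => 16 * (1 / (p : ℝ) ^ (3 / 2 : ℝ))) :=
    (Real.summable_one_div_nat_rpow.2 (by norm_num)).mul_left 16
  refine Summable.of_nonneg_of_le (fun p => sq_nonneg _) (fun p => ?_) h1
  rcases Nat.eq_zero_or_pos p with h | h
  · rw [h]
    simp
  · have hp : (0 : ℝ) < p := by exact_mod_cast h
    have h2 : Real.log p ≤ 4 * (p : ℝ) ^ (1 / 4 : ℝ) := by
      have := Real.log_le_rpow_div hp.le (show (0 : ℝ) < 1 / 4 by norm_num)
      linarith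
    have h0 : 0 ≤ Real.log p := Real.log_natCast_nonneg p
    have h3 : Real.log p ^ 2 ≤ 16 * (p : ℝ) ^ (1 / 2 : ℝ) := by
      have h4 : ((p : ℝ) ^ (1 / 4 : ℝ)) ^ 2 = (p : ℝ) ^ (1 / 2 : ℝ) := by
        rw [← Real.rpow_natCast, ← Real.rpow_mul hp.le]
        norm_num
      calc Real.log p ^ 2 ≤ (4 * (p : ℝ) ^ (1 / 4 : ℝ)) ^ 2 := pow_le_pow_left₀ h0 h2 2
        _ = 16 * (p : ℝ) ^ (1 / 2 : ℝ) := by rw [mul_pow, h4]; norm_num
    rw [div_pow, div_le_iff₀ (by positivity)]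
    refine h3.trans (le_of_eq ?_)
    have h5 : (p : ℝ) ^ (1 / 2 : ℝ) * (p : ℝ) ^ (3 / 2 : ℝ) = (p : ℝ) ^ 2 := by
      rw [← Real.rpow_add hp, ← Real.rpow_natCast]
      norm_num
    have h6 : (p : ℝ) ^ (3 / 2 : ℝ) ≠ 0 := (Real.rpow_pos_of_pos hp _).ne'
    rw [← h5]
    field_simp

/-- the first Borel-Cantelli lemma for functions with values in `[0, 1]` -/
lemma borel_cantelli {μ : Measure ℝ} [IsFiniteMeasure μ] {F : ℕ → ℝ → ℝ}
    (hm : ∀ p, Measurable (F p)) (h0 : ∀ p t, 0 ≤ F p t) (h1 : ∀ p t, F p t ≤ 1) {g : ℕ → ℝ}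
    (hg : Summable g) (hg0 : ∀ p, 0 ≤ g p) {P : ℕ} (h : ∀ p ≥ P, ∫ t, F p t ∂μ ≤ g p) :
    ∀ᵐ t ∂μ, ∃ Q : ℕ, ∀ p ≥ Q, F p t < 1 := by
  set s : ℕ → Set ℝ := fun p => if P ≤ p then {t | 1 ≤ F p t} else ∅ with hs
  have hint : ∀ p, Integrable (F p) μ := fun p =>
    Integrable.of_bound (hm p).aestronglyMeasurable 1
      (Eventually.of_forall fun t => by rw [Real.norm_eq_abs, abs_of_nonneg (h0 p t)]; exact h1 p t)
  have hle : ∀ p, μ (s p) ≤ ENNReal.ofReal (g p) := by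
    intro p
    by_cases hp : P ≤ p
    · simp only [hs, if_pos hp]
      have h2 := mul_meas_ge_le_integral_of_nonneg (μ := μ) (f := F p)
        (Eventually.of_forall (h0 p)) (hint p) 1
      rw [one_mul] at h2
      rw [← ENNReal.ofReal_toReal (measure_ne_top μ {t | 1 ≤ F p t})]
      exact ENNReal.ofReal_le_ofReal (h2.trans (h p hp))
    · simp only [hs, if_neg hp, measure_empty]
      exact zero_le
  have hsum : ∑' p, μ (s p) ≠ ⊤ := by
    have h3 : ∑' p, μ (s p) ≤ ∑' p, ENNReal.ofReal (g p) := ENNReal.tsum_le_tsum hle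
    rw [← ENNReal.ofReal_tsum_of_nonneg hg0 hg] at h3
    exact (h3.trans_lt ENNReal.ofReal_lt_top).ne
  filter_upwards [ae_eventually_notMem hsum] with t ht
  obtain ⟨Q, hQ⟩ := eventually_atTop.1 ht
  refine ⟨P + Q, fun p hp => ?_⟩
  have h4 := hQ p (by omega)
  simp only [hs, if_pos (show P ≤ p by omega), Set.mem_ofPred_eq, not_le] at h4
  exact h4

/-- the values are almost never integers -/
lemma ne_nat {α : ℝ} (hα0 : 0 < α) (g : ℕ → ℝ) (c : ℝ) :
    ∀ᵐ t : ℝ, ∀ p m : ℕ, Real.exp (t + c) * α ^ p + g p ≠ m := by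
  have hnull : volume (⋃ p : ℕ, ⋃ m : ℕ, {t : ℝ | Real.exp (t + c) * α ^ p + g p = m}) = 0 := by
    refine Set.Countable.measure_zero ?_ volume
    refine Set.countable_iUnion fun p => Set.countable_iUnion fun m => ?_
    refine Set.Subsingleton.countable ?_
    intro s hs t ht
    simp only [Set.mem_ofPred_eq] at hs ht
    have h3 : Real.exp (s + c) * α ^ p = Real.exp (t + c) * α ^ p := by linarith
    have h4 := Real.exp_injective (mul_right_cancel₀ (pow_pos hα0 p).ne' h3)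
    linarith
  have hae : ∀ᵐ t : ℝ, t ∉ ⋃ p : ℕ, ⋃ m : ℕ, {t : ℝ | Real.exp (t + c) * α ^ p + g p = m} := by
    rw [ae_iff]
    refine measure_mono_null (fun t ht => ?_) hnull
    simpa only [Set.mem_ofPred_eq, not_not] using ht
  filter_upwards [hae] with t ht p m hm
  refine ht ?_
  simp only [Set.mem_iUnion]
  exact ⟨p, m, hm⟩

/-- **Two sequences with a fixed ratio: both rough parts are prime only finitely often.** -/
theorem fin_ratio {α κ C A θ : ℝ} (hα : 1 < α) (hκ0 : 0 ≤ κ) (hκ : κ < α) {g g' : ℕ → ℝ}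
    (hg : ∀ p, |g p| ≤ C * κ ^ p) (hg' : ∀ p, |g' p| ≤ C * κ ^ p) (hA : 1 ≤ A) (hAα : A < α)
    (hθ : 1 ≤ θ) (hdio : ∀ a b : ℕ, 1 ≤ a → 1 ≤ b → 1 ≤ |(a : ℝ) - b * θ| * (A * (a + b))) :
    ∀ᵐ β : ℝ, 0 < β → {p : ℕ | p.Prime ∧ (roughPart p ⌊β / θ * α ^ p + g p⌋₊).Prime ∧
      (roughPart p ⌊β * α ^ p + g' p⌋₊).Prime}.Finite := by
  have hα0 : 0 < α := by linarith
  have hθ0 : 0 < θ := by linarith
  have key : ∀ᵐ t : ℝ, {p : ℕ | p.Prime ∧ (roughPart p ⌊Real.exp t * α ^ p + g p⌋₊).Prime ∧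
      (roughPart p ⌊Real.exp (t + Real.log θ) * α ^ p + g' p⌋₊).Prime}.Finite := by
    refine ae_windows fun b0 => ?_
    obtain ⟨K, hK, P, hP⟩ := pair_int hα hκ0 hκ hg hg' hA hAα hθ hdio b0
    have hfin : IsFiniteMeasure (volume.restrict (Set.Ioc b0 (b0 + 1))) := ⟨by simp⟩
    have hzm : ∀ p, Measurable (fun t : ℝ => ysh α g' p (t + Real.log θ)) := fun p =>
      (measurable_ysh α g' p).comp (measurable_id.add_const _)
    have hbc := borel_cantelli (μ := volume.restrict (Set.Ioc b0 (b0 + 1)))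
      (F := fun p t => ff p (ysh α g p t) * ff p (ysh α g' p (t + Real.log θ)))
      (fun p => ((measurable_ff p).comp (measurable_ysh α g p)).mul ((measurable_ff p).comp (hzm p)))
      (fun p t => mul_nonneg (ff_nonneg _ _) (ff_nonneg _ _))
      (fun p t => mul_le_one₀ (ff_le_one _ _) (ff_nonneg _ _) (ff_le_one _ _))
      (summable_wt_sq.mul_left K) (fun p => mul_nonneg hK.le (sq_nonneg _)) (P := P)
      (fun p hp => hP p hp)
    filter_upwards [hbc, ae_restrict_of_ae (ne_nat hα0 g 0),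
      ae_restrict_of_ae (ne_nat hα0 g' (Real.log θ))] with t ht hn1 hn2
    obtain ⟨Q, hQ⟩ := ht
    obtain ⟨Q1, hQ1⟩ := eventually_atTop.1 (pert8 hα0 hκ0 hκ hg t 8)
    obtain ⟨Q2, hQ2⟩ := eventually_atTop.1 (pert8 hα0 hκ0 hκ hg' (t + Real.log θ) 8)
    refine (Set.finite_lt_nat (Q + Q1 + Q2)).subset ?_
    rintro p ⟨hp, hr1, hr2⟩
    by_contra hc
    rw [Set.mem_ofPred_eq, not_lt] at hc
    have g1 : ff p (ysh α g p t) = 1 := by
      have h1 := ff_eq_floor (p := p) (exp_ysh hα0 (hQ1 p (by omega)) le_rfl).2.1 (fun m => by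
        have := hn1 p m
        rwa [add_zero] at this)
      rw [if_pos hr1] at h1
      exact h1
    have g2 : ff p (ysh α g' p (t + Real.log θ)) = 1 := by
      have h1 := ff_eq_floor (p := p) (exp_ysh hα0 (hQ2 p (by omega)) le_rfl).2.1
        (fun m => hn2 p m)
      rw [if_pos hr2] at h1
      exact h1
    have g3 := hQ p (by omega)
    rw [g1, g2] at g3
    norm_num at g3
  have h2 := (measurePreserving_sub_right (volume : Measure ℝ)
    (Real.log θ)).quasiMeasurePreserving.ae key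
  refine ae_of_exp' (P := fun β : ℝ => {p : ℕ | p.Prime ∧
    (roughPart p ⌊β / θ * α ^ p + g p⌋₊).Prime ∧
      (roughPart p ⌊β * α ^ p + g' p⌋₊).Prime}.Finite) ?_
  filter_upwards [h2] with s hs
  rw [sub_add_cancel, Real.exp_sub, Real.exp_log hθ0] at hs
  exact hs

end Pool.Agent.H19P
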