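import Mathlib
import Pool.Agent.H625R3.TM4

/-! # Thue–Morse along several polynomials at once

Joint version of the theorem of `Pool.Agent.H625R3.TM4`: several polynomials of the same degree
`d ≥ 2`, no leading coefficient being a power of two times another one, and positions in a given
residue class. -/

set_option autoImplicit false

namespace Pool.Agent.H19P.TMJ

open Polynomial Finset Pool.Agent.H625R3.TM

/-- Every vector is a finite sum of vectors `(t(a^e v_i))_i` with `q ∣ a`, if no `v_i` is a power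
of two times another one. -/
theorem span_odd {k : ℕ} (e : ℕ) (he : 1 ≤ e) (q : ℕ) (hq : 0 < q) (v : Fin k → ℕ)
    (hpos : ∀ i, 0 < v i) (hne : ∀ i j, i ≠ j → ∀ f : ℕ, v i ≠ 2 ^ f * v j)
    (g : Fin k → ZMod 2) :
    ∃ L : List ℕ, (∀ a ∈ L, q ∣ a) ∧ ∀ i, (L.map (fun a => tm (a ^ e * v i))).sum = g i := by
  classical
  let w : Fin k → ℕ := fun i => q ^ e * v i
  have hw : ∀ i, 0 < w i := fun i => Nat.mul_pos (pow_pos hq e) (hpos i)
  obtain ⟨N, hN⟩ : ∃ N, ∀ i, Nat.log 2 (w i) ≤ N :=
    ⟨∑ i, Nat.log 2 (w i), fun i => Finset.single_le_sum (f := fun i => Nat.log 2 (w i))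
      (fun _ _ => Nat.zero_le _) (mem_univ i)⟩
  let u : Fin k → ℕ := fun i => N - Nat.log 2 (w i)
  have h1 : ∀ i, 2 ^ N ≤ 2 ^ u i * w i := by
    intro i
    have h := Nat.pow_log_le_self 2 (x := w i) (hw i).ne'
    calc 2 ^ N = 2 ^ u i * 2 ^ Nat.log 2 (w i) := by
          rw [← pow_add]; congr 1; have := hN i; simp only [u]; omega
      _ ≤ _ := Nat.mul_le_mul_left _ h
  have h2 : ∀ i, 2 ^ u i * w i < 2 * 2 ^ N := by
    intro i
    have h := Nat.lt_pow_succ_log_self (b := 2) (by norm_num) (w i)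
    calc 2 ^ u i * w i < 2 ^ u i * 2 ^ (Nat.log 2 (w i) + 1) :=
          Nat.mul_lt_mul_of_pos_left h (by positivity)
      _ = 2 * 2 ^ N := by
          rw [← pow_add, ← pow_succ']; congr 1; have := hN i; simp only [u]; omega
  have hp : ∀ i, 0 < 2 ^ u i * w i := fun i => Nat.mul_pos (by positivity) (hw i)
  obtain ⟨L, hL⟩ := span_all e he (fun i => 2 ^ u i * w i) hp
    (fun i j _ => by have := h1 i; have := h2 j; show 2 ^ u j * w j < 2 * (2 ^ u i * w i); omega)
    (by
      intro i j hij
      by_contra hne'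
      have hij' : 2 ^ u i * w i = 2 ^ u j * w j := hij
      have h3 : 2 ^ u i * v i = 2 ^ u j * v j := by
        have h4 : q ^ e * (2 ^ u i * v i) = q ^ e * (2 ^ u j * v j) := by
          simp only [w] at hij'
          linarith
        exact Nat.eq_of_mul_eq_mul_left (pow_pos hq e) h4
      rcases le_total (u i) (u j) with h | h
      · apply hne i j hne' (u j - u i)
        have h5 : 2 ^ u i * v i = 2 ^ u i * (2 ^ (u j - u i) * v j) := by
          rw [← mul_assoc, ← pow_add, Nat.add_sub_cancel' h]; exact h3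
        exact Nat.eq_of_mul_eq_mul_left (by positivity) h5
      · apply hne j i (Ne.symm hne') (u i - u j)
        have h5 : 2 ^ u j * v j = 2 ^ u j * (2 ^ (u i - u j) * v i) := by
          rw [← mul_assoc, ← pow_add, Nat.add_sub_cancel' h]; exact h3.symm
        exact Nat.eq_of_mul_eq_mul_left (by positivity) h5) g
  refine ⟨L.map (q * ·), ?_, fun i => ?_⟩
  · intro a ha
    rw [List.mem_map] at ha
    obtain ⟨b, _, rfl⟩ := ha
    exact dvd_mul_right _ _
  · rw [List.map_map, ← hL i]
    congr 1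
    apply List.map_congr_left
    intro a _
    simp only [Function.comp_apply]
    have : a ^ e * (2 ^ u i * w i) = 2 ^ u i * ((q * a) ^ e * v i) := by simp only [w]; ring
    rw [this, tm_pow_mul]

/-- The same for an arbitrary finite index type. -/
theorem span_fin {ι : Type} [Fintype ι] (e : ℕ) (he : 1 ≤ e) (q : ℕ) (hq : 0 < q) (v : ι → ℕ)
    (hpos : ∀ i, 0 < v i) (hne : ∀ i j, i ≠ j → ∀ f : ℕ, v i ≠ 2 ^ f * v j)
    (g : ι → ZMod 2) :
    ∃ L : List ℕ, (∀ a ∈ L, q ∣ a) ∧ ∀ i, (L.map (fun a => tm (a ^ e * v i))).sum = g i := by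
  classical
  let φ := Fintype.equivFin ι
  obtain ⟨L, h1, h2⟩ := span_odd e he q hq (fun i => v (φ.symm i)) (fun i => hpos _)
    (fun i j hij => hne _ _ (fun h => hij (φ.symm.injective h))) (fun i => g (φ.symm i))
  refine ⟨L, h1, fun i => ?_⟩
  have := h2 (φ i)
  simpa using this

/-- All products of block operators are realised by shifts; the shift is a multiple of `q` if the
parameters are. -/
theorem achieve' (d k q : ℕ) : ∀ (L : List ℕ), (∀ a ∈ L, q ∣ a) → ∀ (F : Finset ℕ[X]),
    (∀ Q ∈ F, Q.natDegree ≤ d) →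
    ∃ n, q ∣ n ∧ ∀ Q ∈ F, ∀ y ∈ range k, tm (Q.eval (y + n)) = ((L.map (Del d)).prod (ev y)) Q := by
  classical
  intro L
  induction L with
  | nil =>
    intro _ F _
    exact ⟨0, dvd_zero _, fun Q _ y _ => rfl⟩
  | cons a L ih =>
    intro hL F hF
    let F' : Finset ℕ[X] := F.biUnion (fun Q => (range (d + 1)).image (fun j => fop a j Q))
    obtain ⟨n', hqn', hn'⟩ := ih (fun b hb => hL b (List.mem_cons_of_mem a hb)) F' (by
      intro Q hQ
      simp only [F', Finset.mem_biUnion, Finset.mem_image] at hQ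
      obtain ⟨Q0, hQ0, j, _, rfl⟩ := hQ
      have := natDegree_fop_le a j Q0
      have := hF Q0 hQ0
      omega)
    obtain ⟨m, hm⟩ : ∃ m : ℕ, ∀ Q ∈ F, ∀ y ∈ range k, ∀ j ∈ range (d + 1),
        (fop a j Q).eval (y + n') < 2 ^ m := by
      refine ⟨∑ Q ∈ F, ∑ y ∈ range k, ∑ j ∈ range (d + 1), (fop a j Q).eval (y + n'), ?_⟩
      intro Q hQ y hy j hj
      refine lt_of_le_of_lt ?_ Nat.lt_two_pow_self
      refine le_trans ?_ (Finset.single_le_sum (f := fun Q => ∑ y ∈ range k, ∑ j ∈ range (d + 1),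
        (fop a j Q).eval (y + n')) (fun _ _ => Nat.zero_le _) hQ)
      refine le_trans ?_ (Finset.single_le_sum (f := fun y => ∑ j ∈ range (d + 1),
        (fop a j Q).eval (y + n')) (fun _ _ => Nat.zero_le _) hy)
      exact Finset.single_le_sum (f := fun j => (fop a j Q).eval (y + n'))
        (fun _ _ => Nat.zero_le _) hj
    refine ⟨n' + a * 2 ^ m, ?_, fun Q hQ y hy => ?_⟩
    · exact (Nat.dvd_add_right hqn').2 ((hL a List.mem_cons_self).mul_right _)
    rw [← add_assoc, tm_block d Q (hF Q hQ) (y + n') a m (hm Q hQ y hy)]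
    rw [List.map_cons, List.prod_cons, Module.End.mul_apply, Del_apply, Del_apply]
    refine Finset.sum_congr rfl fun j hj => ?_
    exact hn' _ (by
      simp only [F', Finset.mem_biUnion, Finset.mem_image]
      exact ⟨Q, hQ, j, hj, rfl⟩) y hy

/-- Functionals which are the Thue–Morse value on constants. -/
def Good (φ : Fn) : Prop := ∀ m : ℕ, φ (C m) = tm m

theorem Good.zero {φ : Fn} (h : Good φ) : φ 0 = 0 := by
  have := h 0
  simpa [tm_zero] using this

theorem good_ev (y : ℕ) : Good (ev y) := fun m => by simp [ev]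

theorem good_pow (d a t : ℕ) {φ : Fn} (h : Good φ) : Good (((Del d a) ^ (2 ^ t)) φ) := by
  intro m
  rw [Del_pow_apply, Finset.sum_range_succ']
  have h0 : (fop a 0)^[2 ^ t] (C m) = C m := by
    have : fop a 0 = id := by funext Q; exact fop_zero_deriv a Q
    rw [this, Function.iterate_id]; rfl
  have hj : ∀ j, (fop a (j + 1))^[2 ^ t] (C m) = 0 := by
    intro j
    apply iter_eq_zero
    rw [natDegree_C]
    positivity
  rw [Finset.sum_eq_zero (fun j _ => by rw [hj j]; exact h.zero), zero_add, h0]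
  exact h m

theorem good_prod (d t : ℕ) (L : List ℕ) {φ : Fn} (h : Good φ) :
    Good ((L.map (fun a => (Del d a) ^ (2 ^ t))).prod φ) := by
  induction L with
  | nil => simpa using h
  | cons a L ih =>
    rw [List.map_cons, List.prod_cons, Module.End.mul_apply]
    exact good_pow d a t ih

/-- Several flips. -/
theorem flips (d s : ℕ) (hd : d = 2 * 2 ^ s) (φ : Fn) (hφ : Good φ) (Q : ℕ[X])
    (hQ : Q.natDegree = d) : ∀ B : List ℕ,
    ((B.map (fun b => (Del d b) ^ (2 ^ (s + 1)))).prod φ) Q =
      φ Q + (B.map (fun b => tm (b ^ d * (d.factorial * Q.leadingCoeff)))).sum := by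
  intro B
  induction B with
  | nil => simp
  | cons b B ih =>
    rw [List.map_cons, List.prod_cons, Module.End.mul_apply, Del_pow_apply]
    have hψ : Good ((B.map (fun b => (Del d b) ^ (2 ^ (s + 1)))).prod φ) :=
      good_prod d (s + 1) B hφ
    generalize (B.map (fun b => (Del d b) ^ (2 ^ (s + 1)))).prod φ = ψ at hψ ih ⊢
    have hp : 0 < 2 ^ s := by positivity
    obtain ⟨d', rfl⟩ : ∃ d', d = d' + 1 := ⟨d - 1, by omega⟩
    rw [Finset.sum_range_succ', Finset.sum_range_succ']
    have h0 : (fop b 0)^[2 ^ (s + 1)] Q = Q := by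
      have : fop b 0 = id := by funext Q; exact fop_zero_deriv b Q
      rw [this, Function.iterate_id]; rfl
    have h2 : ∀ j, (fop b (j + 1 + 1))^[2 ^ (s + 1)] Q = 0 := by
      intro j
      apply iter_eq_zero
      have : 2 ^ (s + 1) * (j + 1 + 1) = 4 * 2 ^ s + 2 ^ (s + 1) * j := by ring
      omega
    rw [Finset.sum_eq_zero (fun j _ => by rw [h2 j]; exact hψ.zero), zero_add, h0,
      zero_add, iter_one]
    have hs : 2 ^ (s + 1) = d' + 1 := by rw [hd]; ring
    have hC : derivative^[2 ^ (s + 1)] Q = C ((d' + 1).factorial * Q.leadingCoeff) := by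
      rw [hs]
      have h3 : ((d' + 1).factorial • hasseDeriv (d' + 1)) Q = derivative^[d' + 1] Q :=
        congrFun (factorial_smul_hasseDeriv (R := ℕ) (k := d' + 1)) Q
      rw [← h3]
      have h4 : hasseDeriv (d' + 1) Q = C Q.leadingCoeff := by
        rw [← hQ]; exact hasseDeriv_natDegree_eq_C Q
      simp only [LinearMap.smul_apply, h4]
      rw [← C_mul']
      simp
    rw [hC, hs]
    have hsm : (b ^ (d' + 1)) • C ((d' + 1).factorial * Q.leadingCoeff) =
        C (b ^ (d' + 1) * ((d' + 1).factorial * Q.leadingCoeff)) := by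
      rw [← C_mul', ← C_mul]
    rw [hsm, hψ, ih, List.map_cons, List.sum_cons]
    ring

/-- Two polynomials of the same positive degree with different leading coefficients. -/
theorem ev_lt (A B : ℕ[X]) (hA : A.natDegree = B.natDegree) (h1 : 1 ≤ B.natDegree)
    (h : A.leadingCoeff < B.leadingCoeff) : ∃ c0 : ℕ, ∀ c, c0 ≤ c → A.eval c < B.eval c := by
  set Q : ℤ[X] := B.map (Nat.castRingHom ℤ) - A.map (Nat.castRingHom ℤ) - 1 with hQ
  have hco : Q.coeff B.natDegree = (B.leadingCoeff : ℤ) - A.leadingCoeff := by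
    rw [hQ, coeff_sub, coeff_sub, coeff_map, coeff_map, coeff_one, if_neg (by omega), sub_zero]
    rw [leadingCoeff, leadingCoeff, hA]
    rfl
  have hpos : 0 < Q.coeff B.natDegree := by
    rw [hco]
    have : (A.leadingCoeff : ℤ) < B.leadingCoeff := by exact_mod_cast h
    linarith
  have hle : Q.natDegree ≤ B.natDegree := by
    rw [hQ]
    refine (natDegree_sub_le _ _).trans (max_le ((natDegree_sub_le _ _).trans (max_le ?_ ?_)) ?_)
    · exact natDegree_map_le
    · exact natDegree_map_le.trans hA.le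
    · simp
  have hdeg : Q.natDegree = B.natDegree := natDegree_eq_of_le_of_coeff_ne_zero hle hpos.ne'
  obtain ⟨c0, hc0⟩ := eventually_nonneg Q (by rw [leadingCoeff, hdeg]; exact hpos)
  refine ⟨c0, fun c hc => ?_⟩
  have h2 := hc0 c hc
  have e : ∀ p : ℕ[X], (p.map (Nat.castRingHom ℤ)).eval (c : ℤ) = ((p.eval c : ℕ) : ℤ) := by
    intro p
    have := Polynomial.eval_map_apply (f := Nat.castRingHom ℤ) (p := p) c
    simpa using this
  rw [hQ, eval_sub, eval_sub, eval_one, e, e] at h2
  omega

/-- Values of two polynomials of the same degree are never related by a power of two, if the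
leading coefficients are not and the argument is large. -/
theorem sep (G H : ℕ[X]) (hGH : G.natDegree = H.natDegree) (h1 : 1 ≤ H.natDegree)
    (hlc : ∀ f : ℕ, G.leadingCoeff ≠ 2 ^ f * H.leadingCoeff) (i j : ℕ) :
    ∃ c0 : ℕ, ∀ c, c0 ≤ c → ∀ f : ℕ, G.eval (c + i) ≠ 2 ^ f * H.eval (c + j) := by
  have hH0 : H ≠ 0 := by rintro rfl; simp at h1
  have hHlc : 0 < H.leadingCoeff := Nat.pos_of_ne_zero (by rwa [Ne, leadingCoeff_eq_zero])
  have key : ∀ f : ℕ, ∃ c0 : ℕ, ∀ c, c0 ≤ c →
      (2 ^ f * H.leadingCoeff < G.leadingCoeff → 2 ^ f * H.eval (c + j) < G.eval (c + i)) ∧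
      (G.leadingCoeff < 2 ^ f * H.leadingCoeff → G.eval (c + i) < 2 ^ f * H.eval (c + j)) := by
    intro f
    have hf : (2 ^ f : ℕ) ≠ 0 := by positivity
    have hd1 : (C (2 ^ f) * taylor j H).natDegree = H.natDegree := by
      rw [natDegree_C_mul hf, natDegree_taylor]
    have hl1 : (C (2 ^ f) * taylor j H).leadingCoeff = 2 ^ f * H.leadingCoeff := by
      rw [leadingCoeff_mul, leadingCoeff_C, leadingCoeff_taylor]
    have he1 : ∀ c : ℕ, (C (2 ^ f) * taylor j H).eval c = 2 ^ f * H.eval (c + j) := by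
      intro c; rw [eval_mul, eval_C, taylor_eval]
    have he2 : ∀ c : ℕ, (taylor i G).eval c = G.eval (c + i) := fun c => taylor_eval _ _ _
    rcases lt_trichotomy (2 ^ f * H.leadingCoeff) G.leadingCoeff with h | h | h
    · obtain ⟨c0, hc0⟩ := ev_lt (C (2 ^ f) * taylor j H) (taylor i G)
        (by rw [hd1, natDegree_taylor, hGH]) (by rw [natDegree_taylor, hGH]; exact h1)
        (by rw [hl1, leadingCoeff_taylor]; exact h)
      refine ⟨c0, fun c hc => ⟨fun _ => ?_, fun h' => absurd h' (by omega)⟩⟩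
      have := hc0 c hc
      rwa [he1, he2] at this
    · exact absurd h.symm (hlc f)
    · obtain ⟨c0, hc0⟩ := ev_lt (taylor i G) (C (2 ^ f) * taylor j H)
        (by rw [hd1, natDegree_taylor, hGH]) (by rw [hd1]; exact h1)
        (by rw [hl1, leadingCoeff_taylor]; exact h)
      refine ⟨c0, fun c hc => ⟨fun h' => absurd h' (by omega), fun _ => ?_⟩⟩
      have := hc0 c hc
      rwa [he1, he2] at this
  choose c0 hc0 using key
  set f1 := G.leadingCoeff with hf1
  have hf1lt : G.leadingCoeff < 2 ^ f1 * H.leadingCoeff := by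
    calc G.leadingCoeff < 2 ^ f1 := Nat.lt_two_pow_self
      _ ≤ 2 ^ f1 * H.leadingCoeff := Nat.le_mul_of_pos_right _ hHlc
  refine ⟨∑ f ∈ range (f1 + 1), c0 f, fun c hc f heq => ?_⟩
  have hcf : ∀ f ≤ f1, c0 f ≤ c := fun f hf =>
    (Finset.single_le_sum (f := c0) (fun _ _ => Nat.zero_le _) (by rw [mem_range]; omega)).trans hc
  rcases le_or_gt f f1 with hf | hf
  · obtain ⟨ha, hb⟩ := hc0 f c (hcf f hf)
    rcases lt_or_gt_of_ne (hlc f) with h | h
    · have := hb h; omega
    · have := ha h; omega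
  · have h2 := (hc0 f1 c (hcf f1 le_rfl)).2 hf1lt
    have h3 : 2 ^ f1 * H.eval (c + j) ≤ 2 ^ f * H.eval (c + j) :=
      Nat.mul_le_mul_right _ (Nat.pow_le_pow_right (by norm_num) hf.le)
    omega

theorem prod_flat2 (d e : ℕ) (L : List ℕ) :
    ((L.flatMap (fun a => List.replicate e a)).map (Del d)).prod =
      (L.map (fun a => (Del d a) ^ e)).prod := prod_flat d e L

/-- On polynomials of degree less than `2 ^ t` the `2 ^ t`-th powers of block operators are
trivial. -/
theorem pow_id (d a t : ℕ) {φ : Fn} (h : φ 0 = 0) (Q : ℕ[X]) (hQ : Q.natDegree < 2 ^ t) :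
    ((Del d a) ^ (2 ^ t)) φ Q = φ Q := by
  rw [Del_pow_apply, Finset.sum_range_succ']
  have h0 : (fop a 0)^[2 ^ t] Q = Q := by
    have : fop a 0 = id := by funext Q; exact fop_zero_deriv a Q
    rw [this, Function.iterate_id]; rfl
  have hj : ∀ j, (fop a (j + 1))^[2 ^ t] Q = 0 := by
    intro j
    apply iter_eq_zero
    have : 2 ^ t * (j + 1) = 2 ^ t + 2 ^ t * j := by ring
    omega
  rw [Finset.sum_eq_zero (fun j _ => by rw [hj j]; exact h), zero_add, h0]

theorem prod_id (d t : ℕ) {φ : Fn} (h : Good φ) (Q : ℕ[X]) (hQ : Q.natDegree < 2 ^ t)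
    (B : List ℕ) : ((B.map (fun b => (Del d b) ^ (2 ^ t))).prod φ) Q = φ Q := by
  induction B with
  | nil => simp
  | cons b B ih =>
    rw [List.map_cons, List.prod_cons, Module.End.mul_apply,
      pow_id d b t (good_prod d t B h).zero Q hQ, ih]

/-- A polynomial of smaller degree is eventually smaller. -/
theorem ev_lt_deg (A B : ℕ[X]) (hA : A.natDegree < B.natDegree) :
    ∃ c0 : ℕ, ∀ c, c0 ≤ c → A.eval c < B.eval c := by
  have hB0 : B ≠ 0 := by rintro rfl; simp at hA
  have hBlc : 0 < B.leadingCoeff := Nat.pos_of_ne_zero (by rwa [Ne, leadingCoeff_eq_zero])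
  set Q : ℤ[X] := B.map (Nat.castRingHom ℤ) - A.map (Nat.castRingHom ℤ) - 1 with hQ
  have hco : Q.coeff B.natDegree = (B.leadingCoeff : ℤ) := by
    rw [hQ, coeff_sub, coeff_sub, coeff_map, coeff_map, coeff_one, if_neg (by omega), sub_zero,
      coeff_eq_zero_of_natDegree_lt hA]
    simp
  have hpos : 0 < Q.coeff B.natDegree := by
    rw [hco]
    exact_mod_cast hBlc
  have hle : Q.natDegree ≤ B.natDegree := by
    rw [hQ]
    refine (natDegree_sub_le _ _).trans (max_le ((natDegree_sub_le _ _).trans (max_le ?_ ?_)) ?_)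
    · exact natDegree_map_le
    · exact natDegree_map_le.trans hA.le
    · simp
  have hdeg : Q.natDegree = B.natDegree := natDegree_eq_of_le_of_coeff_ne_zero hle hpos.ne'
  obtain ⟨c0, hc0⟩ := eventually_nonneg Q (by rw [leadingCoeff, hdeg]; exact hpos)
  refine ⟨c0, fun c hc => ?_⟩
  have h2 := hc0 c hc
  have e : ∀ p : ℕ[X], (p.map (Nat.castRingHom ℤ)).eval (c : ℤ) = ((p.eval c : ℕ) : ℤ) := by
    intro p
    have := Polynomial.eval_map_apply (f := Nat.castRingHom ℤ) (p := p) c
    simpa using this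
  rw [hQ, eval_sub, eval_sub, eval_one, e, e] at h2
  omega

/-- Values of polynomials of different degrees at `x + q 2^m`, `m` large, are not related by a
power of two. -/
theorem sep_deg (G H : ℕ[X]) (hGH : G.natDegree ≠ H.natDegree) (x y q : ℕ) (hq : 0 < q)
    (hx : 0 < G.eval x) :
    ∃ m0 : ℕ, ∀ m, m0 ≤ m → ∀ f : ℕ, G.eval (x + q * 2 ^ m) ≠ 2 ^ f * H.eval (y + q * 2 ^ m) := by
  have hbig : ∀ c0 : ℕ, ∀ m, c0 ≤ m → c0 ≤ q * 2 ^ m := by
    intro c0 m hm
    have h1 : m < 2 ^ m := Nat.lt_two_pow_self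
    have h2 : 2 ^ m ≤ q * 2 ^ m := Nat.le_mul_of_pos_left _ hq
    omega
  have he : ∀ (p : ℕ[X]) (x c : ℕ), (taylor x p).eval c = p.eval (x + c) := by
    intro p x c; rw [taylor_eval, add_comm]
  rcases lt_or_gt_of_ne hGH with h | h
  · obtain ⟨c0, hc0⟩ := ev_lt_deg (taylor x G) (taylor y H)
      (by rw [natDegree_taylor, natDegree_taylor]; exact h)
    refine ⟨c0, fun m hm f heq => ?_⟩
    have h1 := hc0 (q * 2 ^ m) (hbig c0 m hm)
    rw [he, he] at h1
    have h2 : H.eval (y + q * 2 ^ m) ≤ 2 ^ f * H.eval (y + q * 2 ^ m) :=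
      Nat.le_mul_of_pos_left _ (by positivity)
    omega
  · set F := G.eval x with hF
    have hf0 : (2 ^ F : ℕ) ≠ 0 := by positivity
    obtain ⟨c0, hc0⟩ := ev_lt_deg (C (2 ^ F) * taylor y H) (taylor x G)
      (by rw [natDegree_C_mul hf0, natDegree_taylor, natDegree_taylor]; exact h)
    refine ⟨max c0 F, fun m hm f heq => ?_⟩
    have h1 := hc0 (q * 2 ^ m) (hbig c0 m ((le_max_left _ _).trans hm))
    rw [eval_mul, eval_C, he, he] at h1
    have hmF : F ≤ m := (le_max_right _ _).trans hm
    -- `f < F`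
    have hfF : f < F := by
      by_contra hcon
      push Not at hcon
      have h3 : 2 ^ F ∣ G.eval (x + q * 2 ^ m) := by
        rw [heq]
        exact (pow_dvd_pow 2 hcon).mul_right _
      rw [eval_block G.natDegree G le_rfl x q m, Finset.sum_range_succ'] at h3
      have h4 : 2 ^ F ∣ ∑ k ∈ range G.natDegree, (fop q (k + 1) G).eval x * 2 ^ (m * (k + 1)) := by
        apply Finset.dvd_sum
        intro k _
        apply Dvd.dvd.mul_left
        apply pow_dvd_pow
        calc F ≤ m := hmF
          _ ≤ m * (k + 1) := Nat.le_mul_of_pos_right _ (by omega)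
      have h5 := (Nat.dvd_add_right h4).1 h3
      rw [fop_zero_deriv, mul_zero, pow_zero, mul_one] at h5
      have h6 := Nat.le_of_dvd hx h5
      have h7 : G.eval x < 2 ^ F := Nat.lt_two_pow_self
      omega
    have h8 : 2 ^ f * H.eval (y + q * 2 ^ m) ≤ 2 ^ F * H.eval (y + q * 2 ^ m) :=
      Nat.mul_le_mul_right _ (Nat.pow_le_pow_right (by norm_num) hfF.le)
    omega

/-- `achieve'` with a free last shift. -/
theorem achieve2 (d k q a : ℕ) (L : List ℕ) (hL : ∀ b ∈ L, q ∣ b) (F : Finset ℕ[X])
    (hF : ∀ Q ∈ F, Q.natDegree ≤ d) :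
    ∃ n' m0, q ∣ n' ∧ ∀ m, m0 ≤ m → ∀ Q ∈ F, ∀ y ∈ range k,
      tm (Q.eval (y + (n' + a * 2 ^ m))) = (((a :: L).map (Del d)).prod (ev y)) Q := by
  classical
  let F' : Finset ℕ[X] := F.biUnion (fun Q => (range (d + 1)).image (fun j => fop a j Q))
  obtain ⟨n', hqn', hn'⟩ := achieve' d k q L hL F' (by
    intro Q hQ
    simp only [F', Finset.mem_biUnion, Finset.mem_image] at hQ
    obtain ⟨Q0, hQ0, j, _, rfl⟩ := hQ
    have := natDegree_fop_le a j Q0
    have := hF Q0 hQ0
    omega)
  obtain ⟨m0, hm⟩ : ∃ m0 : ℕ, ∀ m, m0 ≤ m → ∀ Q ∈ F, ∀ y ∈ range k, ∀ j ∈ range (d + 1),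
      (fop a j Q).eval (y + n') < 2 ^ m := by
    refine ⟨∑ Q ∈ F, ∑ y ∈ range k, ∑ j ∈ range (d + 1), (fop a j Q).eval (y + n'), ?_⟩
    intro m hm Q hQ y hy j hj
    refine lt_of_le_of_lt (le_trans ?_ hm) Nat.lt_two_pow_self
    refine le_trans ?_ (Finset.single_le_sum (f := fun Q => ∑ y ∈ range k, ∑ j ∈ range (d + 1),
      (fop a j Q).eval (y + n')) (fun _ _ => Nat.zero_le _) hQ)
    refine le_trans ?_ (Finset.single_le_sum (f := fun y => ∑ j ∈ range (d + 1),
      (fop a j Q).eval (y + n')) (fun _ _ => Nat.zero_le _) hy)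
    exact Finset.single_le_sum (f := fun j => (fop a j Q).eval (y + n'))
      (fun _ _ => Nat.zero_le _) hj
  refine ⟨n', m0, hqn', fun m hm' Q hQ y hy => ?_⟩
  rw [← add_assoc, tm_block d Q (hF Q hQ) (y + n') a m (hm m hm' Q hQ y hy)]
  rw [List.map_cons, List.prod_cons, Module.End.mul_apply, Del_apply, Del_apply]
  refine Finset.sum_congr rfl fun j hj => ?_
  exact hn' _ (by
    simp only [F', Finset.mem_biUnion, Finset.mem_image]
    exact ⟨Q, hQ, j, hj, rfl⟩) y hy

/-- Moving the base point without changing the values of the polynomials of bounded degree. -/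
theorem move (D k q : ℕ) (F : Finset ℕ[X]) (hF : ∀ Q ∈ F, Q.natDegree ≤ D) :
    ∃ n' m0, q ∣ n' ∧ ∀ m, m0 ≤ m → ∀ Q ∈ F, ∀ y ∈ range k,
      tm (Q.eval (y + (n' + q * 2 ^ m))) = tm (Q.eval y) := by
  obtain ⟨n', m0, h1, h2⟩ := achieve2 D k q q (List.replicate (2 ^ D - 1) q)
    (fun b hb => by rw [List.eq_of_mem_replicate hb]) F hF
  refine ⟨n', m0, h1, fun m hm Q hQ y hy => ?_⟩
  rw [h2 m hm Q hQ y hy]
  have hp : 0 < 2 ^ D := by positivity
  have e : q :: List.replicate (2 ^ D - 1) q = List.replicate (2 ^ D) q := by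
    rw [← List.replicate_succ, Nat.sub_add_cancel hp]
  rw [e, List.map_replicate, List.prod_replicate,
    pow_id D q D (ev_zero y) Q ((hF Q hQ).trans_lt Nat.lt_two_pow_self)]
  rfl

/-- The joint theorem, for polynomials with non-negative coefficients: one dyadic block of
degrees after the other. -/
theorem main_block {r : ℕ} (R : Fin r → ℕ[X]) (hdeg : ∀ j, 2 ≤ (R j).natDegree)
    (hlc : ∀ i j, i ≠ j → (R i).natDegree = (R j).natDegree →
      ∀ f : ℕ, (R i).leadingCoeff ≠ 2 ^ f * (R j).leadingCoeff)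
    (q : ℕ) (hq : 0 < q) (a0 k : ℕ) (g : Fin r → Fin k → ZMod 2) :
    ∀ s N0 : ℕ, ∃ n : ℕ, N0 ≤ n ∧ n ≡ a0 [MOD q] ∧
      ∀ (j : Fin r), (R j).natDegree ≤ 2 ^ s → ∀ (i : Fin k), tm ((R j).eval (n + i)) = g j i := by
  classical
  have hR0 : ∀ j, 0 < (R j).leadingCoeff := by
    intro j
    refine Nat.pos_of_ne_zero ?_
    rw [Ne, leadingCoeff_eq_zero]
    intro h
    have := hdeg j
    rw [h, natDegree_zero] at this
    omega
  intro s
  induction s with
  | zero =>
    intro N0
    refine ⟨a0 + q * N0, ?_, ?_, fun j hj => ?_⟩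
    · have : N0 ≤ q * N0 := Nat.le_mul_of_pos_left _ hq
      omega
    · show (a0 + q * N0) % q = a0 % q
      simp
    · have := hdeg j
      simp at hj
      omega
  | succ s ih =>
    intro N0
    have hp : 0 < 2 ^ s := by positivity
    have hss : 2 ^ (s + 1) = 2 * 2 ^ s := by rw [pow_succ]; ring
    let top : Fin r → Prop := fun j => 2 ^ s < (R j).natDegree ∧ (R j).natDegree ≤ 2 ^ (s + 1)
    let G : Fin r → ℕ[X] := fun j => derivative^[2 ^ s] (R j)
    have hGco : ∀ j, 2 ^ s ≤ (R j).natDegree → (G j).coeff ((R j).natDegree - 2 ^ s) =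
        (R j).natDegree.descFactorial (2 ^ s) * (R j).leadingCoeff := by
      intro j hj
      simp only [G]
      rw [coeff_iterate_derivative, Nat.sub_add_cancel hj, smul_eq_mul, leadingCoeff]
    have hdf : ∀ j, 2 ^ s ≤ (R j).natDegree → 0 < (R j).natDegree.descFactorial (2 ^ s) :=
      fun j hj => Nat.descFactorial_pos.2 hj
    have hGdeg : ∀ j, 2 ^ s ≤ (R j).natDegree → (G j).natDegree = (R j).natDegree - 2 ^ s := by
      intro j hj
      apply natDegree_eq_of_le_of_coeff_ne_zero
      · exact natDegree_iterate_derivative _ _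
      · rw [hGco j hj]
        exact (Nat.mul_pos (hdf j hj) (hR0 j)).ne'
    have hGlc : ∀ j, 2 ^ s ≤ (R j).natDegree → (G j).leadingCoeff =
        (R j).natDegree.descFactorial (2 ^ s) * (R j).leadingCoeff := by
      intro j hj
      rw [leadingCoeff, hGdeg j hj, hGco j hj]
    have hG1 : ∀ j, top j → 1 ≤ (G j).natDegree := by
      intro j hj
      rw [hGdeg j hj.1.le]; have := hj.1; omega
    have hmono : ∀ j, top j → StrictMono (fun x => (G j).eval x) := fun j hj =>
      strictMono_nat_of_lt_succ (eval_mono_lt (G j) (hG1 j hj))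
    -- pairs of the same degree
    have hsep : ∀ x : (Fin r × Fin k) × (Fin r × Fin k), ∃ c0 : ℕ, ∀ c, c0 ≤ c →
        top x.1.1 → top x.2.1 → (R x.1.1).natDegree = (R x.2.1).natDegree → x.1 ≠ x.2 →
        ∀ f : ℕ, (G x.1.1).eval (c + x.1.2) ≠ 2 ^ f * (G x.2.1).eval (c + x.2.2) := by
      rintro ⟨⟨j, i⟩, ⟨j', i'⟩⟩
      by_cases hj : j = j'
      · subst hj
        refine ⟨2 * k * (G j).natDegree + 1, fun c hc ht _ _ hne f heq => ?_⟩
        have ht' : top j := ht
        have hii : (i : ℕ) ≠ i' := by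
          intro h
          exact hne (by rw [Fin.ext h])
        have h0 := eval_ratio (G j) (hG1 j ht') k c (by omega)
        have h1 : (G j).eval (c + i) ≤ (G j).eval (c + k) :=
          (hmono j ht').monotone (by have := i.2; omega)
        have h2 : (G j).eval c ≤ (G j).eval (c + i') := (hmono j ht').monotone (by omega)
        change (G j).eval (c + i) = 2 ^ f * (G j).eval (c + i') at heq
        cases f with
        | zero =>
          rw [pow_zero, one_mul] at heq
          have := (hmono j ht').injective heq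
          omega
        | succ f =>
          have h3 : 2 * (G j).eval (c + i') ≤ 2 ^ (f + 1) * (G j).eval (c + i') := by
            apply Nat.mul_le_mul_right
            rw [pow_succ]
            have : 1 ≤ 2 ^ f := Nat.one_le_two_pow
            omega
          omega
      · by_cases hcond : top j ∧ top j' ∧ (R j).natDegree = (R j').natDegree
        · obtain ⟨ht, ht', hdd⟩ := hcond
          obtain ⟨c0, hc0⟩ := sep (G j) (G j') (by rw [hGdeg j ht.1.le, hGdeg j' ht'.1.le, hdd])
            (hG1 j' ht') (by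
            intro f h
            rw [hGlc j ht.1.le, hGlc j' ht'.1.le, hdd] at h
            apply hlc j j' hj hdd f
            apply Nat.eq_of_mul_eq_mul_left (hdf j' ht'.1.le)
            rw [h]; ring) i i'
          exact ⟨c0, fun c hc _ _ _ _ f => hc0 c hc f⟩
        · refine ⟨0, fun c _ h1 h2 h3 => ?_⟩
          exact absurd ⟨h1, h2, h3⟩ hcond
    choose c1 hc1 using hsep
    obtain ⟨x0, hx0N, hx0q, hx0⟩ := ih (N0 + ∑ x, c1 x + 1)
    -- move the base point
    obtain ⟨n', m0, hqn', hmove⟩ := move (2 ^ (s + 1)) (x0 + k) q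
      ((univ.filter (fun j => (R j).natDegree ≤ 2 ^ (s + 1))).image R) (by
        intro Q hQ
        rw [Finset.mem_image] at hQ
        obtain ⟨j, hj, rfl⟩ := hQ
        exact (mem_filter.1 hj).2)
    -- the polynomials whose values are the entries of the vector
    let V : Fin r × Option (Fin k) → ℕ[X] := fun x => match x.2 with
      | some i => taylor (i : ℕ) (G x.1)
      | none => C ((2 ^ s).factorial * (R x.1).leadingCoeff)
    let ok : Fin r × Option (Fin k) → Prop := fun x => match x.2 with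
      | some _ => top x.1
      | none => (R x.1).natDegree = 2 ^ s
    have hVpos : ∀ x, ok x → ∀ c, 1 ≤ c → 0 < (V x).eval c := by
      rintro ⟨j, _ | i⟩ hx c hc
      · simp only [V, eval_C]
        exact Nat.mul_pos (Nat.factorial_pos _) (hR0 j)
      · simp only [V, taylor_eval]
        have h1 : (G j).eval 0 < (G j).eval (c + i) := hmono j hx (by omega)
        omega
    have hVdeg : ∀ x, ok x → (V x).natDegree = match x.2 with
        | some _ => (R x.1).natDegree - 2 ^ s
        | none => 0 := by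
      rintro ⟨j, _ | i⟩ hx
      · simp only [V, natDegree_C]
      · simp only [V, natDegree_taylor]
        exact hGdeg j (le_of_lt hx.1)
    have hsepd : ∀ x : (Fin r × Option (Fin k)) × (Fin r × Option (Fin k)), ∃ m1 : ℕ, ∀ m,
        m1 ≤ m → ok x.1 → (V x.1).natDegree ≠ (V x.2).natDegree → ∀ f : ℕ,
        (V x.1).eval (x0 + n' + q * 2 ^ m) ≠ 2 ^ f * (V x.2).eval (x0 + n' + q * 2 ^ m) := by
      rintro ⟨x, y⟩
      by_cases hxy : ok x ∧ (V x).natDegree ≠ (V y).natDegree
      · obtain ⟨m1, hm1⟩ := sep_deg (V x) (V y) hxy.2 (x0 + n') (x0 + n') q hq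
          (hVpos x hxy.1 _ (by omega))
        exact ⟨m1, fun m hm _ _ f => hm1 m hm f⟩
      · refine ⟨0, fun m _ h1 h2 => ?_⟩
        exact absurd ⟨h1, h2⟩ hxy
    choose m1 hm1 using hsepd
    obtain ⟨m, hm0, hm⟩ : ∃ m, m0 ≤ m ∧ ∀ x, m1 x ≤ m := by
      refine ⟨m0 + ∑ x, m1 x, by omega, fun x => ?_⟩
      have h1 : m1 x ≤ ∑ x, m1 x := Finset.single_le_sum (f := m1) (fun _ _ => Nat.zero_le _)
        (mem_univ x)
      omega
    obtain ⟨c, hcdef⟩ : ∃ c, c = x0 + n' + q * 2 ^ m := ⟨_, rfl⟩
    have hcx : x0 ≤ c := by omega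
    have hcs : ∀ x, c1 x ≤ c := by
      intro x
      have h1 : c1 x ≤ ∑ x, c1 x := Finset.single_le_sum (f := c1) (fun _ _ => Nat.zero_le _)
        (mem_univ x)
      omega
    have hcq : c ≡ a0 [MOD q] := by
      have h1 : n' + q * 2 ^ m ≡ 0 [MOD q] :=
        (Nat.modEq_zero_iff_dvd).2 ((Nat.dvd_add_right hqn').2 (dvd_mul_right _ _))
      have h2 := hx0q.add h1
      rw [hcdef, add_assoc]
      simpa using h2
    -- the values of the lower polynomials at `c`
    have hlow : ∀ j, (R j).natDegree ≤ 2 ^ s → ∀ i : Fin k, tm ((R j).eval (c + i)) = g j i := by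
      intro j hj i
      have h1 := hmove m hm0 (R j) (Finset.mem_image_of_mem R (by
        rw [mem_filter]; exact ⟨mem_univ j, by omega⟩)) (x0 + i)
        (by rw [Finset.mem_range]; have := i.2; omega)
      rw [hx0 j hj i] at h1
      rw [← h1, hcdef]
      congr 2
      ring
    -- independence of the vector
    have hvne : ∀ x y, ok x → ok y → x ≠ y → ∀ f : ℕ, (V x).eval c ≠ 2 ^ f * (V y).eval c := by
      intro x y hx hy hxy f
      by_cases hd : (V x).natDegree = (V y).natDegree
      · rw [hVdeg x hx, hVdeg y hy] at hd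
        obtain ⟨j, _ | i⟩ := x <;> obtain ⟨j', _ | i'⟩ := y
        · have hjj : j ≠ j' := fun h => hxy (by rw [h])
          have e1 : (R j).natDegree = 2 ^ s := hx
          have e2 : (R j').natDegree = 2 ^ s := hy
          simp only [V, eval_C]
          intro h
          apply hlc j j' hjj (e1.trans e2.symm) f
          apply Nat.eq_of_mul_eq_mul_left (Nat.factorial_pos (2 ^ s))
          rw [h]; ring
        · have e2 : top j' := hy
          have := e2.1
          simp only at hd
          omega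
        · have e1 : top j := hx
          have := e1.1
          simp only at hd
          omega
        · have e1 : top j := hx
          have e2 : top j' := hy
          have h1 := e1.1
          have h2 := e2.1
          simp only at hd
          simp only [V, taylor_eval]
          exact hc1 ((j, i), (j', i')) c (hcs _) e1 e2 (show (R j).natDegree = (R j').natDegree by omega)
            (fun h => hxy (by
              simp only [Prod.mk.injEq] at h ⊢
              exact ⟨h.1, by rw [h.2]⟩)) f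
      · have := hm1 (x, y) m (hm _) hx hd f
        rw [← hcdef] at this
        exact this
    obtain ⟨L, hLq, hL⟩ := span_fin (ι := {x // ok x}) (2 ^ s) (by omega) q hq
      (fun x => (V x.1).eval c) (fun x => hVpos x.1 x.2 c (by omega))
      (fun x y hxy => hvne x.1 y.1 x.2 y.2 (fun h => hxy (Subtype.ext h)))
      (fun x => match x.1.2 with
        | some i => g x.1.1 i - tm ((R x.1.1).eval (c + i))
        | none => 0)
    have hLtop : ∀ j, top j → ∀ i : Fin k,
        (L.map (fun a => tm (a ^ 2 ^ s * (G j).eval (c + i)))).sum =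
          g j i - tm ((R j).eval (c + i)) := by
      intro j hj i
      have := hL ⟨(j, some i), hj⟩
      simpa only [V, taylor_eval] using this
    have hLlow : ∀ j, (R j).natDegree = 2 ^ s →
        (L.map (fun a => tm (a ^ 2 ^ s * ((2 ^ s).factorial * (R j).leadingCoeff)))).sum = 0 := by
      intro j hj
      have := hL ⟨(j, none), hj⟩
      simpa only [V, eval_C] using this
    set D := 2 * 2 ^ s with hD
    set κ : Fin r → ZMod 2 := fun j =>
      ((L.map (fun a => (Del D a) ^ (2 ^ s))).prod (ev 0)) (R j) -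
      (ev 0 (R j) + (L.map (fun a => ev 0 ((a ^ 2 ^ s) • derivative^[2 ^ s] (R j)))).sum) with hκ
    have hval : ∀ (j : Fin r), top j → ∀ (i : Fin k),
        ((L.map (fun a => (Del D a) ^ (2 ^ s))).prod (ev (c + i))) (R j) = g j i + κ j := by
      intro j hj i
      have h1 := Phi_big D s (by omega) le_rfl (c + i) 0 L (R j) (by have := hj.2; omega)
      have h2 : (L.map (fun a => ev (c + i) ((a ^ 2 ^ s) • derivative^[2 ^ s] (R j)))).sum =
          g j i - tm ((R j).eval (c + i)) := by
        rw [← hLtop j hj i]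
        congr 1
        apply List.map_congr_left
        intro a _
        simp only [ev, G, eval_smul, smul_eq_mul]
      rw [h2] at h1
      have h3 : ev (c + i) (R j) = tm ((R j).eval (c + i)) := rfl
      rw [h3] at h1
      have h4 : κ j = ((L.map (fun a => (Del D a) ^ (2 ^ s))).prod (ev 0)) (R j) -
        (ev 0 (R j) + (L.map (fun a => ev 0 ((a ^ 2 ^ s) • derivative^[2 ^ s] (R j)))).sum) := rfl
      rw [← h4] at h1
      linear_combination h1
    have hvlow : ∀ (j : Fin r), (R j).natDegree ≤ 2 ^ s → ∀ (i : Fin k),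
        ((L.map (fun a => (Del D a) ^ (2 ^ s))).prod (ev (c + i))) (R j) = g j i := by
      intro j hj i
      rw [Phi_small D s (by omega) (c + i) L (R j) (by omega)]
      have h3 : ev (c + i) (R j) = g j i := hlow j hj i
      rw [h3]
      have h4 : (L.map (fun a => ev (c + i) ((a ^ 2 ^ s) • derivative^[2 ^ s] (R j)))).sum = 0 := by
        rcases lt_or_eq_of_le hj with h | h
        · rw [iterate_derivative_eq_zero h]
          simp [ev_zero]
        · rw [← hLlow j h]
          congr 1
          apply List.map_congr_left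
          intro a _
          have h5 : derivative^[2 ^ s] (R j) = C ((2 ^ s).factorial * (R j).leadingCoeff) := by
            have h6 : ((2 ^ s).factorial • hasseDeriv (2 ^ s)) (R j) = derivative^[2 ^ s] (R j) :=
              congrFun (factorial_smul_hasseDeriv (R := ℕ) (k := 2 ^ s)) (R j)
            rw [← h6]
            have h7 : hasseDeriv (2 ^ s) (R j) = C (R j).leadingCoeff := by
              rw [← h]; exact hasseDeriv_natDegree_eq_C (R j)
            simp only [LinearMap.smul_apply, h7]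
            rw [← C_mul']
            simp
          rw [h5]
          simp [ev]
      rw [h4, add_zero]
    -- the correction of the constants
    obtain ⟨B, hBq, hB⟩ := span_fin (ι := {j : Fin r // (R j).natDegree = D}) D (by omega) q hq
      (fun j => D.factorial * (R j.1).leadingCoeff)
      (fun j => Nat.mul_pos (Nat.factorial_pos _) (hR0 j.1))
      (fun i j hij f h => by
        apply hlc i.1 j.1 (fun h' => hij (Subtype.ext h')) (i.2.trans j.2.symm) f
        apply Nat.eq_of_mul_eq_mul_left (Nat.factorial_pos D)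
        rw [h]; ring) (fun j => κ j.1)
    have hfin : ∀ (j : Fin r), (R j).natDegree ≤ 2 ^ (s + 1) → ∀ (i : Fin k),
        ((B.map (fun b => (Del D b) ^ (2 ^ (s + 1)))).prod
          ((L.map (fun a => (Del D a) ^ (2 ^ s))).prod (ev (c + i)))) (R j) = g j i := by
      intro j hj i
      have hgood := good_prod D s L (good_ev (c + i))
      rcases lt_or_eq_of_le hj with hlt | heq
      · rw [prod_id D (s + 1) hgood (R j) hlt B]
        rcases Nat.lt_or_ge (2 ^ s) (R j).natDegree with ht | ht
        · rw [hval j ⟨ht, hj⟩ i]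
          have h1 := Phi_small D s (by omega) 0 L (R j) (by omega)
          have h2 : κ j = 0 := by
            simp only [hκ]
            rw [h1, sub_self]
          rw [h2, add_zero]
        · exact hvlow j ht i
      · have heqD : (R j).natDegree = D := by rw [heq, hss]
        rw [flips D s hD _ hgood (R j) heqD B]
        have h1 := hB ⟨j, heqD⟩
        simp only at h1
        rw [h1, hval j ⟨by omega, hj⟩ i]
        have : ∀ x y : ZMod 2, x + y + y = x := by decide
        exact this _ _
    obtain ⟨n, hqn, hn⟩ := achieve' D (c + k) q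
      (B.flatMap (fun a => List.replicate (2 ^ (s + 1)) a) ++
        L.flatMap (fun a => List.replicate (2 ^ s) a)) (by
        intro a ha
        rw [List.mem_append, List.mem_flatMap, List.mem_flatMap] at ha
        rcases ha with ⟨b, hb, hab⟩ | ⟨b, hb, hab⟩
        · rw [List.eq_of_mem_replicate hab]; exact hBq b hb
        · rw [List.eq_of_mem_replicate hab]; exact hLq b hb)
      ((univ.filter (fun j => (R j).natDegree ≤ 2 ^ (s + 1))).image R) (by
        intro Q hQ
        rw [Finset.mem_image] at hQ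
        obtain ⟨j, hj, rfl⟩ := hQ
        have := (mem_filter.1 hj).2
        omega)
    refine ⟨c + n, by omega, ?_, fun j hj i => ?_⟩
    · have : c + n ≡ a0 + 0 [MOD q] := hcq.add ((Nat.modEq_zero_iff_dvd).2 hqn)
      simpa using this
    · have h1 := hn (R j) (Finset.mem_image_of_mem R (by
        rw [mem_filter]; exact ⟨mem_univ j, hj⟩)) (c + i)
        (by rw [Finset.mem_range]; have := i.2; omega)
      rw [List.map_append, List.prod_append, prod_flat, prod_flat, Module.End.mul_apply,
        hfin j hj i] at h1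
      rw [← h1]
      congr 2
      ring

/-- Translate an integer polynomial so that its coefficients become non-negative. -/
theorem to_nat' (P : ℤ[X]) (hP : ∀ n : ℕ, 0 ≤ P.eval (n : ℤ)) (hd : 1 ≤ P.natDegree) :
    ∃ c0 : ℕ, ∀ c, c0 ≤ c → ∃ R : ℕ[X], R.natDegree = P.natDegree ∧
      (R.leadingCoeff : ℤ) = P.leadingCoeff ∧
      ∀ n : ℕ, ((R.eval n : ℕ) : ℤ) = P.eval ((n + c : ℕ) : ℤ) := by
  obtain ⟨c0, R, h1, h2⟩ := to_nat P hP hd
  refine ⟨c0, fun c hc => ⟨taylor (c - c0) R, by rw [natDegree_taylor, h1], ?_, fun n => ?_⟩⟩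
  · rw [leadingCoeff_taylor]
    have h3 : R.map (Nat.castRingHom ℤ) = taylor (c0 : ℤ) P := by
      apply Polynomial.eq_of_infinite_eval_eq
      refine Set.Infinite.mono (s := Set.range (fun n : ℕ => (n : ℤ))) ?_
        (Set.infinite_range_of_injective Nat.cast_injective)
      rintro _ ⟨n, rfl⟩
      show (R.map (Nat.castRingHom ℤ)).eval (n : ℤ) = (taylor (c0 : ℤ) P).eval (n : ℤ)
      have h4 := Polynomial.eval_map_apply (f := Nat.castRingHom ℤ) (p := R) n
      have h5 : (R.map (Nat.castRingHom ℤ)).eval (n : ℤ) = ((R.eval n : ℕ) : ℤ) := by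
        simpa using h4
      rw [h5, h2 n, taylor_eval]
      push_cast
      rfl
    have h6 := congrArg Polynomial.leadingCoeff h3
    rw [leadingCoeff_taylor, leadingCoeff_map_of_injective (Nat.cast_injective)] at h6
    exact h6
  · rw [taylor_eval, h2]
    congr 1
    push_cast
    have : ((c - c0 : ℕ) : ℤ) = (c : ℤ) - c0 := by push_cast [hc]; ring
    rw [this]; ring

/-- **Joint words.** -/
theorem main_int {r : ℕ} (P : Fin r → ℤ[X])
    (hP : ∀ j, ∀ n : ℕ, 0 ≤ (P j).eval (n : ℤ)) (hdeg : ∀ j, 2 ≤ (P j).natDegree)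
    (hlc : ∀ i j, i ≠ j → (P i).natDegree = (P j).natDegree →
      ∀ f : ℕ, (P i).leadingCoeff ≠ 2 ^ f * (P j).leadingCoeff)
    (q : ℕ) (hq : 0 < q) (a0 N0 k : ℕ) (g : Fin r → Fin k → ZMod 2) :
    ∃ n : ℕ, N0 ≤ n ∧ n ≡ a0 [MOD q] ∧
      ∀ (j : Fin r) (i : Fin k), tm ((P j).eval ((n + i : ℕ) : ℤ)).toNat = g j i := by
  classical
  choose c0 hc0 using fun j => to_nat' (P j) (hP j) (by have := hdeg j; omega)
  have hle : ∀ j, c0 j ≤ q * ∑ j, c0 j := by
    intro j
    have h1 : c0 j ≤ ∑ j, c0 j := Finset.single_le_sum (f := c0) (fun _ _ => Nat.zero_le _)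
      (mem_univ j)
    exact h1.trans (Nat.le_mul_of_pos_left _ hq)
  set c := q * ∑ j, c0 j with hc
  choose R h1 h2 h3 using fun j => hc0 j c (hle j)
  obtain ⟨n, hn, hnq, hv'⟩ := main_block R (fun j => by rw [h1 j]; exact hdeg j) (by
    intro i j hij hd f h
    apply hlc i j hij (by rw [← h1 i, ← h1 j, hd]) f
    rw [← h2 i, ← h2 j, h]
    push_cast
    rfl) q hq a0 k g (∑ j, (R j).natDegree) N0
  have hv : ∀ (j : Fin r) (i : Fin k), tm ((R j).eval (n + i)) = g j i := by
    intro j i
    refine hv' j (le_trans ?_ Nat.lt_two_pow_self.le) i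
    exact Finset.single_le_sum (f := fun j => (R j).natDegree) (fun _ _ => Nat.zero_le _)
      (mem_univ j)
  refine ⟨n + c, by omega, ?_, fun j i => ?_⟩
  · have : n + c ≡ a0 + 0 [MOD q] := hnq.add ((Nat.modEq_zero_iff_dvd).2 ⟨_, hc⟩)
    simpa using this
  · rw [← hv j i]
    congr 1
    have h4 := h3 j (n + i)
    have h5 : (n + c + i : ℕ) = n + i + c := by ring
    rw [h5, ← h4]
    simp

end Pool.Agent.H19P.TMJ
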